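import Pool.Agent.Lib.EPH.Main

/-!
# The shift lemma on a cone which crosses the walls of the reduction domain
-/

open Matrix Filter Topology
open scoped Matrix.Norms.Elementwise

namespace Pool.Agent.Lib.EPH

open Real Pool.Agent.Lib.EpZ

theorem q2_swap (A B C a b : ℝ) : q2 C B A b a = q2 A B C a b := by
  unfold q2; ring

theorem q2_neg (A B C a b : ℝ) : q2 A (-B) C (-a) b = q2 A B C a b := by
  unfold q2; ring

theorem q2_shear (A B C a b : ℝ) : q2 A (B - A) (A - 2 * B + C) (a + b) b = q2 A B C a b := by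
  unfold q2; ring

/-- exchange of the two coordinates -/
def eswap : (ℤ × ℤ) × ℤ ≃ (ℤ × ℤ) × ℤ where
  toFun p := ((p.1.2, p.1.1), p.2)
  invFun p := ((p.1.2, p.1.1), p.2)
  left_inv _ := rfl
  right_inv _ := rfl

/-- change of sign of the first coordinate -/
def eneg : (ℤ × ℤ) × ℤ ≃ (ℤ × ℤ) × ℤ where
  toFun p := ((-p.1.1, p.1.2), p.2)
  invFun p := ((-p.1.1, p.1.2), p.2)
  left_inv p := by simp
  right_inv p := by simp

/-- the shear -/
def eshear : (ℤ × ℤ) × ℤ ≃ (ℤ × ℤ) × ℤ where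
  toFun p := ((p.1.1 + p.1.2, p.1.2), p.2)
  invFun p := ((p.1.1 - p.1.2, p.1.2), p.2)
  left_inv p := by simp
  right_inv p := by simp

theorem Th_swap (A B C h t u v : ℝ) : Th C B A h t v u = Th A B C h t u v := by
  unfold Th
  rw [← eswap.tsum_eq]
  refine tsum_congr fun p => ?_
  simp only [eswap, Equiv.coe_fn_mk]
  rw [q2_swap]

theorem Th_neg (A B C h t u v : ℝ) : Th A (-B) C h t (-u) v = Th A B C h t u v := by
  unfold Th
  rw [← eneg.tsum_eq]
  refine tsum_congr fun p => ?_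
  simp only [eneg, Equiv.coe_fn_mk]
  have e : ((-p.1.1 : ℤ) : ℝ) + p.2 * -u = -((p.1.1 : ℝ) + p.2 * u) := by push_cast; ring
  rw [e, q2_neg]

theorem Th_shear (A B C h t u v : ℝ) :
    Th A (B - A) (A - 2 * B + C) h t (u + v) v = Th A B C h t u v := by
  unfold Th
  rw [← eshear.tsum_eq]
  refine tsum_congr fun p => ?_
  simp only [eshear, Equiv.coe_fn_mk]
  have e : ((p.1.1 + p.1.2 : ℤ) : ℝ) + p.2 * (u + v) =
      ((p.1.1 : ℝ) + p.2 * u) + ((p.1.2 : ℝ) + p.2 * v) := by push_cast; ring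
  rw [e, q2_shear]

/-- the theta comparison, obtuse bases with `A ≤ C` -/
theorem Th_lt_ob {A B C h t u v : ℝ} (hA : 0 < A) (hB : 0 ≤ B) (hBA : B ≤ A) (hC : A ≤ C)
    (hE : 0 < A - 2 * B + C) (hC5 : C ≤ 5 * A) (hE5 : A ≤ 5 * (A - 2 * B + C))
    (hh : 2 * A ≤ 5 * h) (ht : 0 < t) (hq0 : 0 < q2 A B C u v) {l1 l2 : ℝ} (hl : 0 ≤ l1)
    (hl12 : l1 < l2) (hq : 25 * (l2 ^ 2 * q2 A B C u v) ≤ A)
    (hqE : 25 * (l2 ^ 2 * q2 A B C u v) ≤ A - 2 * B + C) :
    Th A B C h t (l2 * u) (l2 * v) < Th A B C h t (l1 * u) (l1 * v) := by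
  rcases le_total (2 * B) A with h1 | h1
  · exact Th_lt hA (by rw [abs_of_nonneg hB]; exact h1) hC hC5 hh ht hq0 hl hl12 hq
  -- shear and sign
  have key : ∀ u' v', Th A (A - B) (A - 2 * B + C) h t (-(u' + v')) v' = Th A B C h t u' v' := by
    intro u' v'
    rw [← Th_shear A B C h t u' v', ← Th_neg A (B - A) (A - 2 * B + C) h t (u' + v') v']
    congr 1
    ring
  have keyq : ∀ u' v', q2 A (A - B) (A - 2 * B + C) (-(u' + v')) v' = q2 A B C u' v' := by
    intro u' v'
    rw [← q2_shear A B C u' v', ← q2_neg A (B - A) (A - 2 * B + C) (u' + v') v']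
    congr 1
    ring
  have e1 : ∀ l : ℝ, -(l * u + l * v) = l * -(u + v) := fun l => by ring
  rcases le_total (2 * B) C with h2 | h2
  · have h3 := Th_lt (A := A) (B := A - B) (C := A - 2 * B + C) (h := h) (t := t) (u := -(u + v))
      (v := v) hA (by rw [abs_of_nonneg (by linarith)]; linarith) (by linarith) (by linarith) hh ht
      (by rw [keyq]; exact hq0) hl hl12 (by rw [keyq]; exact hq)
    rw [← e1, ← e1, key, key] at h3
    exact h3
  · have h3 := Th_lt (A := A - 2 * B + C) (B := A - B) (C := A) (h := h) (t := t) (u := v)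
      (v := -(u + v)) hE (by rw [abs_of_nonneg (by linarith)]; linarith) (by linarith) hE5
      (by linarith) ht
      (by rw [q2_swap, keyq]; exact hq0) hl hl12 (by rw [q2_swap, keyq]; exact hqE)
    rw [← e1, ← e1, Th_swap A (A - B) (A - 2 * B + C) h t (-(l2 * u + l2 * v)) (l2 * v),
      Th_swap A (A - B) (A - 2 * B + C) h t (-(l1 * u + l1 * v)) (l1 * v), key, key] at h3
    exact h3

/-- the theta comparison across the walls -/
theorem Th_lt_wide {A B C h t u v : ℝ} (hA : 0 < A) (hB : 20 * |B| ≤ 11 * A) (hC : 10 * A ≤ 11 * C)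
    (hC5 : C ≤ 5 * A) (hh : 2 * A ≤ 5 * h) (ht : 0 < t) (hq0 : 0 < q2 A B C u v) {l1 l2 : ℝ}
    (hl : 0 ≤ l1) (hl12 : l1 < l2) (hqA : 25 * (l2 ^ 2 * q2 A B C u v) ≤ A)
    (hqC : 25 * (l2 ^ 2 * q2 A B C u v) ≤ C)
    (hqE : 25 * (l2 ^ 2 * q2 A B C u v) ≤ A + C - 2 * |B|) :
    Th A B C h t (l2 * u) (l2 * v) < Th A B C h t (l1 * u) (l1 * v) := by
  -- nonnegative `B`
  have main : ∀ B u : ℝ, 0 ≤ B → 20 * B ≤ 11 * A → 0 < q2 A B C u v →
      25 * (l2 ^ 2 * q2 A B C u v) ≤ A → 25 * (l2 ^ 2 * q2 A B C u v) ≤ C →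
      25 * (l2 ^ 2 * q2 A B C u v) ≤ A + C - 2 * B →
      Th A B C h t (l2 * u) (l2 * v) < Th A B C h t (l1 * u) (l1 * v) := by
    intro B u hB0 hB hq0 hqA hqC hqE
    rcases le_total A C with h1 | h1
    · exact Th_lt_ob hA hB0 (by linarith) h1 (by linarith) hC5 (by linarith) hh ht hq0 hl hl12 hqA
        (by linarith)
    · have h3 := Th_lt_ob (A := C) (B := B) (C := A) (h := h) (t := t) (u := v) (v := u)
        (by linarith) hB0 (by linarith) h1 (by linarith) (by linarith) (by linarith) (by linarith)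
        ht (by rw [q2_swap]; exact hq0) hl hl12 (by rw [q2_swap]; exact hqC)
        (by rw [q2_swap]; linarith)
      rw [Th_swap A B C h t (l2 * u) (l2 * v), Th_swap A B C h t (l1 * u) (l1 * v)] at h3
      exact h3
  rcases le_total 0 B with h0 | h0
  · rw [abs_of_nonneg h0] at hB hqE
    exact main B u h0 hB hq0 hqA hqC hqE
  · rw [abs_of_nonpos h0] at hB hqE
    have h3 := main (-B) (-u) (by linarith) hB (by rw [q2_neg]; exact hq0)
      (by rw [q2_neg]; exact hqA) (by rw [q2_neg]; exact hqC) (by rw [q2_neg]; exact hqE)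
    rw [mul_neg, mul_neg, Th_neg, Th_neg] at h3
    exact h3

theorem disc_wide {A B C : ℝ} (hA : 0 < A) (hB : 20 * |B| ≤ 11 * A) (hC : 10 * A ≤ 11 * C) :
    0 < A * C - B ^ 2 := by
  have h1 : B ^ 2 = |B| ^ 2 := (sq_abs B).symm
  have h2 := abs_nonneg B
  nlinarith

/-- from the theta comparison to the energies -/
theorem En_lt_of {A B C h u v s : ℝ} (hA : 0 < A) (hD : 0 < A * C - B ^ 2) (hh0 : 0 < h)
    (hs : 3 / 2 < s) {u' v' : ℝ}
    (hth : ∀ t, 0 < t → Th A B C h t u' v' < Th A B C h t u v) :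
    En s (sform A B C h u' v') < En s (sform A B C h u v) := by
  have p1 := sform_pd hA hD hh0 u v
  have p2 := sform_pd hA hD hh0 u' v'
  have hF : F s (sform A B C h u' v') < F s (sform A B C h u v) := by
    have hth' : ∀ Q : Mx 3, PD Q → ∀ t : ℝ, 0 < t →
        ∑' x : Fin 3 → ℤ, Real.exp (-(t * qf Q x)) =
          1 + ∑' x : NZ 3, Real.exp (-(qf Q x.1 * t)) := by
      intro Q hQ t ht
      rw [EPS.tsum_nz (EPS.summable_theta hQ ht), EPS.qf_zero]
      simp only [mul_zero, neg_zero, Real.exp_zero]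
      congr 1
      exact tsum_congr fun x => by rw [mul_comm]
    have hsm : ∀ Q : Mx 3, PD Q → ∀ t : ℝ, 0 < t →
        Summable fun x : NZ 3 => Real.exp (-(qf Q x.1 * t)) := by
      intro Q hQ t ht
      have := (EPS.summable_theta hQ ht).comp_injective (i := fun x : NZ 3 => x.1)
        Subtype.val_injective
      refine this.congr fun x => ?_
      simp only [Function.comp]
      rw [mul_comm]
    have hz : ∀ Q : Mx 3, PD Q → Summable fun x : NZ 3 => (1 / qf Q x.1) ^ s := by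
      intro Q hQ
      refine (hQ.summable (s := s) (by norm_num; exact hs)).congr fun x => ?_
      rw [one_div, Real.inv_rpow (hQ.pos x).le, Real.rpow_neg (hQ.pos x).le]
    have h := P34eea4.mellin_lt (f := fun x : NZ 3 => qf (sform A B C h u' v') x.1)
      (g := fun x : NZ 3 => qf (sform A B C h u v) x.1)
      (fun x => p2.pos x) (fun x => p1.pos x) (by linarith) (hz _ p2) (hz _ p1)
      (hsm _ p2) (hsm _ p1) (fun t ht => by
        have h1 := hth' _ p2 t ht
        have h2 := hth' _ p1 t ht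
        rw [Th_eq] at h1 h2
        have h3 := hth t ht
        linarith)
    unfold F
    have e1 : ∀ Q : Mx 3, PD Q → ∑' x : NZ 3, qf Q x.1 ^ (-s) = ∑' x : NZ 3, (1 / qf Q x.1) ^ s := by
      intro Q hQ
      refine tsum_congr fun x => ?_
      rw [one_div, Real.inv_rpow (hQ.pos x).le, Real.rpow_neg (hQ.pos x).le]
    rw [e1 _ p2, e1 _ p1]
    exact h
  unfold En
  rw [det_sform, det_sform]
  refine mul_lt_mul_of_pos_right hF ?_
  have : 0 < (A * C - B ^ 2) * h := by positivity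
  positivity

/-- THE SHIFT LEMMA in coordinates, across the walls -/
theorem sform_notMin_wide {A B C h u v s : ℝ} (hA : 0 < A) (hB : 20 * |B| ≤ 11 * A)
    (hC : 10 * A ≤ 11 * C) (hC5 : C ≤ 5 * A) (hh : 2 * A ≤ 5 * h) (hs : 3 / 2 < s)
    (hq0 : 0 < q2 A B C u v) (hqA : 25 * q2 A B C u v < A) (hqC : 25 * q2 A B C u v < C)
    (hqE : 25 * q2 A B C u v < A + C - 2 * |B|) : ¬ LocMin s (sform A B C h u v) := by
  rintro ⟨ε, hε, hmin⟩
  have hD := disc_wide hA hB hC
  have hh0 : 0 < h := by linarith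
  have hc : Continuous fun l : ℝ => ‖sform A B C h (l * u) (l * v) - sform A B C h u v‖ :=
    ((sform_cont A B C h u v).sub continuous_const).norm
  have h1 : Tendsto (fun l : ℝ => ‖sform A B C h (l * u) (l * v) - sform A B C h u v‖)
      (𝓝 1) (𝓝 0) := by
    have := hc.tendsto 1
    simpa using this
  have h2 : ∀ᶠ l : ℝ in 𝓝 1, ‖sform A B C h (l * u) (l * v) - sform A B C h u v‖ < ε :=
    h1.eventually (gt_mem_nhds hε)
  have h3 : ∀ N : ℝ, 25 * q2 A B C u v < N →
      ∀ᶠ l : ℝ in 𝓝 1, 25 * (l ^ 2 * q2 A B C u v) < N := by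
    intro N hN
    have hcont : Continuous fun l : ℝ => 25 * (l ^ 2 * q2 A B C u v) := by fun_prop
    have := hcont.tendsto 1
    simp only [one_pow, one_mul] at this
    exact this.eventually (gt_mem_nhds hN)
  have h4 := (((h2.and (h3 _ hqA)).and (h3 _ hqC)).and (h3 _ hqE)).filter_mono
    (nhdsWithin_le_nhds (s := Set.Ioi (1 : ℝ)))
  obtain ⟨l, ⟨⟨⟨hl1, hl2⟩, hl4⟩, hl5⟩, hl3⟩ := (h4.and self_mem_nhdsWithin).exists
  have hl : 1 < l := hl3
  have h5 := hmin _ (sform_pd hA hD hh0 (l * u) (l * v)) hl1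
  have h6 := En_lt_of (h := h) hA hD hh0 hs (u := u) (v := v) (u' := l * u) (v' := l * v)
    (fun t ht => by
      have := Th_lt_wide hA hB hC hC5 hh ht hq0 (l1 := 1) (l2 := l) (by norm_num) hl hl2.le
        hl4.le hl5.le
      rwa [one_mul, one_mul] at this)
  linarith

/-- the wide region of the shift lemma, closed under convex combinations -/
structure SRW (Q : Mx 3) : Prop where
  symm : Q.IsSymm
  pos : 0 < Q 0 0
  le1 : 10 * Q 0 0 ≤ 11 * Q 1 1
  le5 : Q 1 1 ≤ 5 * Q 0 0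
  off1 : 20 * Q 0 1 ≤ 11 * Q 0 0
  off2 : -(20 * Q 0 1) ≤ 11 * Q 0 0
  shiftA : ∀ a b : ℝ, 26 * (2 * (a * Q 0 2 + b * Q 1 2) -
    (Q 0 0 * a ^ 2 + 2 * Q 0 1 * a * b + Q 1 1 * b ^ 2)) ≤ Q 0 0
  shiftC : ∀ a b : ℝ, 26 * (2 * (a * Q 0 2 + b * Q 1 2) -
    (Q 0 0 * a ^ 2 + 2 * Q 0 1 * a * b + Q 1 1 * b ^ 2)) ≤ Q 1 1
  shiftE : ∀ a b : ℝ, 26 * (2 * (a * Q 0 2 + b * Q 1 2) -
    (Q 0 0 * a ^ 2 + 2 * Q 0 1 * a * b + Q 1 1 * b ^ 2)) ≤ Q 0 0 + Q 1 1 - 2 * Q 0 1
  shiftF : ∀ a b : ℝ, 26 * (2 * (a * Q 0 2 + b * Q 1 2) -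
    (Q 0 0 * a ^ 2 + 2 * Q 0 1 * a * b + Q 1 1 * b ^ 2)) ≤ Q 0 0 + Q 1 1 + 2 * Q 0 1
  high : ∀ a b : ℝ, 5 * (2 * (a * Q 0 2 + b * Q 1 2) -
    (Q 0 0 * a ^ 2 + 2 * Q 0 1 * a * b + Q 1 1 * b ^ 2)) + 2 * Q 0 0 ≤ 5 * Q 2 2

/-- THE SHIFT LEMMA, wide region -/
theorem SRW.notMin {Q : Mx 3} (hQ : SRW Q) (hne : Q 0 2 ≠ 0 ∨ Q 1 2 ≠ 0) {s : ℝ} (hs : 3 / 2 < s) :
    ¬ LocMin s Q := by
  have hA := hQ.pos
  have hB : 20 * |Q 0 1| ≤ 11 * Q 0 0 := by
    rcases abs_choice (Q 0 1) with h | h <;> rw [h]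
    · exact hQ.off1
    · have := hQ.off2; linarith
  have hD := disc_wide hA hB hQ.le1
  set A := Q 0 0 with hAd
  set B := Q 0 1 with hBd
  set C := Q 1 1 with hCd
  set p := Q 0 2 with hp
  set r := Q 1 2 with hr
  set D := A * C - B ^ 2 with hDd
  set u := (C * p - B * r) / D with hu
  set v := (A * r - B * p) / D with hv
  have e1 : A * u + B * v = p := by
    rw [hu, hv]; field_simp; rw [hDd]; ring
  have e2 : B * u + C * v = r := by
    rw [hu, hv]; field_simp; rw [hDd]; ring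
  have e3 : q2 A B C u v = u * p + v * r := by
    rw [← e1, ← e2]; unfold q2; ring
  have e4 : A * u ^ 2 + 2 * B * u * v + C * v ^ 2 = u * p + v * r := by
    rw [← e3]; rfl
  set h := Q 2 2 - q2 A B C u v with hh
  have hsym := hQ.symm
  have s01 : Q 1 0 = B := hsym.apply 0 1
  have s02 : Q 2 0 = p := hsym.apply 0 2
  have s12 : Q 2 1 = r := hsym.apply 1 2
  have hform : Q = sform A B C h u v := by
    ext i j
    fin_cases i <;> fin_cases j
    · rfl
    · rfl
    · exact e1.symm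
    · exact s01
    · rfl
    · exact e2.symm
    · exact s02.trans e1.symm
    · exact s12.trans e2.symm
    · show Q 2 2 = A * u ^ 2 + 2 * B * u * v + C * v ^ 2 + h
      rw [hh, e3, e4]; ring
  have h6 := hQ.shiftA u v
  have h6c := hQ.shiftC u v
  have h6e := hQ.shiftE u v
  have h6f := hQ.shiftF u v
  have h7 := hQ.high u v
  rw [e4] at h6 h6c h6e h6f h7
  have huv : u ≠ 0 ∨ v ≠ 0 := by
    by_contra hcon
    push Not at hcon
    rw [hcon.1, hcon.2] at e1 e2
    rcases hne with h | h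
    · exact h (by rw [← e1]; ring)
    · exact h (by rw [← e2]; ring)
  have hq0 : 0 < q2 A B C u v := q2_pos hA hD huv
  have h8 : 2 * A ≤ 5 * h := by rw [hh, e3]; linarith
  rw [hform]
  rw [e3] at hq0
  have hq1 : 0 < q2 A B C u v := by rw [e3]; exact hq0
  refine sform_notMin_wide hA hB hQ.le1 hQ.le5 h8 hs hq1 ?_ ?_ ?_
  · rw [e3]; linarith
  · rw [e3]; linarith
  · rw [e3]
    rcases abs_choice B with h | h <;> rw [h] <;> linarith

theorem SRW.add {Q R : Mx 3} (hQ : SRW Q) (hR : SRW R) : SRW (Q + R) where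
  symm := hQ.symm.add hR.symm
  pos := add_pos hQ.pos hR.pos
  le1 := by
    have h1 := hQ.le1
    have h2 := hR.le1
    simp only [Matrix.add_apply]
    linarith
  le5 := by
    have h1 := hQ.le5
    have h2 := hR.le5
    simp only [Matrix.add_apply]
    linarith
  off1 := by
    have h1 := hQ.off1
    have h2 := hR.off1
    simp only [Matrix.add_apply]
    linarith
  off2 := by
    have h1 := hQ.off2
    have h2 := hR.off2
    simp only [Matrix.add_apply]
    linarith
  shiftA := fun a b => by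
    have h1 := hQ.shiftA a b
    have h2 := hR.shiftA a b
    simp only [Matrix.add_apply]
    linarith
  shiftC := fun a b => by
    have h1 := hQ.shiftC a b
    have h2 := hR.shiftC a b
    simp only [Matrix.add_apply]
    linarith
  shiftE := fun a b => by
    have h1 := hQ.shiftE a b
    have h2 := hR.shiftE a b
    simp only [Matrix.add_apply]
    linarith
  shiftF := fun a b => by
    have h1 := hQ.shiftF a b
    have h2 := hR.shiftF a b
    simp only [Matrix.add_apply]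
    linarith
  high := fun a b => by
    have h1 := hQ.high a b
    have h2 := hR.high a b
    simp only [Matrix.add_apply]
    linarith

theorem SRW.smul {Q : Mx 3} (hQ : SRW Q) {c : ℝ} (hc : 0 < c) : SRW (c • Q) where
  symm := hQ.symm.smul c
  pos := by
    have := mul_pos hc hQ.pos
    simpa using this
  le1 := by
    have := mul_le_mul_of_nonneg_left hQ.le1 hc.le
    simp only [Matrix.smul_apply, smul_eq_mul]
    linarith
  le5 := by
    have := mul_le_mul_of_nonneg_left hQ.le5 hc.le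
    simp only [Matrix.smul_apply, smul_eq_mul]
    linarith
  off1 := by
    have := mul_le_mul_of_nonneg_left hQ.off1 hc.le
    simp only [Matrix.smul_apply, smul_eq_mul]
    linarith
  off2 := by
    have := mul_le_mul_of_nonneg_left hQ.off2 hc.le
    simp only [Matrix.smul_apply, smul_eq_mul]
    linarith
  shiftA := fun a b => by
    have := mul_le_mul_of_nonneg_left (hQ.shiftA a b) hc.le
    simp only [Matrix.smul_apply, smul_eq_mul]
    linarith
  shiftC := fun a b => by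
    have := mul_le_mul_of_nonneg_left (hQ.shiftC a b) hc.le
    simp only [Matrix.smul_apply, smul_eq_mul]
    linarith
  shiftE := fun a b => by
    have := mul_le_mul_of_nonneg_left (hQ.shiftE a b) hc.le
    simp only [Matrix.smul_apply, smul_eq_mul]
    linarith
  shiftF := fun a b => by
    have := mul_le_mul_of_nonneg_left (hQ.shiftF a b) hc.le
    simp only [Matrix.smul_apply, smul_eq_mul]
    linarith
  high := fun a b => by
    have := mul_le_mul_of_nonneg_left (hQ.high a b) hc.le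
    simp only [Matrix.smul_apply, smul_eq_mul]
    linarith

/-- orthogonal layers -/
theorem sform_notMin_zero {A B C h s : ℝ} (hA : 0 < A) (hB : 20 * |B| ≤ 11 * A)
    (hC : 10 * A ≤ 11 * C) (hC5 : C ≤ 5 * A) (hh : 2 * A ≤ 5 * h) (hs : 3 / 2 < s) :
    ¬ LocMin s (sform A B C h 0 0) := by
  rintro ⟨ε, hε, hmin⟩
  have hD := disc_wide hA hB hC
  have hh0 : 0 < h := by linarith
  have hE : 0 < A + C - 2 * |B| := by linarith
  have hc : Continuous fun l : ℝ => ‖sform A B C h (l * 1) (l * 0) - sform A B C h 0 0‖ :=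
    ((sform_cont A B C h 1 0).sub continuous_const).norm
  have h1 : Tendsto (fun l : ℝ => ‖sform A B C h (l * 1) (l * 0) - sform A B C h 0 0‖)
      (𝓝 0) (𝓝 0) := by
    have := hc.tendsto 0
    simpa using this
  have h2 : ∀ᶠ l : ℝ in 𝓝 0, ‖sform A B C h (l * 1) (l * 0) - sform A B C h 0 0‖ < ε :=
    h1.eventually (gt_mem_nhds hε)
  have e : q2 A B C 1 0 = A := by unfold q2; ring
  have h3 : ∀ N : ℝ, 0 < N →
      ∀ᶠ l : ℝ in 𝓝 0, 25 * (l ^ 2 * q2 A B C 1 0) < N := by
    intro N hN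
    have hcont : Continuous fun l : ℝ => 25 * (l ^ 2 * q2 A B C 1 0) := by fun_prop
    have := hcont.tendsto 0
    refine this.eventually (gt_mem_nhds ?_)
    simpa using hN
  have h4 := (((h2.and (h3 A hA)).and (h3 C (by linarith))).and (h3 _ hE)).filter_mono
    (nhdsWithin_le_nhds (s := Set.Ioi (0 : ℝ)))
  obtain ⟨l, ⟨⟨⟨hl1, hl2⟩, hl4⟩, hl5⟩, hl3⟩ := (h4.and self_mem_nhdsWithin).exists
  have hl : 0 < l := hl3
  have h5 := hmin _ (sform_pd hA hD hh0 (l * 1) (l * 0)) hl1
  have h6 := En_lt_of (h := h) hA hD hh0 hs (u := 0) (v := 0) (u' := l * 1) (v' := l * 0)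
    (fun t ht => by
      have := Th_lt_wide hA hB hC hC5 hh ht (u := 1) (v := 0) (by rw [e]; exact hA)
        (l1 := 0) (l2 := l) le_rfl hl hl2.le hl4.le hl5.le
      rwa [zero_mul, zero_mul] at this)
  linarith

/-- THE SHIFT LEMMA, wide region, all layers -/
theorem SRW.notMin' {Q : Mx 3} (hQ : SRW Q) {s : ℝ} (hs : 3 / 2 < s) : ¬ LocMin s Q := by
  by_cases hne : Q 0 2 ≠ 0 ∨ Q 1 2 ≠ 0
  · exact hQ.notMin hne hs
  · push Not at hne
    have hA := hQ.pos
    have hB : 20 * |Q 0 1| ≤ 11 * Q 0 0 := by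
      rcases abs_choice (Q 0 1) with h | h <;> rw [h]
      · exact hQ.off1
      · have := hQ.off2; linarith
    have h7 := hQ.high 0 0
    have hsym := hQ.symm
    have hform : Q = sform (Q 0 0) (Q 0 1) (Q 1 1) (Q 2 2) 0 0 := by
      ext i j
      fin_cases i <;> fin_cases j
      · rfl
      · rfl
      · show Q 0 2 = Q 0 0 * 0 + Q 0 1 * 0
        rw [hne.1]; ring
      · exact hsym.apply 0 1
      · rfl
      · show Q 1 2 = Q 0 1 * 0 + Q 1 1 * 0
        rw [hne.2]; ring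
      · show Q 2 0 = Q 0 0 * 0 + Q 0 1 * 0
        rw [hsym.apply 0 2, hne.1]; ring
      · show Q 2 1 = Q 0 1 * 0 + Q 1 1 * 0
        rw [hsym.apply 1 2, hne.2]; ring
      · show Q 2 2 = Q 0 0 * 0 ^ 2 + 2 * Q 0 1 * 0 * 0 + Q 1 1 * 0 ^ 2 + Q 2 2
        ring
    rw [hform]
    exact sform_notMin_zero hA hB hQ.le1 hQ.le5 (by linarith) hs

/-- the reduced region lies in the wide region -/
theorem SR.wide {Q : Mx 3} (hQ : SR Q) : SRW Q := by
  have hA := hQ.pos
  have h1 := hQ.le1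
  have h2 := hQ.off1
  have h3 := hQ.off2
  exact
    { symm := hQ.symm
      pos := hA
      le1 := by linarith
      le5 := hQ.le5
      off1 := by linarith
      off2 := by linarith
      shiftA := hQ.shift
      shiftC := fun a b => (hQ.shift a b).trans h1
      shiftE := fun a b => (hQ.shift a b).trans (by linarith)
      shiftF := fun a b => (hQ.shift a b).trans (by linarith)
      high := hQ.high }

/-- THE SHIFT LEMMA, reduced region, all layers -/
theorem SR.notMin' {Q : Mx 3} (hQ : SR Q) {s : ℝ} (hs : 3 / 2 < s) : ¬ LocMin s Q :=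
  hQ.wide.notMin' hs

end Pool.Agent.Lib.EPH
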