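import Pool.Agent.Lib.EPH.Num

/-!
# Sums over layers and bounds of Gaussian sums
-/

namespace Pool.Agent.Lib.EPH

open Real

/-- the Gaussian sum is close to the integral -/
theorem gth_zero_le {a : ℝ} (ha : 0 < a) (ha1 : a ≤ 1) :
    gth a 0 ≤ 1001 / 1000 * √(π / a) := by
  have h := gth_cos ha 0
  have hc : (fun n : ℤ => nome a ^ (n.natAbs ^ 2) * Real.cos (2 * π * n * 0)) =
      fun n : ℤ => nome a ^ (n.natAbs ^ 2) := by
    funext n; simp
  rw [hc] at h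
  have h2 := (hasSum_nat_add_iff' 1).mpr h.nat_add_neg
  set q := nome a with hq
  have hq0 : 0 < q := nome_pos a
  have hq1 : q ≤ 1 / 5000 := by
    have h3 : q ≤ Real.exp (-((9 : ℕ) : ℝ)) := by
      rw [hq]
      unfold nome
      refine Real.exp_le_exp.mpr ?_
      have hπ := Real.pi_gt_d2
      have h4 : 9 ≤ π ^ 2 / a := by
        rw [le_div_iff₀ ha]
        nlinarith
      push_cast
      linarith
    refine (h3.trans (exp_neg_nat 9)).trans ?_
    norm_num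
  have hg : HasSum (fun n : ℕ => 2 * q * (1 / 5000 : ℝ) ^ n) (2 * q * (1 - 1 / 5000)⁻¹) :=
    (hasSum_geometric_of_lt_one (by norm_num) (by norm_num)).mul_left _
  have h3 := hasSum_le (fun n : ℕ => ?_) h2 hg
  · have hs : 0 < √(π / a) := Real.sqrt_pos.mpr (by positivity)
    have h4 : gth a 0 / √(π / a) ≤ 1001 / 1000 := by
      simp at h3
      norm_num at h3
      linarith
    rwa [div_le_iff₀ hs] at h4
  · have e1 : (((n + 1 : ℕ) : ℤ)).natAbs = n + 1 := Int.natAbs_natCast _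
    have e2 : (-((n + 1 : ℕ) : ℤ)).natAbs = n + 1 := by rw [Int.natAbs_neg]; exact e1
    rw [e1, e2]
    have h5 : q ^ ((n + 1) ^ 2) ≤ q ^ (n + 1) :=
      pow_le_pow_of_le_one hq0.le (by linarith) (by nlinarith)
    have h6 : q ^ n ≤ (1 / 5000) ^ n := pow_le_pow_left₀ hq0.le hq1 n
    calc q ^ ((n + 1) ^ 2) + q ^ ((n + 1) ^ 2) ≤ 2 * (q ^ n * q) := by
          rw [← pow_succ]; linarith
      _ ≤ 2 * ((1 / 5000) ^ n * q) := by gcongr
      _ = 2 * q * (1 / 5000) ^ n := by ring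

/-- the sum of `exp (-(m^2 + n^2) / 2)` over the plane -/
theorem plane_sum : ∃ G : ℝ, G ≤ 13 / 2 ∧ HasSum (fun p : ℤ × ℤ =>
    Real.exp (-(((p.1 : ℝ) ^ 2 + (p.2 : ℝ) ^ 2) / 2))) G := by
  have hs := summable_gth (β := 1 / 2) (by norm_num) 0
  refine ⟨gth (1 / 2) 0 * gth (1 / 2) 0, ?_, ?_⟩
  · have h1 := gth_zero_le (a := 1 / 2) (by norm_num) (by norm_num)
    have h0 : 0 ≤ gth (1 / 2) 0 := tsum_nonneg fun _ => (Real.exp_pos _).le
    have h2 := mul_le_mul h1 h1 h0 (h0.trans h1)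
    have h3 : (1001 / 1000 * √(π / (1 / 2))) * (1001 / 1000 * √(π / (1 / 2))) =
        (1001 / 1000) ^ 2 * (π / (1 / 2)) := by
      rw [mul_mul_mul_comm, Real.mul_self_sqrt (by positivity)]
      ring
    rw [h3] at h2
    have hπ := Real.pi_lt_d2
    linarith
  · have hm := hs.mul_of_nonneg hs (fun _ => (Real.exp_pos _).le) (fun _ => (Real.exp_pos _).le)
    have h := hs.hasSum.mul hs.hasSum hm
    have e : (fun p : ℤ × ℤ => Real.exp (-(((p.1 : ℝ) ^ 2 + (p.2 : ℝ) ^ 2) / 2))) =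
        fun p : ℤ × ℤ => Real.exp (-(1 / 2 * ((p.1 : ℝ) - 0) ^ 2)) *
          Real.exp (-(1 / 2 * ((p.2 : ℝ) - 0) ^ 2)) := by
      funext p
      rw [← Real.exp_add]
      congr 1
      ring
    rw [e]
    exact h

/-- the layers with `|k| ≥ 2` -/
theorem lay_le {t : ℝ} (ht : 13 / 2 ≤ t) (n : ℕ) :
    ((n : ℝ) + 2) ^ 2 * Real.exp (-(t * (7 / 25 * ((n : ℝ) + 2) ^ 2 - 11 / 25))) ≤
      1 / 20 * (1 / 100) ^ n := by
  have hn : (0 : ℝ) ≤ n := Nat.cast_nonneg n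
  have h1 : Real.exp (-(t * (7 / 25 * ((n : ℝ) + 2) ^ 2 - 11 / 25))) ≤
      Real.exp (-(442 / 100)) * Real.exp (-7) ^ n := by
    rw [← Real.exp_nat_mul, ← Real.exp_add]
    refine Real.exp_le_exp.mpr ?_
    have h2 : (68 / 100 + 112 / 100 * n : ℝ) ≤ 7 / 25 * ((n : ℝ) + 2) ^ 2 - 11 / 25 := by
      nlinarith
    have h3 : (13 / 2 : ℝ) * (68 / 100 + 112 / 100 * n) ≤
        t * (7 / 25 * ((n : ℝ) + 2) ^ 2 - 11 / 25) :=
      mul_le_mul ht h2 (by positivity) (by linarith)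
    nlinarith
  have h2 : ((n : ℝ) + 2) ^ 2 ≤ 4 * (9 / 4) ^ n := by
    have h3 : ((n : ℝ) + 2) ≤ 2 * (3 / 2) ^ n := by
      have := one_add_mul_le_pow (a := (1 / 2 : ℝ)) (by norm_num) n
      have e : (1 + 1 / 2 : ℝ) = 3 / 2 := by norm_num
      rw [e] at this
      linarith
    calc ((n : ℝ) + 2) ^ 2 ≤ (2 * (3 / 2) ^ n) ^ 2 := pow_le_pow_left₀ (by positivity) h3 2
      _ = 4 * (9 / 4) ^ n := by
          rw [mul_pow, ← pow_mul, mul_comm n 2, pow_mul]; norm_num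
  have h3 : Real.exp (-(442 / 100 : ℝ)) ≤ 1 / 80 := by
    have e1 : Real.exp (-(442 / 100 : ℝ)) = Real.exp (-((4 : ℕ) : ℝ)) * Real.exp (-(42 / 100)) := by
      rw [← Real.exp_add]; congr 1; norm_num
    rw [e1]
    have h8 : Real.exp (-(42 / 100 : ℝ)) ≤ 664 / 1000 := by
      rw [Real.exp_neg, ← one_div]
      have := Real.quadratic_le_exp_of_nonneg (x := (42 / 100 : ℝ)) (by norm_num)
      calc 1 / Real.exp (42 / 100) ≤ 1 / (1 + 42 / 100 + (42 / 100) ^ 2 / 2) :=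
            one_div_le_one_div_of_le (by norm_num) this
        _ ≤ 664 / 1000 := by norm_num
    calc Real.exp (-((4 : ℕ) : ℝ)) * Real.exp (-(42 / 100))
        ≤ (36788 / 100000) ^ 4 * (664 / 1000) :=
          mul_le_mul (exp_neg_nat 4) h8 (Real.exp_pos _).le (by norm_num)
      _ ≤ 1 / 80 := by norm_num
  have h4 : Real.exp (-7) ≤ 1 / 1000 := by
    have := exp_neg_nat 7
    push_cast at this
    refine this.trans ?_
    norm_num
  have h5 : Real.exp (-7) ^ n * (9 / 4) ^ n ≤ (1 / 100) ^ n := by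
    rw [← mul_pow]
    refine pow_le_pow_left₀ (by positivity) ?_ n
    linarith
  calc ((n : ℝ) + 2) ^ 2 * Real.exp (-(t * (7 / 25 * ((n : ℝ) + 2) ^ 2 - 11 / 25)))
      ≤ (4 * (9 / 4) ^ n) * (1 / 80 * Real.exp (-7) ^ n) := by
        refine mul_le_mul h2 (h1.trans ?_) (Real.exp_pos _).le (by positivity)
        exact mul_le_mul_of_nonneg_right h3 (by positivity)
    _ = 1 / 20 * (Real.exp (-7) ^ n * (9 / 4) ^ n) := by ring
    _ ≤ 1 / 20 * (1 / 100) ^ n := by gcongr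

/-- weights of the layers -/
noncomputable def kap (t : ℝ) (k : ℤ) : ℝ :=
  if 2 ≤ |k| then (k : ℝ) ^ 2 * Real.exp (-(t * (7 / 25 * (k : ℝ) ^ 2 - 11 / 25))) else 0

theorem kap_nonneg (t : ℝ) (k : ℤ) : 0 ≤ kap t k := by
  unfold kap
  split_ifs
  · positivity
  · exact le_rfl

theorem kap_sum {t : ℝ} (ht : 13 / 2 ≤ t) : ∃ K : ℝ, K ≤ 11 / 100 ∧ HasSum (kap t) K := by
  have hg : HasSum (fun n : ℕ => 1 / 20 * (1 / 100 : ℝ) ^ n) (1 / 20 * (1 - 1 / 100)⁻¹) :=
    (hasSum_geometric_of_lt_one (by norm_num) (by norm_num)).mul_left _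
  -- one side
  have hside : ∀ s : ℤ, (s = 1 ∨ s = -1) → ∃ K1 : ℝ, K1 ≤ 11 / 200 ∧
      HasSum (fun n : ℕ => kap t (s * ((n + 1 : ℕ) : ℤ))) K1 := by
    intro s hs
    have h0 : kap t (s * ((0 + 1 : ℕ) : ℤ)) = 0 := by
      unfold kap
      rcases hs with rfl | rfl <;> simp
    have hle : ∀ n : ℕ, kap t (s * ((n + 1 + 1 : ℕ) : ℤ)) ≤ 1 / 20 * (1 / 100) ^ n := by
      intro n
      have habs : |s * ((n + 1 + 1 : ℕ) : ℤ)| = (n + 2 : ℕ) := by
        rcases hs with rfl | rfl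
        · rw [one_mul, abs_of_nonneg (by positivity)]
        · rw [neg_one_mul, abs_neg, abs_of_nonneg (by positivity)]
      have hsq : ((s * ((n + 1 + 1 : ℕ) : ℤ) : ℤ) : ℝ) ^ 2 = ((n : ℝ) + 2) ^ 2 := by
        rcases hs with rfl | rfl
        · push_cast; ring
        · push_cast; ring
      unfold kap
      rw [habs, hsq]
      split_ifs with h
      · exact lay_le ht n
      · positivity
    have hsum : Summable fun n : ℕ => kap t (s * ((n + 1 + 1 : ℕ) : ℤ)) :=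
      Summable.of_nonneg_of_le (fun n => kap_nonneg _ _) hle hg.summable
    have h1 := hasSum_le hle hsum.hasSum hg
    refine ⟨∑' n : ℕ, kap t (s * ((n + 1 + 1 : ℕ) : ℤ)), ?_, ?_⟩
    · refine h1.trans ?_
      norm_num
    · have h2 := (hasSum_nat_add_iff (f := fun n : ℕ => kap t (s * ((n + 1 : ℕ) : ℤ))) 1).mp hsum.hasSum
      rw [Finset.sum_range_one, h0, add_zero] at h2
      exact h2
  obtain ⟨K1, hK1, h1⟩ := hside 1 (Or.inl rfl)
  obtain ⟨K2, hK2, h2⟩ := hside (-1) (Or.inr rfl)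
  have h1' : HasSum (fun n : ℕ => kap t ((n : ℤ) + 1)) K1 := by
    refine (funext fun n => ?_ : (fun n : ℕ => kap t ((n : ℤ) + 1)) = _) ▸ h1
    push_cast
    rw [one_mul]
  have h2' : HasSum (fun n : ℕ => kap t (-((n : ℤ) + 1))) K2 := by
    refine (funext fun n => ?_ : (fun n : ℕ => kap t (-((n : ℤ) + 1))) = _) ▸ h2
    push_cast
    rw [neg_one_mul]
  have h3 := HasSum.of_add_one_of_neg_add_one h1' h2'
  have h0 : kap t 0 = 0 := by unfold kap; simp
  rw [h0, add_zero] at h3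
  exact ⟨K1 + K2, by linarith, h3⟩

/-- indicator of the two layers next to the centre -/
noncomputable def one1 (k : ℤ) : ℝ := if |k| = 1 then 1 else 0

theorem one1_nonneg (k : ℤ) : 0 ≤ one1 k := by
  unfold one1; split_ifs <;> norm_num

theorem one1_sum : HasSum one1 2 := by
  have h : ∀ k ∉ ({1, -1} : Finset ℤ), one1 k = 0 := by
    intro k hk
    unfold one1
    rw [if_neg]
    intro hc
    rcases abs_eq (by norm_num : (0 : ℤ) ≤ 1) |>.mp hc with h | h <;> simp [h] at hk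
  have h2 : HasSum one1 (∑ k ∈ ({1, -1} : Finset ℤ), one1 k) := hasSum_sum_of_ne_finset_zero h
  have h3 : ∑ k ∈ ({1, -1} : Finset ℤ), one1 k = 2 := by
    rw [Finset.sum_pair (by norm_num)]
    unfold one1
    norm_num
  rwa [h3] at h2

end Pool.Agent.Lib.EPH
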