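import Pool.Agent.Lib.EPH.Form

/-!
# One-variable estimates for the direct side
-/

namespace Pool.Agent.Lib.EPH

open Real

theorem exp_neg_nat (n : ℕ) : Real.exp (-(n : ℝ)) ≤ (36788 / 100000) ^ n := by
  have h1 : Real.exp (-(n : ℝ)) = Real.exp (-1) ^ n := by
    rw [← Real.exp_nat_mul]; congr 1; ring
  rw [h1]
  refine pow_le_pow_left₀ (Real.exp_pos _).le ?_ n
  have := Real.exp_neg_one_lt_d9
  norm_num at this ⊢
  linarith

/-- `x e^{-b x}` decreases past `1 / b` -/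
theorem mul_exp_anti {b x y : ℝ} (hx : 0 < x) (hb : 1 ≤ b * x) (hxy : x ≤ y) :
    y * Real.exp (-(b * y)) ≤ x * Real.exp (-(b * x)) := by
  have h1 : Real.exp (-(b * x)) = Real.exp (-(b * y)) * Real.exp (b * (y - x)) := by
    rw [← Real.exp_add]; congr 1; ring
  have h2 := Real.add_one_le_exp (b * (y - x))
  have h3 : y ≤ x * Real.exp (b * (y - x)) := by
    have h4 := mul_le_mul_of_nonneg_left h2 hx.le
    have h5 : y - x ≤ x * (b * (y - x)) := by
      have h6 : 0 ≤ (b * x - 1) * (y - x) := mul_nonneg (by linarith) (by linarith)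
      nlinarith
    linarith
  rw [h1]
  have h7 := mul_le_mul_of_nonneg_right h3 (Real.exp_pos (-(b * y))).le
  linarith

theorem cosh_le_exp {x : ℝ} (hx : 0 ≤ x) : Real.cosh x ≤ Real.exp x := by
  rw [Real.cosh_eq]
  have : Real.exp (-x) ≤ Real.exp x := Real.exp_le_exp.mpr (by linarith)
  linarith

/-- the factor of a shell vector at radius `r ≥ 1` -/
theorem sq_exp_le {t r c : ℝ} (ht : 13 / 2 ≤ t) (hr : 1 ≤ r) (hc : |c| ≤ 2 / 5) :
    r ^ 2 * Real.exp (-(t * r ^ 2) + c * t * r) ≤ Real.exp (-t + c * t) := by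
  have h1 : r ^ 2 ≤ Real.exp (2 * (r - 1)) := by
    have h2 := Real.add_one_le_exp (r - 1)
    have h3 : Real.exp (2 * (r - 1)) = Real.exp (r - 1) ^ 2 := by
      rw [← Real.exp_nat_mul]; push_cast; rfl
    rw [h3]
    exact pow_le_pow_left₀ (by linarith) (by linarith) 2
  have h4 := mul_le_mul_of_nonneg_right h1 (Real.exp_pos (-(t * r ^ 2) + c * t * r)).le
  refine h4.trans ?_
  rw [← Real.exp_add]
  refine Real.exp_le_exp.mpr ?_
  have hc' := abs_le.mp hc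
  have h5 : 2 * (r - 1) + (-(t * r ^ 2) + c * t * r) - (-t + c * t)
      = (r - 1) * (2 - t * (r + 1) + c * t) := by ring
  have h6 : (r - 1) * (2 - t * (r + 1) + c * t) ≤ 0 := by
    refine mul_nonpos_of_nonneg_of_nonpos (by linarith) ?_
    have h7 : c * t ≤ 2 / 5 * t := by nlinarith [hc'.2]
    have h8 : t * 2 ≤ t * (r + 1) := by nlinarith
    linarith
  linarith

theorem shell_one {t r : ℝ} (ht : 13 / 2 ≤ t) (hr : 1 ≤ r) :
    2 * t * r ^ 2 * Real.exp (-(t * r ^ 2)) * Real.cosh (2 / 5 * t * r) ≤ 27 / 200 := by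
  have h1 := sq_exp_le (c := 2 / 5) ht hr (by rw [abs_of_nonneg (by norm_num)])
  have h2 := sq_exp_le (c := -(2 / 5)) ht hr (by rw [abs_neg, abs_of_nonneg (by norm_num)])
  have e : 2 * t * r ^ 2 * Real.exp (-(t * r ^ 2)) * Real.cosh (2 / 5 * t * r) =
      t * (r ^ 2 * Real.exp (-(t * r ^ 2) + 2 / 5 * t * r)
        + r ^ 2 * Real.exp (-(t * r ^ 2) + -(2 / 5) * t * r)) := by
    rw [Real.cosh_eq, Real.exp_add, Real.exp_add]
    have : -(2 / 5 * t * r) = -(2 / 5) * t * r := by ring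
    rw [this]
    ring
  rw [e]
  have h3 : t * Real.exp (-t + 2 / 5 * t) ≤ 13 / 2 * Real.exp (-(3 / 5 * (13 / 2))) := by
    have h := mul_exp_anti (b := 3 / 5) (x := 13 / 2) (y := t) (by norm_num) (by norm_num) ht
    have e1 : -t + 2 / 5 * t = -(3 / 5 * t) := by ring
    rw [e1]; exact h
  have h4 : t * Real.exp (-t + -(2 / 5) * t) ≤ 13 / 2 * Real.exp (-(7 / 5 * (13 / 2))) := by
    have h := mul_exp_anti (b := 7 / 5) (x := 13 / 2) (y := t) (by norm_num) (by norm_num) ht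
    have e1 : -t + -(2 / 5) * t = -(7 / 5 * t) := by ring
    rw [e1]; exact h
  have h5 : Real.exp (-(3 / 5 * (13 / 2))) ≤ 204 / 10000 := by
    have e1 : Real.exp (-(3 / 5 * (13 / 2))) = Real.exp (-((4 : ℕ) : ℝ)) * Real.exp (1 / 10) := by
      rw [← Real.exp_add]; congr 1; norm_num
    rw [e1]
    have h6 := exp_neg_nat 4
    have h7 : Real.exp (1 / 10) ≤ 10 / 9 := by
      have h8 := Real.add_one_le_exp (-(1 / 10 : ℝ))
      rw [Real.exp_neg] at h8
      have h9 := Real.exp_pos (1 / 10 : ℝ)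
      have h10 : (9 / 10 : ℝ) * Real.exp (1 / 10) ≤ 1 := by
        have h11 := mul_le_mul_of_nonneg_right h8 h9.le
        rw [inv_mul_cancel₀ h9.ne'] at h11
        linarith
      linarith
    calc Real.exp (-((4 : ℕ) : ℝ)) * Real.exp (1 / 10)
        ≤ (36788 / 100000) ^ 4 * (10 / 9) := mul_le_mul h6 h7 (Real.exp_pos _).le (by norm_num)
      _ ≤ 204 / 10000 := by norm_num
  have h6 : Real.exp (-(7 / 5 * (13 / 2))) ≤ 13 / 100000 := by
    have h7 : Real.exp (-(7 / 5 * (13 / 2))) ≤ Real.exp (-((9 : ℕ) : ℝ)) :=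
      Real.exp_le_exp.mpr (by norm_num)
    refine (h7.trans (exp_neg_nat 9)).trans ?_
    norm_num
  have ht0 : 0 < t := by linarith
  have h7 := mul_le_mul_of_nonneg_left h1 ht0.le
  have h8 := mul_le_mul_of_nonneg_left h2 ht0.le
  nlinarith

/-- general form for `N ≥ 2` and `N ≥ 3` -/
theorem shell_gen {t r κ N0 : ℝ} (ht : 13 / 2 ≤ t) (hr0 : 0 ≤ r) (hr : N0 ≤ r ^ 2) (hN0 : 0 < N0)
    (hκ : 0 ≤ κ) (hκ2 : (2 / 5) ^ 2 ≤ κ ^ 2 * N0) :
    2 * t * r ^ 2 * Real.exp (-(t * r ^ 2)) * Real.cosh (2 / 5 * t * r) ≤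
      2 * (t * r ^ 2) * Real.exp (-((1 - κ) * (t * r ^ 2))) := by
  have ht0 : 0 < t := by linarith
  have h1 := cosh_le_exp (x := 2 / 5 * t * r) (by positivity)
  have h2 : 2 / 5 * r ≤ κ * r ^ 2 := by
    refine abs_le_of_sq_le_sq' ?_ (by positivity) |>.2
    have h3 : (2 / 5 * r) ^ 2 = (2 / 5) ^ 2 * r ^ 2 := by ring
    have h4 : (κ * r ^ 2) ^ 2 = (κ ^ 2 * r ^ 2) * r ^ 2 := by ring
    rw [h3, h4]
    refine mul_le_mul_of_nonneg_right ?_ (by positivity)
    exact hκ2.trans (mul_le_mul_of_nonneg_left hr (by positivity))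
  calc 2 * t * r ^ 2 * Real.exp (-(t * r ^ 2)) * Real.cosh (2 / 5 * t * r)
      ≤ 2 * t * r ^ 2 * Real.exp (-(t * r ^ 2)) * Real.exp (2 / 5 * t * r) :=
        mul_le_mul_of_nonneg_left h1 (by positivity)
    _ = 2 * (t * r ^ 2) * Real.exp (-(t * r ^ 2) + 2 / 5 * t * r) := by
        rw [Real.exp_add]; ring
    _ ≤ 2 * (t * r ^ 2) * Real.exp (-((1 - κ) * (t * r ^ 2))) := by
        refine mul_le_mul_of_nonneg_left (Real.exp_le_exp.mpr ?_) (by positivity)
        have h5 := mul_le_mul_of_nonneg_left h2 ht0.le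
        nlinarith

theorem shell_two {t r : ℝ} (ht : 13 / 2 ≤ t) (hr0 : 0 ≤ r) (hr : 2 ≤ r ^ 2) :
    2 * t * r ^ 2 * Real.exp (-(t * r ^ 2)) * Real.cosh (2 / 5 * t * r) ≤ 35 / 10000 := by
  have h1 := shell_gen (κ := 283 / 1000) ht hr0 hr (by norm_num) (by norm_num) (by norm_num)
  refine h1.trans ?_
  have hu : 13 ≤ t * r ^ 2 := by nlinarith
  have h2 := mul_exp_anti (b := 1 - 283 / 1000) (x := 13) (y := t * r ^ 2) (by norm_num)
    (by norm_num) hu
  have h3 : Real.exp (-((1 - 283 / 1000) * 13)) ≤ 13 / 100000 := by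
    have h7 : Real.exp (-((1 - 283 / 1000 : ℝ) * 13)) ≤ Real.exp (-((9 : ℕ) : ℝ)) :=
      Real.exp_le_exp.mpr (by norm_num)
    refine (h7.trans (exp_neg_nat 9)).trans ?_
    norm_num
  linarith

theorem shell_far {t r ρ : ℝ} (ht : 13 / 2 ≤ t) (hr0 : 0 ≤ r) (hr : 3 ≤ r ^ 2) (hρ : ρ ≤ r ^ 2) :
    2 * t * r ^ 2 * Real.exp (-(t * r ^ 2)) * Real.cosh (2 / 5 * t * r) ≤
      1 / 1500 * Real.exp (-ρ) := by
  have h1 := shell_gen (κ := 231 / 1000) ht hr0 hr (by norm_num) (by norm_num) (by norm_num)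
  refine h1.trans ?_
  have hu : 39 / 2 ≤ t * r ^ 2 := by nlinarith
  have h2 := mul_exp_anti (b := 269 / 1000) (x := 39 / 2) (y := t * r ^ 2) (by norm_num)
    (by norm_num) hu
  have h3 : Real.exp (-(269 / 1000 * (39 / 2))) ≤ 674 / 100000 := by
    have h7 : Real.exp (-(269 / 1000 * (39 / 2) : ℝ)) ≤ Real.exp (-((5 : ℕ) : ℝ)) :=
      Real.exp_le_exp.mpr (by norm_num)
    refine (h7.trans (exp_neg_nat 5)).trans ?_
    norm_num
  have h4 : Real.exp (-(1 / 2 * (t * r ^ 2))) ≤ 249 / 100000 * Real.exp (-ρ) := by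
    have h5 : Real.exp (-(1 / 2 * (t * r ^ 2))) ≤ Real.exp (-((6 : ℕ) : ℝ)) * Real.exp (-ρ) := by
      rw [← Real.exp_add]
      refine Real.exp_le_exp.mpr ?_
      push_cast
      nlinarith
    refine h5.trans (mul_le_mul_of_nonneg_right ((exp_neg_nat 6).trans ?_) (Real.exp_pos _).le)
    norm_num
  have e : Real.exp (-((1 - 231 / 1000) * (t * r ^ 2))) =
      Real.exp (-(269 / 1000 * (t * r ^ 2))) * Real.exp (-(1 / 2 * (t * r ^ 2))) := by
    rw [← Real.exp_add]; congr 1; ring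
  rw [e]
  have h6 : 2 * (t * r ^ 2) * Real.exp (-(269 / 1000 * (t * r ^ 2))) ≤ 263 / 1000 := by linarith
  have h7 : 0 ≤ 2 * (t * r ^ 2) * Real.exp (-(269 / 1000 * (t * r ^ 2))) := by
    have : 0 ≤ t * r ^ 2 := by linarith
    positivity
  calc 2 * (t * r ^ 2) * (Real.exp (-(269 / 1000 * (t * r ^ 2))) * Real.exp (-(1 / 2 * (t * r ^ 2))))
      = (2 * (t * r ^ 2) * Real.exp (-(269 / 1000 * (t * r ^ 2)))) *
          Real.exp (-(1 / 2 * (t * r ^ 2))) := by ring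
    _ ≤ 263 / 1000 * (249 / 100000 * Real.exp (-ρ)) :=
        mul_le_mul h6 h4 (Real.exp_pos _).le (by norm_num)
    _ ≤ 1 / 1500 * Real.exp (-ρ) := by
        have := Real.exp_pos (-ρ)
        nlinarith

theorem exp_a : Real.exp (-(39 / 8 : ℝ)) ≤ 765 / 100000 := by
  have e1 : Real.exp (-(39 / 8 : ℝ)) = Real.exp (-((5 : ℕ) : ℝ)) * Real.exp (1 / 8) := by
    rw [← Real.exp_add]; congr 1; norm_num
  rw [e1]
  have h6 := exp_neg_nat 5
  have h7 : Real.exp (1 / 8) ≤ 1135 / 1000 := by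
    have h11 := Real.exp_bound_div_one_sub_of_interval (x := (1 / 64 : ℝ)) (by norm_num) (by norm_num)
    have h12 : Real.exp (1 / 8) = Real.exp (1 / 64) ^ 8 := by
      rw [← Real.exp_nat_mul]; congr 1; norm_num
    rw [h12]
    have h13 : Real.exp (1 / 64 : ℝ) ^ 8 ≤ (1 / (1 - 1 / 64)) ^ 8 :=
      pow_le_pow_left₀ (Real.exp_pos _).le h11 8
    refine h13.trans ?_
    norm_num
  calc Real.exp (-((5 : ℕ) : ℝ)) * Real.exp (1 / 8)
      ≤ (36788 / 100000) ^ 5 * (1135 / 1000) := mul_le_mul h6 h7 (Real.exp_pos _).le (by norm_num)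
    _ ≤ 765 / 100000 := by norm_num

theorem two_any {t N : ℝ} (ht : 13 / 2 ≤ t) (hN : 1 ≤ N) :
    2 * t * N * Real.exp (-(3 / 4 * (t * N))) ≤ 1 / 10 := by
  have hu : 13 / 2 ≤ t * N := by nlinarith
  have h2 := mul_exp_anti (b := 3 / 4) (x := 13 / 2) (y := t * N) (by norm_num) (by norm_num) hu
  have h3 := exp_a
  have e : (3 / 4 * (13 / 2) : ℝ) = 39 / 8 := by norm_num
  rw [e] at h2
  nlinarith

theorem two_far {t N ρ : ℝ} (ht : 13 / 2 ≤ t) (hN : 3 ≤ N) (hρ : ρ ≤ N) :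
    2 * t * N * Real.exp (-(3 / 4 * (t * N))) ≤ 1 / 1000 * Real.exp (-ρ) := by
  have hu : 39 / 2 ≤ t * N := by nlinarith
  have h2 := mul_exp_anti (b := 1 / 4) (x := 39 / 2) (y := t * N) (by norm_num) (by norm_num) hu
  have h3 : Real.exp (-(1 / 4 * (39 / 2) : ℝ)) ≤ 1 / 100 := by
    have e : (1 / 4 * (39 / 2) : ℝ) = 39 / 8 := by norm_num
    rw [e]
    exact exp_a.trans (by norm_num)
  have h4 : Real.exp (-(1 / 2 * (t * N))) ≤ 249 / 100000 * Real.exp (-ρ) := by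
    have h5 : Real.exp (-(1 / 2 * (t * N))) ≤ Real.exp (-((6 : ℕ) : ℝ)) * Real.exp (-ρ) := by
      rw [← Real.exp_add]
      refine Real.exp_le_exp.mpr ?_
      push_cast
      nlinarith
    refine h5.trans (mul_le_mul_of_nonneg_right ((exp_neg_nat 6).trans ?_) (Real.exp_pos _).le)
    norm_num
  have e : Real.exp (-(3 / 4 * (t * N))) =
      Real.exp (-(1 / 4 * (t * N))) * Real.exp (-(1 / 2 * (t * N))) := by
    rw [← Real.exp_add]; congr 1; ring
  rw [e]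
  have h6 : 2 * (t * N) * Real.exp (-(1 / 4 * (t * N))) ≤ 39 / 100 := by linarith
  calc 2 * t * N * (Real.exp (-(1 / 4 * (t * N))) * Real.exp (-(1 / 2 * (t * N))))
      = (2 * (t * N) * Real.exp (-(1 / 4 * (t * N)))) * Real.exp (-(1 / 2 * (t * N))) := by ring
    _ ≤ 39 / 100 * (249 / 100000 * Real.exp (-ρ)) :=
        mul_le_mul h6 h4 (Real.exp_pos _).le (by norm_num)
    _ ≤ 1 / 1000 * Real.exp (-ρ) := by
        have := Real.exp_pos (-ρ)
        nlinarith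

end Pool.Agent.Lib.EPH
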