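import Pool.Agent.Lib.EPH.Lay

/-!
# The direct side: `t ≥ 13/2`
-/

namespace Pool.Agent.Lib.EPH

open Real

/-! ### binary forms with first coefficient `1` -/

theorem cauchy2 (A B C a b c d : ℝ) :
    q2 A B C a b * q2 A B C c d - b2 A B C a b c d ^ 2 = (A * C - B ^ 2) * (a * d - b * c) ^ 2 := by
  unfold q2 b2
  ring

theorem disc_pos {B C : ℝ} (hB : |B| ≤ 1 / 2) (hC : 1 ≤ C) : 0 < 1 * C - B ^ 2 := by
  have h := abs_le.mp hB
  nlinarith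

theorem q2_ge_half {B C : ℝ} (hB : |B| ≤ 1 / 2) (hC : 1 ≤ C) (m n : ℝ) :
    (m ^ 2 + n ^ 2) / 2 ≤ q2 1 B C m n := by
  unfold q2
  have h := abs_le.mp hB
  have h1 : |2 * B * m * n| ≤ |m| * |n| := by
    rw [show 2 * B * m * n = (2 * B) * (m * n) by ring, abs_mul, abs_mul, abs_mul, abs_two]
    have : 0 ≤ |m| * |n| := by positivity
    nlinarith
  have h2 := (abs_le.mp h1).1
  nlinarith [sq_nonneg (|m| - |n|), sq_abs m, sq_abs n, sq_nonneg n]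

theorem q2_ge_hex {B C : ℝ} (hB : |B| ≤ 1 / 2) (hC : 1 ≤ C) (m n : ℝ) :
    |m| ^ 2 - |m| * |n| + |n| ^ 2 ≤ q2 1 B C m n := by
  unfold q2
  have h1 : |2 * B * m * n| ≤ |m| * |n| := by
    rw [show 2 * B * m * n = (2 * B) * (m * n) by ring, abs_mul, abs_mul, abs_mul, abs_two]
    have : 0 ≤ |m| * |n| := by positivity
    nlinarith
  have h2 := (abs_le.mp h1).1
  nlinarith [sq_abs m, sq_abs n, sq_nonneg n]

theorem q2_far {B C : ℝ} (hB : |B| ≤ 1 / 2) (hC : 1 ≤ C) {m n : ℤ} (h : 2 ≤ |m| ∨ 2 ≤ |n|) :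
    3 ≤ q2 1 B C m n := by
  refine le_trans ?_ (q2_ge_hex hB hC m n)
  rcases h with h | h
  · have h1 : (2 : ℝ) ≤ |(m : ℝ)| := by exact_mod_cast h
    nlinarith [sq_nonneg (|(n : ℝ)| - |(m : ℝ)| / 2)]
  · have h1 : (2 : ℝ) ≤ |(n : ℝ)| := by exact_mod_cast h
    nlinarith [sq_nonneg (|(m : ℝ)| - |(n : ℝ)| / 2)]

theorem near_cases {m n : ℤ} (h : ¬ (2 ≤ |m| ∨ 2 ≤ |n|)) :
    (m = 0 ∨ m = 1 ∨ m = -1) ∧ (n = 0 ∨ n = 1 ∨ n = -1) := by
  push Not at h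
  obtain ⟨h1, h2⟩ := h
  rw [abs_lt] at h1 h2
  constructor <;> omega

/-- the eight vectors next to the origin -/
def eight (p : ℤ × ℤ) : Prop := ¬ (2 ≤ |p.1| ∨ 2 ≤ |p.2|) ∧ p ≠ 0

theorem q2_one {B C : ℝ} (hB : |B| ≤ 1 / 2) (hC : 1 ≤ C) {p : ℤ × ℤ} (hp : p ≠ 0) :
    1 ≤ q2 1 B C p.1 p.2 := by
  by_cases h : 2 ≤ |p.1| ∨ 2 ≤ |p.2|
  · exact le_trans (by norm_num) (q2_far hB hC h)
  · obtain ⟨m, n⟩ := p
    have hb := abs_le.mp hB
    simp only at h ⊢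
    obtain ⟨h1, h2⟩ := near_cases h
    unfold q2
    rcases h1 with rfl | rfl | rfl <;> rcases h2 with rfl | rfl | rfl <;> push_cast <;>
      first
        | exact absurd rfl hp
        | nlinarith

/-! ### the finite parts of the majorants -/

/-- the finite part: `c` on the six short vectors, `d` on the pair with `m n = σ` -/
noncomputable def fin8 (σ : ℤ) (c d : ℝ) (p : ℤ × ℤ) : ℝ :=
  if ¬ (2 ≤ |p.1| ∨ 2 ≤ |p.2|) ∧ p ≠ 0 then (if p.1 * p.2 = σ then d else c) else 0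

theorem fin8_nonneg (σ : ℤ) {c d : ℝ} (hc : 0 ≤ c) (hd : 0 ≤ d) (p : ℤ × ℤ) :
    0 ≤ fin8 σ c d p := by
  unfold fin8
  split_ifs <;> first | exact hc | exact hd | exact le_rfl

theorem fin8_sum {σ : ℤ} (hσ : σ = 1 ∨ σ = -1) (c d : ℝ) :
    HasSum (fin8 σ c d) (6 * c + 2 * d) := by
  have h : ∀ p ∉ ({(1, 0), (-1, 0), (0, 1), (0, -1), (1, 1), (-1, -1), (1, -1), (-1, 1)} :
      Finset (ℤ × ℤ)), fin8 σ c d p = 0 := by
    intro p hp
    unfold fin8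
    rw [if_neg]
    rintro ⟨h1, h2⟩
    obtain ⟨m, n⟩ := p
    obtain ⟨h3, h4⟩ := near_cases h1
    simp only at h3 h4
    rcases h3 with rfl | rfl | rfl <;> rcases h4 with rfl | rfl | rfl <;>
      first
        | exact h2 rfl
        | exact hp (by decide)
  have h2 : HasSum (fin8 σ c d) _ := hasSum_sum_of_ne_finset_zero h
  have h3 : ∑ p ∈ ({(1, 0), (-1, 0), (0, 1), (0, -1), (1, 1), (-1, -1), (1, -1), (-1, 1)} :
      Finset (ℤ × ℤ)), fin8 σ c d p = 6 * c + 2 * d := by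
    rcases hσ with rfl | rfl
    · simp [fin8]
      ring
    · simp [fin8]
      ring
  rw [h3] at h2
  exact h2

/-- the majorant -/
noncomputable def maj (σ : ℤ) (c d e : ℝ) (p : ℤ × ℤ) : ℝ :=
  fin8 σ c d p + e * Real.exp (-(((p.1 : ℝ) ^ 2 + (p.2 : ℝ) ^ 2) / 2))

theorem maj_nonneg (σ : ℤ) {c d e : ℝ} (hc : 0 ≤ c) (hd : 0 ≤ d) (he : 0 ≤ e) (p : ℤ × ℤ) :
    0 ≤ maj σ c d e p := by
  unfold maj
  have := fin8_nonneg σ hc hd p
  positivity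

theorem maj_sum {σ : ℤ} (hσ : σ = 1 ∨ σ = -1) (c d e : ℝ) (he : 0 ≤ e) :
    ∃ M : ℝ, M ≤ 6 * c + 2 * d + e * (13 / 2) ∧ HasSum (maj σ c d e) M := by
  obtain ⟨G, hG, hs⟩ := plane_sum
  refine ⟨6 * c + 2 * d + e * G, ?_, ?_⟩
  · have := mul_le_mul_of_nonneg_left hG he
    linarith
  · exact (fin8_sum hσ c d).add (hs.mul_left e)

/-! ### symmetrised terms -/

/-- one symmetrised term of the theta series, at the multiple `l` of the shift -/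
noncomputable def ct (B C h t u v l : ℝ) (p : (ℤ × ℤ) × ℤ) : ℝ :=
  Real.exp (-(t * (h * (p.2 : ℝ) ^ 2 + q2 1 B C p.1.1 p.1.2))) *
    (Real.exp (-(t * (p.2 : ℝ) ^ 2 * q2 1 B C u v * l ^ 2)) *
      Real.cosh (2 * t * p.2 * b2 1 B C p.1.1 p.1.2 u v * l))

theorem ct_sum {B C h t : ℝ} (hB : |B| ≤ 1 / 2) (hC : 1 ≤ C) (hh : 0 < h) (ht : 0 < t)
    (u v l : ℝ) : HasSum (ct B C h t u v l) (Th 1 B C h t (l * u) (l * v)) := by
  have hD := disc_pos hB hC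
  have h1 := (summable_Th one_pos hD hh ht (l * u) (l * v)).hasSum
  let ng : (ℤ × ℤ) × ℤ ≃ (ℤ × ℤ) × ℤ := (Equiv.neg (ℤ × ℤ)).prodCongr (Equiv.refl ℤ)
  have h2 := (ng.hasSum_iff).mpr h1
  have h3 := (h1.add h2).mul_left (1 / 2)
  have e : ct B C h t u v l = fun p : (ℤ × ℤ) × ℤ => 1 / 2 *
      (Real.exp (-(t * (q2 1 B C (p.1.1 + p.2 * (l * u)) (p.1.2 + p.2 * (l * v)) + h * (p.2 : ℝ) ^ 2)))
       + ((fun p : (ℤ × ℤ) × ℤ => Real.exp (-(t * (q2 1 B C (p.1.1 + p.2 * (l * u))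
        (p.1.2 + p.2 * (l * v)) + h * (p.2 : ℝ) ^ 2)))) ∘ ng) p) := by
    funext p
    have hng : ng p = (-p.1, p.2) := rfl
    simp only [Function.comp, hng, Prod.fst_neg, Prod.snd_neg]
    push_cast
    have e1 : Real.exp (-(t * (q2 1 B C (p.1.1 + p.2 * (l * u)) (p.1.2 + p.2 * (l * v))
        + h * (p.2 : ℝ) ^ 2))) =
        Real.exp (-(t * (h * (p.2 : ℝ) ^ 2 + q2 1 B C p.1.1 p.1.2))) *
        Real.exp (-(t * (p.2 : ℝ) ^ 2 * q2 1 B C u v * l ^ 2)) *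
        Real.exp (-(2 * t * p.2 * b2 1 B C p.1.1 p.1.2 u v * l)) := by
      rw [← Real.exp_add, ← Real.exp_add]
      congr 1
      unfold q2 b2
      ring
    have e2 : Real.exp (-(t * (q2 1 B C (-p.1.1 + p.2 * (l * u)) (-p.1.2 + p.2 * (l * v))
        + h * (p.2 : ℝ) ^ 2))) =
        Real.exp (-(t * (h * (p.2 : ℝ) ^ 2 + q2 1 B C p.1.1 p.1.2))) *
        Real.exp (-(t * (p.2 : ℝ) ^ 2 * q2 1 B C u v * l ^ 2)) *
        Real.exp (2 * t * p.2 * b2 1 B C p.1.1 p.1.2 u v * l) := by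
      rw [← Real.exp_add, ← Real.exp_add]
      congr 1
      unfold q2 b2
      ring
    rw [e1, e2]
    unfold ct
    rw [Real.cosh_eq]
    ring
  rw [e]
  have e3 : Th 1 B C h t (l * u) (l * v) =
      1 / 2 * (Th 1 B C h t (l * u) (l * v) + Th 1 B C h t (l * u) (l * v)) := by ring
  rw [e3]
  exact h3

/-- growth of `exp (-γ l²) cosh (κ l)` -/
theorem ec_sub_le {γ κ a b : ℝ} (hγ : 0 ≤ γ) (hκ : 0 ≤ κ) (ha : 0 ≤ a) (hab : a ≤ b) :
    Real.exp (-(γ * b ^ 2)) * Real.cosh (κ * b) - Real.exp (-(γ * a ^ 2)) * Real.cosh (κ * a) ≤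
      Real.exp (-(γ * b ^ 2)) * (κ ^ 2 / 2 * (b ^ 2 - a ^ 2) * Real.cosh (κ * b)) := by
  have hb : 0 ≤ b := ha.trans hab
  set X := κ * b with hX
  set Y := κ * a with hY
  have hX0 : 0 ≤ X := by positivity
  have hY0 : 0 ≤ Y := by positivity
  have hYX : Y ≤ X := by rw [hX, hY]; gcongr
  have h1 : Real.cosh X - Real.cosh Y = 2 * (Real.sinh ((X + Y) / 2) * Real.sinh ((X - Y) / 2)) := by
    have e3 : ((X + Y) / 2 - (X - Y) / 2) = Y := by ring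
    have e4 : ((X + Y) / 2 + (X - Y) / 2) = X := by ring
    have a1 := Real.cosh_add ((X + Y) / 2) ((X - Y) / 2)
    have a2 := Real.cosh_sub ((X + Y) / 2) ((X - Y) / 2)
    rw [e4] at a1
    rw [e3] at a2
    rw [a1, a2]
    ring
  have h2 : Real.sinh ((X + Y) / 2) * Real.sinh ((X - Y) / 2) ≤
      ((X + Y) / 2 * Real.cosh ((X + Y) / 2)) * ((X - Y) / 2 * Real.cosh ((X - Y) / 2)) := by
    refine mul_le_mul (sinh_le_mul (by linarith)) (sinh_le_mul (by linarith))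
      (Real.sinh_nonneg_iff.mpr (by linarith)) ?_
    have := Real.cosh_pos ((X + Y) / 2)
    positivity
  have h3 : Real.cosh ((X + Y) / 2) * Real.cosh ((X - Y) / 2) = (Real.cosh X + Real.cosh Y) / 2 := by
    have e3 : ((X + Y) / 2 - (X - Y) / 2) = Y := by ring
    have e4 : ((X + Y) / 2 + (X - Y) / 2) = X := by ring
    have a1 := Real.cosh_add ((X + Y) / 2) ((X - Y) / 2)
    have a2 := Real.cosh_sub ((X + Y) / 2) ((X - Y) / 2)
    rw [e4] at a1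
    rw [e3] at a2
    rw [a1, a2]
    ring
  have h4 : Real.cosh Y ≤ Real.cosh X := by
    rw [Real.cosh_le_cosh, abs_of_nonneg hY0, abs_of_nonneg hX0]; exact hYX
  have h5 : Real.cosh X - Real.cosh Y ≤ (X ^ 2 - Y ^ 2) / 2 * Real.cosh X := by
    have hXY : 0 ≤ X ^ 2 - Y ^ 2 := by nlinarith
    calc Real.cosh X - Real.cosh Y
        = 2 * (Real.sinh ((X + Y) / 2) * Real.sinh ((X - Y) / 2)) := h1
      _ ≤ 2 * (((X + Y) / 2 * Real.cosh ((X + Y) / 2)) * ((X - Y) / 2 * Real.cosh ((X - Y) / 2))) := by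
          linarith
      _ = (X ^ 2 - Y ^ 2) / 2 * (Real.cosh ((X + Y) / 2) * Real.cosh ((X - Y) / 2)) := by ring
      _ = (X ^ 2 - Y ^ 2) / 2 * ((Real.cosh X + Real.cosh Y) / 2) := by rw [h3]
      _ ≤ (X ^ 2 - Y ^ 2) / 2 * Real.cosh X := by
          refine mul_le_mul_of_nonneg_left ?_ (by linarith)
          linarith
  have h6 : Real.exp (-(γ * b ^ 2)) ≤ Real.exp (-(γ * a ^ 2)) := by
    refine Real.exp_le_exp.mpr ?_
    have : a ^ 2 ≤ b ^ 2 := by nlinarith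
    nlinarith
  have h7 : Real.exp (-(γ * b ^ 2)) * Real.cosh X - Real.exp (-(γ * a ^ 2)) * Real.cosh Y ≤
      Real.exp (-(γ * b ^ 2)) * ((X ^ 2 - Y ^ 2) / 2 * Real.cosh X) := by
    have hc := Real.cosh_pos Y
    have h8 := mul_le_mul_of_nonneg_left h5 (Real.exp_pos (-(γ * b ^ 2))).le
    nlinarith
  refine h7.trans (le_of_eq ?_)
  rw [hX, hY]
  ring

end Pool.Agent.Lib.EPH
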