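import Pool.Agent.Lib.EPH.Dir

/-!
# The direct side: the main inequality
-/

namespace Pool.Agent.Lib.EPH

open Real

/-- the relative weight of a term with `x ≠ 0`, `k ≠ 0` -/
noncomputable def wt (B C h t u v l : ℝ) (p : (ℤ × ℤ) × ℤ) : ℝ :=
  2 * t * (p.2 : ℝ) ^ 2 * (b2 1 B C p.1.1 p.1.2 u v ^ 2 / q2 1 B C u v) *
    Real.exp (-(t * (h * ((p.2 : ℝ) ^ 2 - 1) + q2 1 B C p.1.1 p.1.2
      + ((p.2 : ℝ) ^ 2 - 1) * (l ^ 2 * q2 1 B C u v)))) *
    Real.cosh (2 * t * |(p.2 : ℝ)| * |b2 1 B C p.1.1 p.1.2 u v| * l)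

/-- every term loses at most its weight times the main term -/
theorem ct_sub_ge {B C h t u v l1 l2 : ℝ} (ht : 0 < t) (hq : 0 < q2 1 B C u v)
    (h1 : 0 ≤ l1) (h12 : l1 ≤ l2) (p : (ℤ × ℤ) × ℤ) :
    -(Real.exp (-(t * h)) * (t * q2 1 B C u v * (l2 ^ 2 - l1 ^ 2)) *
      Real.exp (-(t * q2 1 B C u v * l2 ^ 2)) * wt B C h t u v l2 p) ≤
      ct B C h t u v l1 p - ct B C h t u v l2 p := by
  set q := q2 1 B C u v with hqd
  set s := b2 1 B C p.1.1 p.1.2 u v with hs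
  set N := q2 1 B C (p.1.1 : ℝ) (p.1.2 : ℝ) with hN
  set k : ℝ := (p.2 : ℝ) with hk
  have hcosh : ∀ l : ℝ, Real.cosh (2 * t * k * s * l) = Real.cosh ((2 * t * |k| * |s|) * l) := by
    intro l
    rw [← Real.cosh_abs, ← Real.cosh_abs ((2 * t * |k| * |s|) * l)]
    congr 1
    simp only [abs_mul, abs_abs]
  have h2 := ec_sub_le (γ := t * k ^ 2 * q) (κ := 2 * t * |k| * |s|) (a := l1) (b := l2)
    (by positivity) (by positivity) h1 h12
  have e1 : ∀ l, ct B C h t u v l p = Real.exp (-(t * (h * k ^ 2 + N))) *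
      (Real.exp (-(t * k ^ 2 * q * l ^ 2)) * Real.cosh ((2 * t * |k| * |s|) * l)) := by
    intro l
    unfold ct
    rw [← hqd, ← hs, ← hN, ← hk, hcosh]
  rw [e1, e1]
  have h3 := mul_le_mul_of_nonneg_left h2 (Real.exp_pos (-(t * (h * k ^ 2 + N)))).le
  have e2 : Real.exp (-(t * h)) * (t * q * (l2 ^ 2 - l1 ^ 2)) *
      Real.exp (-(t * q * l2 ^ 2)) * wt B C h t u v l2 p =
      Real.exp (-(t * (h * k ^ 2 + N))) * (Real.exp (-(t * k ^ 2 * q * l2 ^ 2)) *
        ((2 * t * |k| * |s|) ^ 2 / 2 * (l2 ^ 2 - l1 ^ 2) * Real.cosh ((2 * t * |k| * |s|) * l2))) := by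
    unfold wt
    rw [← hqd, ← hs, ← hN, ← hk]
    have e3 : Real.exp (-(t * (h * k ^ 2 + N))) * Real.exp (-(t * k ^ 2 * q * l2 ^ 2)) =
        Real.exp (-(t * h)) * Real.exp (-(t * q * l2 ^ 2)) *
          Real.exp (-(t * (h * (k ^ 2 - 1) + N + (k ^ 2 - 1) * (l2 ^ 2 * q)))) := by
      rw [← Real.exp_add, ← Real.exp_add, ← Real.exp_add]
      congr 1
      ring
    have e4 : (2 * t * |k| * |s|) ^ 2 / 2 = t * q * (2 * t * k ^ 2 * (s ^ 2 / q)) := by
      have : (2 * t * |k| * |s|) ^ 2 = 4 * t ^ 2 * k ^ 2 * s ^ 2 := by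
        rw [mul_pow, mul_pow, mul_pow, sq_abs, sq_abs]; ring
      rw [this]
      field_simp
      ring
    rw [e4]
    linear_combination (t * q * (2 * t * k ^ 2 * (s ^ 2 / q)) * (l2 ^ 2 - l1 ^ 2) *
      Real.cosh ((2 * t * |k| * |s|) * l2)) * (-e3)
  rw [e2]
  linarith

section

variable {B C h t u v l : ℝ}

/-- basic facts on the size of the shift -/
theorem shift_le (hB : |B| ≤ 1 / 2) (hC : 1 ≤ C) (hq0 : 0 < q2 1 B C u v)
    (hq : l ^ 2 * q2 1 B C u v ≤ 1 / 25) (a b : ℝ) :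
    b2 1 B C a b u v ^ 2 / q2 1 B C u v ≤ q2 1 B C a b ∧
      |b2 1 B C a b u v| * l ≤ 1 / 5 * √(q2 1 B C a b) ∧
      (|b2 1 B C a b u v| * l) ^ 2 ≤ q2 1 B C a b * (l ^ 2 * q2 1 B C u v) := by
  have hD := disc_pos hB hC
  have hN := q2_nonneg (B := B) (C := C) one_pos hD a b
  have h1 := cauchy2 1 B C a b u v
  have h2 : 0 ≤ (1 * C - B ^ 2) * (a * v - b * u) ^ 2 := by positivity
  have h3 : b2 1 B C a b u v ^ 2 ≤ q2 1 B C a b * q2 1 B C u v := by linarith
  have h4 := mul_le_mul_of_nonneg_right h3 (sq_nonneg l)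
  refine ⟨by rwa [div_le_iff₀ hq0], ?_, ?_⟩
  · have hs := Real.sqrt_nonneg (q2 1 B C a b)
    refine abs_le_of_sq_le_sq' ?_ (by positivity) |>.2
    rw [mul_pow, mul_pow, sq_abs, Real.sq_sqrt hN]
    have h5 := mul_le_mul_of_nonneg_left hq hN
    nlinarith
  · rw [mul_pow, sq_abs]
    linarith

/-- weights in the layers `k = ±1` -/
theorem wt_one (hB : |B| ≤ 1 / 2) (hC : 1 ≤ C) (ht : 13 / 2 ≤ t) (hq0 : 0 < q2 1 B C u v)
    (hq : l ^ 2 * q2 1 B C u v ≤ 1 / 25) (hl : 0 ≤ l) {σ : ℤ} (hσ : σ = 1 ∨ σ = -1)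
    (hBσ : 0 ≤ B * σ) {x : ℤ × ℤ} (hx : x ≠ 0) {k : ℤ} (hk : |k| = 1) :
    wt B C h t u v l (x, k) ≤ maj σ (27 / 200) (35 / 10000) (1 / 1500) x := by
  have hD := disc_pos hB hC
  have hN := q2_nonneg (B := B) (C := C) one_pos hD x.1 x.2
  obtain ⟨h1, h2, -⟩ := shift_le hB hC hq0 hq x.1 x.2
  set r := √(q2 1 B C (x.1 : ℝ) (x.2 : ℝ)) with hr
  have hr0 : 0 ≤ r := Real.sqrt_nonneg _
  have hr2 : r ^ 2 = q2 1 B C (x.1 : ℝ) (x.2 : ℝ) := Real.sq_sqrt hN
  have ht0 : 0 < t := by linarith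
  have hk1 : |(k : ℝ)| = 1 := by exact_mod_cast hk
  have hk2 : (k : ℝ) ^ 2 = 1 := by rw [← sq_abs, hk1]; norm_num
  have hbase : wt B C h t u v l (x, k) ≤
      2 * t * r ^ 2 * Real.exp (-(t * r ^ 2)) * Real.cosh (2 / 5 * t * r) := by
    unfold wt
    simp only [hk1, hk2]
    have e1 : -(t * (h * (1 - 1) + q2 1 B C (x.1 : ℝ) (x.2 : ℝ) + (1 - 1) * (l ^ 2 * q2 1 B C u v)))
        = -(t * r ^ 2) := by rw [hr2]; ring
    rw [e1]
    have hc : Real.cosh (2 * t * 1 * |b2 1 B C (x.1 : ℝ) (x.2 : ℝ) u v| * l) ≤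
        Real.cosh (2 / 5 * t * r) := by
      have z1 : 0 ≤ 2 * t * 1 * |b2 1 B C (x.1 : ℝ) (x.2 : ℝ) u v| * l := by positivity
      have z2 : 0 ≤ 2 / 5 * t * r := by positivity
      rw [Real.cosh_le_cosh, abs_of_nonneg z1, abs_of_nonneg z2]
      have := mul_le_mul_of_nonneg_left h2 (by positivity : (0 : ℝ) ≤ 2 * t)
      nlinarith
    have hb : b2 1 B C (x.1 : ℝ) (x.2 : ℝ) u v ^ 2 / q2 1 B C u v ≤ r ^ 2 := by rw [hr2]; exact h1
    have hb0 : 0 ≤ b2 1 B C (x.1 : ℝ) (x.2 : ℝ) u v ^ 2 / q2 1 B C u v := by positivity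
    have hc0 := Real.cosh_pos (2 * t * 1 * |b2 1 B C (x.1 : ℝ) (x.2 : ℝ) u v| * l)
    have he := Real.exp_pos (-(t * r ^ 2))
    calc 2 * t * 1 * (b2 1 B C (x.1 : ℝ) (x.2 : ℝ) u v ^ 2 / q2 1 B C u v) *
          Real.exp (-(t * r ^ 2)) *
          Real.cosh (2 * t * 1 * |b2 1 B C (x.1 : ℝ) (x.2 : ℝ) u v| * l)
        ≤ 2 * t * 1 * r ^ 2 * Real.exp (-(t * r ^ 2)) * Real.cosh (2 / 5 * t * r) := by
          gcongr
      _ = _ := by ring
  refine hbase.trans ?_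
  have htail : 0 ≤ 1 / 1500 * Real.exp (-(((x.1 : ℝ) ^ 2 + (x.2 : ℝ) ^ 2) / 2)) := by positivity
  have hhalf := q2_ge_half hB hC (x.1 : ℝ) (x.2 : ℝ)
  unfold maj fin8
  by_cases hfar : 2 ≤ |x.1| ∨ 2 ≤ |x.2|
  · rw [if_neg (by tauto), zero_add]
    have h3 := q2_far hB hC hfar
    exact shell_far ht hr0 (by rw [hr2]; exact h3) (by rw [hr2]; exact hhalf)
  · rw [if_pos ⟨hfar, hx⟩]
    have h3 := q2_one hB hC hx
    split_ifs with hmn
    · -- long diagonal
      have h4 : 2 ≤ r ^ 2 := by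
        rw [hr2]
        unfold q2
        have hb := abs_le.mp hB
        obtain ⟨c1, c2⟩ := near_cases hfar
        have hB' : B * ((x.1 * x.2 : ℤ) : ℝ) = B * σ := by rw [hmn]
        push_cast at hB'
        have hm2 : (x.1 : ℝ) ^ 2 = 1 := by
          rcases c1 with c | c | c
          · exfalso
            rw [c] at hmn
            rcases hσ with h | h <;> rw [h] at hmn <;> simp at hmn
          · rw [c]; norm_num
          · rw [c]; norm_num
        have hn2 : (x.2 : ℝ) ^ 2 = 1 := by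
          rcases c2 with c | c | c
          · exfalso
            rw [c] at hmn
            rcases hσ with h | h <;> rw [h] at hmn <;> simp at hmn
          · rw [c]; norm_num
          · rw [c]; norm_num
        rw [hm2, hn2]
        have : 2 * B * (x.1 : ℝ) * (x.2 : ℝ) = 2 * (B * σ) := by rw [← hB']; ring
        linarith
      have := shell_two ht hr0 h4
      linarith
    · have hr1 : 1 ≤ r := by
        rw [← hr2] at h3
        nlinarith
      have := shell_one ht hr1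
      linarith

/-- weights in the far layers -/
theorem wt_two (hB : |B| ≤ 1 / 2) (hC : 1 ≤ C) (hh : 2 / 5 ≤ h) (ht : 13 / 2 ≤ t)
    (hq0 : 0 < q2 1 B C u v) (hq : l ^ 2 * q2 1 B C u v ≤ 1 / 25) (hl : 0 ≤ l) (σ : ℤ)
    {x : ℤ × ℤ} (hx : x ≠ 0) {k : ℤ} (hk : 2 ≤ |k|) :
    wt B C h t u v l (x, k) ≤ maj σ (1 / 10) (1 / 10) (1 / 1000) x * kap t k := by
  have hD := disc_pos hB hC
  have hN := q2_nonneg (B := B) (C := C) one_pos hD x.1 x.2
  obtain ⟨h1, -, h2⟩ := shift_le hB hC hq0 hq x.1 x.2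
  set N := q2 1 B C (x.1 : ℝ) (x.2 : ℝ) with hNd
  have ht0 : 0 < t := by linarith
  have hk1 : (2 : ℝ) ≤ |(k : ℝ)| := by exact_mod_cast hk
  have hk2 : (k : ℝ) ^ 2 = |(k : ℝ)| ^ 2 := (sq_abs _).symm
  set K := |(k : ℝ)| with hK
  set y2 := l ^ 2 * q2 1 B C u v with hy2
  have hy0 : 0 ≤ y2 := by positivity
  set a := |b2 1 B C (x.1 : ℝ) (x.2 : ℝ) u v| * l with ha
  have ha0 : 0 ≤ a := by positivity
  have h4 : 2 * K * a ≤ N / 4 + 4 * K ^ 2 * y2 := by
    refine abs_le_of_sq_le_sq' ?_ (by positivity) |>.2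
    have h5 := mul_le_mul_of_nonneg_left h2 (by positivity : 0 ≤ 4 * K ^ 2)
    nlinarith [sq_nonneg (N / 4 - 4 * K ^ 2 * y2)]
  have hbase : wt B C h t u v l (x, k) ≤
      (2 * t * N * Real.exp (-(3 / 4 * (t * N)))) *
        (K ^ 2 * Real.exp (-(t * (7 / 25 * K ^ 2 - 11 / 25)))) := by
    unfold wt
    simp only
    rw [hk2, ← hNd, ← hK, ← hy2]
    have hc : Real.cosh (2 * t * K * |b2 1 B C (x.1 : ℝ) (x.2 : ℝ) u v| * l) ≤
        Real.exp (t * (N / 4 + 4 * K ^ 2 * y2)) := by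
      have hz : 0 ≤ 2 * t * K * |b2 1 B C (x.1 : ℝ) (x.2 : ℝ) u v| * l := by positivity
      refine (cosh_le_exp hz).trans (Real.exp_le_exp.mpr ?_)
      have h5 := mul_le_mul_of_nonneg_left h4 ht0.le
      have e : 2 * t * K * |b2 1 B C (x.1 : ℝ) (x.2 : ℝ) u v| * l = t * (2 * K * a) := by
        rw [ha]; ring
      rw [e]
      exact h5
    have hb0 : 0 ≤ b2 1 B C (x.1 : ℝ) (x.2 : ℝ) u v ^ 2 / q2 1 B C u v := by positivity
    have hc0 := Real.cosh_pos (2 * t * K * |b2 1 B C (x.1 : ℝ) (x.2 : ℝ) u v| * l)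
    calc 2 * t * K ^ 2 * (b2 1 B C (x.1 : ℝ) (x.2 : ℝ) u v ^ 2 / q2 1 B C u v) *
          Real.exp (-(t * (h * (K ^ 2 - 1) + N + (K ^ 2 - 1) * y2))) *
          Real.cosh (2 * t * K * |b2 1 B C (x.1 : ℝ) (x.2 : ℝ) u v| * l)
        ≤ 2 * t * K ^ 2 * N *
          Real.exp (-(t * (h * (K ^ 2 - 1) + N + (K ^ 2 - 1) * y2))) *
          Real.exp (t * (N / 4 + 4 * K ^ 2 * y2)) := by
          gcongr
      _ = 2 * t * K ^ 2 * N * Real.exp (-(t * (h * (K ^ 2 - 1) + N + (K ^ 2 - 1) * y2)) +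
          t * (N / 4 + 4 * K ^ 2 * y2)) := by rw [Real.exp_add]; ring
      _ ≤ 2 * t * K ^ 2 * N * Real.exp (-(3 / 4 * (t * N)) +
          -(t * (7 / 25 * K ^ 2 - 11 / 25))) := by
          refine mul_le_mul_of_nonneg_left (Real.exp_le_exp.mpr ?_) (by positivity)
          have h6 : 3 / 4 * N + (7 / 25 * K ^ 2 - 11 / 25) ≤
              h * (K ^ 2 - 1) + N + (K ^ 2 - 1) * y2 - (N / 4 + 4 * K ^ 2 * y2) := by
            have h7 : 2 / 5 * (K ^ 2 - 1) ≤ h * (K ^ 2 - 1) :=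
              mul_le_mul_of_nonneg_right hh (by nlinarith)
            have h8 : K ^ 2 * y2 ≤ K ^ 2 * (1 / 25) :=
              mul_le_mul_of_nonneg_left hq (by positivity)
            nlinarith
          have h9 := mul_le_mul_of_nonneg_left h6 ht0.le
          nlinarith
      _ = _ := by rw [Real.exp_add]; ring
  refine hbase.trans ?_
  have hkap : kap t k = K ^ 2 * Real.exp (-(t * (7 / 25 * K ^ 2 - 11 / 25))) := by
    unfold kap
    rw [if_pos hk, hk2]
  rw [hkap]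
  refine mul_le_mul_of_nonneg_right ?_ (by positivity)
  have htail : 0 ≤ 1 / 1000 * Real.exp (-(((x.1 : ℝ) ^ 2 + (x.2 : ℝ) ^ 2) / 2)) := by positivity
  have hhalf := q2_ge_half hB hC (x.1 : ℝ) (x.2 : ℝ)
  unfold maj fin8
  by_cases hfar : 2 ≤ |x.1| ∨ 2 ≤ |x.2|
  · rw [if_neg (by tauto), zero_add]
    exact two_far ht (q2_far hB hC hfar) hhalf
  · rw [if_pos ⟨hfar, hx⟩]
    have h3 := two_any ht (q2_one hB hC hx)
    split_ifs <;> linarith

/-- THE DIRECT SIDE -/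
theorem direct_lt (hB : |B| ≤ 1 / 2) (hC : 1 ≤ C) (hh : 2 / 5 ≤ h) (ht : 13 / 2 ≤ t)
    (hq0 : 0 < q2 1 B C u v) {l1 l2 : ℝ} (hl : 0 ≤ l1) (hl12 : l1 < l2)
    (hq : l2 ^ 2 * q2 1 B C u v ≤ 1 / 25) :
    Th 1 B C h t (l2 * u) (l2 * v) < Th 1 B C h t (l1 * u) (l1 * v) := by
  have ht0 : 0 < t := by linarith
  have hh0 : 0 < h := by linarith
  have hl2 : 0 ≤ l2 := hl.trans hl12.le
  obtain ⟨σ, hσ, hBσ⟩ : ∃ σ : ℤ, (σ = 1 ∨ σ = -1) ∧ 0 ≤ B * σ := by
    rcases le_total 0 B with h | h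
    · exact ⟨1, Or.inl rfl, by simpa using h⟩
    · refine ⟨-1, Or.inr rfl, ?_⟩
      push_cast
      linarith
  set P := Real.exp (-(t * h)) * (t * q2 1 B C u v * (l2 ^ 2 - l1 ^ 2)) *
      Real.exp (-(t * q2 1 B C u v * l2 ^ 2)) with hP
  have hΔ : 0 < l2 ^ 2 - l1 ^ 2 := by nlinarith
  have hP0 : 0 < P := by positivity
  have hs := (ct_sum hB hC hh0 ht0 u v l1).sub (ct_sum hB hC hh0 ht0 u v l2)
  obtain ⟨M1, hM1, hs1⟩ := maj_sum hσ (27 / 200) (35 / 10000) (1 / 1500) (by norm_num)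
  obtain ⟨M2, hM2, hs2⟩ := maj_sum hσ (1 / 10) (1 / 10) (1 / 1000) (by norm_num)
  obtain ⟨K, hK, hsK⟩ := kap_sum ht
  have hm1 := maj_nonneg σ (c := 27 / 200) (d := 35 / 10000) (e := 1 / 1500)
    (by norm_num) (by norm_num) (by norm_num)
  have hm2 := maj_nonneg σ (c := 1 / 10) (d := 1 / 10) (e := 1 / 1000)
    (by norm_num) (by norm_num) (by norm_num)
  have hp1 := hs1.mul one1_sum (hs1.summable.mul_of_nonneg one1_sum.summable hm1 one1_nonneg)
  have hp2 := hs2.mul hsK (hs2.summable.mul_of_nonneg hsK.summable hm2 (kap_nonneg t))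
  have hd : HasSum (fun x : ℤ × ℤ => if x = 0 then (1 : ℝ) else 0) 1 := hasSum_ite_eq 0 1
  have hd0 : ∀ x : ℤ × ℤ, 0 ≤ (if x = 0 then (1 : ℝ) else 0) := by
    intro x; split_ifs <;> norm_num
  have hp0 := hd.mul one1_sum (hd.summable.mul_of_nonneg one1_sum.summable hd0 one1_nonneg)
  have hlow := (hp0.sub (hp1.add hp2)).mul_left P
  have hle := hasSum_le (fun p => ?_) hlow hs
  · have hM0 : 0 ≤ M2 := hs2.nonneg hm2
    have hK0 : 0 ≤ K := hsK.nonneg (kap_nonneg t)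
    have h1 : M2 * K ≤ 81 / 100 * (11 / 100) := by
      refine mul_le_mul ?_ hK hK0 (by norm_num)
      linarith
    have h2 : 0 < 1 * 2 - (M1 * 2 + M2 * K) := by
      norm_num at hM1
      linarith
    have h3 := mul_pos hP0 h2
    linarith
  · obtain ⟨x, k⟩ := p
    simp only
    have hsub := ct_sub_ge (h := h) (B := B) (C := C) (u := u) (v := v) ht0 hq0 hl hl12.le (x, k)
    rw [← hP] at hsub
    have hn1 := mul_nonneg (hm1 x) (one1_nonneg k)
    have hn2 := mul_nonneg (hm2 x) (kap_nonneg t k)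
    rcases eq_or_ne x 0 with rfl | hx
    · -- the central column
      rw [if_pos rfl, one_mul]
      have hct : ∀ l : ℝ, ct B C h t u v l ((0, 0), k) =
          Real.exp (-(t * (h * (k : ℝ) ^ 2))) *
            Real.exp (-(t * (k : ℝ) ^ 2 * q2 1 B C u v * l ^ 2)) := by
        intro l
        unfold ct
        simp [q2, b2]
      have hnn : 0 ≤ ct B C h t u v l1 ((0, 0), k) - ct B C h t u v l2 ((0, 0), k) := by
        rw [hct, hct, ← mul_sub]
        refine mul_nonneg (Real.exp_pos _).le (sub_nonneg.mpr (Real.exp_le_exp.mpr ?_))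
        have : 0 ≤ t * (k : ℝ) ^ 2 * q2 1 B C u v := by positivity
        nlinarith
      have h10 : P * (one1 k - (maj σ (27 / 200) (35 / 10000) (1 / 1500) 0 * one1 k +
          maj σ (1 / 10) (1 / 10) (1 / 1000) 0 * kap t k)) ≤ P * one1 k := by
        refine mul_le_mul_of_nonneg_left ?_ hP0.le
        linarith
      refine h10.trans ?_
      by_cases hk : |k| = 1
      · have ho : one1 k = 1 := by unfold one1; rw [if_pos hk]
        have hk2 : (k : ℝ) ^ 2 = 1 := by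
          rw [← sq_abs]
          have : |(k : ℝ)| = 1 := by exact_mod_cast hk
          rw [this]; norm_num
        have h4 : P ≤ ct B C h t u v l1 ((0, 0), k) - ct B C h t u v l2 ((0, 0), k) := by
          rw [hct, hct, hk2, ← mul_sub, hP]
          have h5 : Real.exp (-(t * 1 * q2 1 B C u v * l1 ^ 2)) =
              Real.exp (-(t * 1 * q2 1 B C u v * l2 ^ 2)) *
                Real.exp (t * q2 1 B C u v * (l2 ^ 2 - l1 ^ 2)) := by
            rw [← Real.exp_add]; congr 1; ring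
          have h6 := Real.add_one_le_exp (t * q2 1 B C u v * (l2 ^ 2 - l1 ^ 2))
          have h7 := mul_le_mul_of_nonneg_left h6
            (Real.exp_pos (-(t * 1 * q2 1 B C u v * l2 ^ 2))).le
          have h8 : t * q2 1 B C u v * (l2 ^ 2 - l1 ^ 2) *
              Real.exp (-(t * 1 * q2 1 B C u v * l2 ^ 2)) ≤
              Real.exp (-(t * 1 * q2 1 B C u v * l1 ^ 2)) -
                Real.exp (-(t * 1 * q2 1 B C u v * l2 ^ 2)) := by
            rw [h5]; linarith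
          have h9 := mul_le_mul_of_nonneg_left h8 (Real.exp_pos (-(t * (h * 1)))).le
          simp only [mul_one] at h9 ⊢
          linarith
        rw [ho, mul_one]
        exact h4
      · have ho : one1 k = 0 := by unfold one1; rw [if_neg hk]
        rw [ho, mul_zero]
        exact hnn
    · rw [if_neg hx, zero_mul]
      have hw : wt B C h t u v l2 (x, k) ≤ maj σ (27 / 200) (35 / 10000) (1 / 1500) x * one1 k +
          maj σ (1 / 10) (1 / 10) (1 / 1000) x * kap t k := by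
        rcases lt_or_ge |k| 2 with hk | hk
        · rcases eq_or_ne k 0 with rfl | hk0
          · have : wt B C h t u v l2 (x, 0) = 0 := by unfold wt; simp
            rw [this]
            linarith
          · have hk1 : |k| = 1 := by
              have := Int.one_le_abs hk0
              omega
            have := wt_one (h := h) hB hC ht hq0 hq hl2 hσ hBσ hx hk1
            have ho : one1 k = 1 := by unfold one1; rw [if_pos hk1]
            rw [ho, mul_one] at *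
            linarith
        · have := wt_two hB hC hh ht hq0 hq hl2 σ hx hk
          linarith
      have := mul_le_mul_of_nonneg_left hw hP0.le
      linarith

end

end Pool.Agent.Lib.EPH
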