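import Pool.Agent.Lib.EPH.Gth
import Pool.Agent.Lib.EPH.Dir

/-!
# The dual side: `t ≤ 13/2`
-/

namespace Pool.Agent.Lib.EPH

open Real

section

variable {B C : ℝ}

/-- lower bound of the dual form -/
theorem r2_ge (hB : |B| ≤ 1 / 2) (hC : 1 ≤ C) (hC5 : C ≤ 5) (a b : ℝ) :
    2 / 3 * (a ^ 2 + b ^ 2 / 5) ≤ r2 1 B C a b := by
  have hD := disc_pos hB hC
  unfold r2
  rw [le_div_iff₀ hD]
  have hb2 : B ^ 2 ≤ 1 / 4 := by
    rw [← sq_abs]
    have := abs_nonneg B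
    nlinarith
  have h1 : 0 ≤ (C / 3 * a - B * b) ^ 2 := sq_nonneg _
  have h2 : B ^ 2 ≤ C / 3 * (1 - 2 * C / 15) := by nlinarith
  have h3 : 0 ≤ C / 3 * a ^ 2 - 2 * B * a * b + (1 - 2 * C / 15) * b ^ 2 := by
    have h4 : 0 ≤ C / 3 * (C / 3 * a ^ 2 - 2 * B * a * b + (1 - 2 * C / 15) * b ^ 2) := by
      have e : C / 3 * (C / 3 * a ^ 2 - 2 * B * a * b + (1 - 2 * C / 15) * b ^ 2) =
          (C / 3 * a - B * b) ^ 2 + (C / 3 * (1 - 2 * C / 15) - B ^ 2) * b ^ 2 := by ring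
      rw [e]
      have := mul_nonneg (sub_nonneg.mpr h2) (sq_nonneg b)
      linarith
    have h5 : 0 < C / 3 := by linarith
    exact nonneg_of_mul_nonneg_right h4 h5
  nlinarith [sq_nonneg (B * a), sq_nonneg (B * b)]

theorem r2_nonneg (hB : |B| ≤ 1 / 2) (hC : 1 ≤ C) (hC5 : C ≤ 5) (a b : ℝ) :
    0 ≤ r2 1 B C a b := le_trans (by positivity) (r2_ge hB hC hC5 a b)

/-- Cauchy-Schwarz between the form and its dual -/
theorem pair_le (hB : |B| ≤ 1 / 2) (hC : 1 ≤ C) (a b u v : ℝ) :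
    (a * u + b * v) ^ 2 ≤ r2 1 B C a b * q2 1 B C u v := by
  have hD := disc_pos hB hC
  unfold r2
  rw [div_mul_eq_mul_div, le_div_iff₀ hD]
  unfold q2
  have e : (C * a ^ 2 - 2 * B * a * b + 1 * b ^ 2) * (1 * u ^ 2 + 2 * B * u * v + C * v ^ 2) -
      (a * u + b * v) ^ 2 * (1 * C - B ^ 2) = (a * (B * u + C * v) - b * (u + B * v)) ^ 2 := by
    ring
  have := sq_nonneg (a * (B * u + C * v) - b * (u + B * v))
  linarith

theorem r2_e1 (hB : |B| ≤ 1 / 2) (hC : 1 ≤ C) {a : ℝ} (ha : a ^ 2 = 1) :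
    r2 1 B C a 0 ≤ 4 / 3 := by
  have hD := disc_pos hB hC
  have hb2 : B ^ 2 ≤ 1 / 4 := by
    rw [← sq_abs]
    have := abs_nonneg B
    nlinarith
  unfold r2
  rw [div_le_iff₀ hD]
  nlinarith

theorem r2_e2 (hB : |B| ≤ 1 / 2) (hC : 1 ≤ C) {b : ℝ} (hb : b ^ 2 = 1) :
    r2 1 B C 0 b ≤ 1 / (C - 1 / 4) := by
  have hb2 : B ^ 2 ≤ 1 / 4 := by
    rw [← sq_abs]
    have := abs_nonneg B
    nlinarith
  unfold r2
  have e : C * (0 : ℝ) ^ 2 - 2 * B * 0 * b + 1 * b ^ 2 = 1 := by rw [hb]; ring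
  rw [e]
  exact one_div_le_one_div_of_le (by linarith) (by linarith)

/-- the weight of the second short dual vector -/
theorem weight_two {z : ℝ} (hz : 3 / 2 ≤ z) (hC : 1 ≤ C) (hC5 : C ≤ 5) :
    2 / 3 * (C + 1 / 2) * Real.exp (-(4 / 3 * z)) ≤ Real.exp (-(z * (1 / (C - 1 / 4)))) := by
  have hw : 0 < C - 1 / 4 := by linarith
  set w := C - 1 / 4 with hwd
  have hw1 : 3 / 4 ≤ w := by linarith
  have hw2 : w ≤ 19 / 4 := by linarith
  set X := 2 - 3 / (2 * w) with hX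
  have hX0 : 0 ≤ X := by
    rw [hX, sub_nonneg, div_le_iff₀ (by positivity)]
    linarith
  have h1 := Real.quadratic_le_exp_of_nonneg hX0
  have h2 : 2 / 3 * (C + 1 / 2) ≤ 1 + X + X ^ 2 / 2 := by
    have e : C + 1 / 2 = w + 3 / 4 := by rw [hwd]; ring
    rw [e, hX]
    have h3 : 1 + (2 - 3 / (2 * w)) + (2 - 3 / (2 * w)) ^ 2 / 2 - 2 / 3 * (w + 3 / 4) =
        (w - 3 / 4) * (-(2 / 3) * w ^ 2 + 4 * w - 3 / 2) / w ^ 2 := by
      field_simp
      ring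
    have h4 : 0 ≤ (w - 3 / 4) * (-(2 / 3) * w ^ 2 + 4 * w - 3 / 2) / w ^ 2 := by
      refine div_nonneg (mul_nonneg (by linarith) ?_) (by positivity)
      nlinarith
    linarith
  have h3 : X ≤ 4 / 3 * z - z * (1 / w) := by
    have e : 4 / 3 * z - z * (1 / w) = z * (4 / 3 - 1 / w) := by ring
    have e2 : X = 3 / 2 * (4 / 3 - 1 / w) := by rw [hX]; field_simp; ring
    rw [e, e2]
    refine mul_le_mul_of_nonneg_right hz ?_
    rw [sub_nonneg, div_le_iff₀ hw]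
    linarith
  have h4 : 2 / 3 * (C + 1 / 2) ≤ Real.exp (4 / 3 * z - z * (1 / w)) :=
    (h2.trans h1).trans (Real.exp_le_exp.mpr h3)
  calc 2 / 3 * (C + 1 / 2) * Real.exp (-(4 / 3 * z))
      ≤ Real.exp (4 / 3 * z - z * (1 / w)) * Real.exp (-(4 / 3 * z)) :=
        mul_le_mul_of_nonneg_right h4 (Real.exp_pos _).le
    _ = Real.exp (-(z * (1 / w))) := by rw [← Real.exp_add]; congr 1; ring

/-- the good terms -/
noncomputable def goodT (B C z u v : ℝ) (n : ℤ × ℤ) : ℝ :=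
  if n = (1, 0) ∨ n = (-1, 0) ∨ n = (0, 1) ∨ n = (0, -1) then
    ((n.1 : ℝ) * u + n.2 * v) ^ 2 * Real.exp (-(z * r2 1 B C n.1 n.2)) else 0

/-- the bad terms -/
noncomputable def badT (B C z : ℝ) (n : ℤ × ℤ) : ℝ :=
  if 25 / 4 ≤ r2 1 B C n.1 n.2 then r2 1 B C n.1 n.2 * Real.exp (-(z * r2 1 B C n.1 n.2)) else 0

theorem badT_nonneg (z : ℝ) (n : ℤ × ℤ) : 0 ≤ badT B C z n := by
  unfold badT
  split_ifs with h
  · have : 0 ≤ r2 1 B C n.1 n.2 := by linarith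
    positivity
  · exact le_rfl

theorem good_sum (hB : |B| ≤ 1 / 2) (hC : 1 ≤ C) (hC5 : C ≤ 5) {z : ℝ} (hz : 3 / 2 ≤ z)
    (u v : ℝ) : ∃ G : ℝ, 4 / 3 * q2 1 B C u v * Real.exp (-(4 / 3 * z)) ≤ G ∧
      HasSum (goodT B C z u v) G := by
  have h : ∀ n ∉ ({(1, 0), (-1, 0), (0, 1), (0, -1)} : Finset (ℤ × ℤ)), goodT B C z u v n = 0 := by
    intro n hn
    unfold goodT
    rw [if_neg]
    intro hc
    refine hn ?_
    simpa using hc
  have h2 : HasSum (goodT B C z u v) _ := hasSum_sum_of_ne_finset_zero h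
  refine ⟨_, ?_, h2⟩
  have hsum : ∑ n ∈ ({(1, 0), (-1, 0), (0, 1), (0, -1)} : Finset (ℤ × ℤ)), goodT B C z u v n =
      u ^ 2 * Real.exp (-(z * r2 1 B C 1 0)) + u ^ 2 * Real.exp (-(z * r2 1 B C (-1) 0)) +
      (v ^ 2 * Real.exp (-(z * r2 1 B C 0 1)) + v ^ 2 * Real.exp (-(z * r2 1 B C 0 (-1)))) := by
    simp [goodT]
    ring
  rw [hsum]
  have hz0 : 0 ≤ z := by linarith
  have w1 := r2_e1 hB hC (a := 1) (by norm_num)
  have w2 := r2_e1 hB hC (a := -1) (by norm_num)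
  have w3 := r2_e2 hB hC (b := 1) (by norm_num)
  have w4 := r2_e2 hB hC (b := -1) (by norm_num)
  have x1 : Real.exp (-(4 / 3 * z)) ≤ Real.exp (-(z * r2 1 B C 1 0)) :=
    Real.exp_le_exp.mpr (by nlinarith)
  have x2 : Real.exp (-(4 / 3 * z)) ≤ Real.exp (-(z * r2 1 B C (-1) 0)) :=
    Real.exp_le_exp.mpr (by nlinarith)
  have hw := weight_two hz hC hC5
  have x3 : 2 / 3 * (C + 1 / 2) * Real.exp (-(4 / 3 * z)) ≤ Real.exp (-(z * r2 1 B C 0 1)) :=
    hw.trans (Real.exp_le_exp.mpr (by nlinarith))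
  have x4 : 2 / 3 * (C + 1 / 2) * Real.exp (-(4 / 3 * z)) ≤ Real.exp (-(z * r2 1 B C 0 (-1))) :=
    hw.trans (Real.exp_le_exp.mpr (by nlinarith))
  have hq : q2 1 B C u v ≤ 3 / 2 * u ^ 2 + (C + 1 / 2) * v ^ 2 := by
    unfold q2
    have hb := abs_le.mp hB
    nlinarith [sq_nonneg (u + v), sq_nonneg (u - v), sq_nonneg u, sq_nonneg v]
  have hE := Real.exp_pos (-(4 / 3 * z))
  have y1 := mul_le_mul_of_nonneg_left x1 (sq_nonneg u)
  have y2 := mul_le_mul_of_nonneg_left x2 (sq_nonneg u)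
  have y3 := mul_le_mul_of_nonneg_left x3 (sq_nonneg v)
  have y4 := mul_le_mul_of_nonneg_left x4 (sq_nonneg v)
  have y5 := mul_le_mul_of_nonneg_right hq hE.le
  nlinarith

/-- a Gaussian sum with a variable parameter -/
theorem gauss_le {a a0 : ℝ} (ha0 : 0 < a0) (h : a0 ≤ a) (ha1 : a0 ≤ 1) :
    gth a 0 ≤ 1001 / 1000 * √(π / a0) := by
  refine le_trans ?_ (gth_zero_le ha0 ha1)
  unfold gth
  refine (summable_gth (ha0.trans_le h) 0).tsum_le_tsum (fun m => ?_) (summable_gth ha0 0)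
  refine Real.exp_le_exp.mpr ?_
  have := mul_le_mul_of_nonneg_right h (sq_nonneg ((m : ℝ) - 0))
  linarith

theorem bad_sum (hB : |B| ≤ 1 / 2) (hC : 1 ≤ C) (hC5 : C ≤ 5) {z : ℝ} (hz : 1518 / 1000 ≤ z) :
    ∃ T : ℝ, T ≤ 435 * Real.exp (-(45 / 8 * z)) ∧ HasSum (badT B C z) T := by
  have hz0 : 0 < z := by linarith
  set c := 25 / 4 * Real.exp (-(45 / 8 * z)) with hc
  have hc0 : 0 < c := by positivity
  have hs1 := summable_gth (β := z / 15) (by positivity) 0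
  have hs2 := summable_gth (β := z / 75) (by positivity) 0
  have hm := hs1.mul_of_nonneg hs2 (fun _ => (Real.exp_pos _).le) (fun _ => (Real.exp_pos _).le)
  have hp := (hs1.hasSum.mul hs2.hasSum hm).mul_left c
  have hle : ∀ n : ℤ × ℤ, badT B C z n ≤
      c * (Real.exp (-(z / 15 * ((n.1 : ℝ) - 0) ^ 2)) * Real.exp (-(z / 75 * ((n.2 : ℝ) - 0) ^ 2))) := by
    intro n
    unfold badT
    split_ifs with h
    · have h1 := mul_exp_anti (b := 9 / 10 * z) (x := 25 / 4) (y := r2 1 B C (n.1 : ℝ) (n.2 : ℝ))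
        (by norm_num) (by nlinarith) h
      have h2 : Real.exp (-(z * r2 1 B C (n.1 : ℝ) (n.2 : ℝ))) =
          Real.exp (-(9 / 10 * z * r2 1 B C (n.1 : ℝ) (n.2 : ℝ))) *
            Real.exp (-(z / 10 * r2 1 B C (n.1 : ℝ) (n.2 : ℝ))) := by
        rw [← Real.exp_add]; congr 1; ring
      have h3 : Real.exp (-(z / 10 * r2 1 B C (n.1 : ℝ) (n.2 : ℝ))) ≤
          Real.exp (-(z / 15 * ((n.1 : ℝ) - 0) ^ 2)) * Real.exp (-(z / 75 * ((n.2 : ℝ) - 0) ^ 2)) := by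
        rw [← Real.exp_add]
        refine Real.exp_le_exp.mpr ?_
        have h4 := mul_le_mul_of_nonneg_left (r2_ge hB hC hC5 (n.1 : ℝ) (n.2 : ℝ))
          (by positivity : 0 ≤ z / 10)
        nlinarith
      have e : 25 / 4 * Real.exp (-(9 / 10 * z * (25 / 4))) = c := by
        rw [hc]; congr 2; ring
      rw [e] at h1
      rw [h2, ← mul_assoc]
      exact mul_le_mul h1 h3 (Real.exp_pos _).le hc0.le
    · positivity
  have hsum : Summable (badT B C z) := Summable.of_nonneg_of_le (badT_nonneg z) hle hp.summable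
  have h1 := hasSum_le hle hsum.hasSum hp
  refine ⟨_, h1.trans ?_, hsum.hasSum⟩
  have g1 := gauss_le (a := z / 15) (a0 := 1518 / 15000) (by norm_num) (by linarith) (by norm_num)
  have g2 := gauss_le (a := z / 75) (a0 := 1518 / 75000) (by norm_num) (by linarith) (by norm_num)
  have n1 : 0 ≤ gth (z / 15) 0 := tsum_nonneg fun _ => (Real.exp_pos _).le
  have n2 : 0 ≤ gth (z / 75) 0 := tsum_nonneg fun _ => (Real.exp_pos _).le
  have h2 : gth (z / 15) 0 * gth (z / 75) 0 ≤ 696 / 10 := by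
    refine (mul_le_mul g1 g2 n2 (n1.trans g1)).trans ?_
    rw [mul_mul_mul_comm, ← Real.sqrt_mul (by positivity)]
    have h3 : √(π / (1518 / 15000) * (π / (1518 / 75000))) ≤ 6943 / 100 := by
      rw [Real.sqrt_le_left (by norm_num)]
      have hπ : π ^ 2 ≤ 986961 / 100000 := by
        have := Real.pi_lt_d6
        have := Real.pi_pos
        nlinarith
      have e : π / (1518 / 15000) * (π / (1518 / 75000)) = π ^ 2 * (15000 * 75000 / 1518 ^ 2) := by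
        field_simp
      rw [e]
      nlinarith
    nlinarith
  have h3 : (∑' b : ℤ, Real.exp (-(z / 15 * ((b : ℝ) - 0) ^ 2))) *
      (∑' b : ℤ, Real.exp (-(z / 75 * ((b : ℝ) - 0) ^ 2))) = gth (z / 15) 0 * gth (z / 75) 0 := rfl
  rw [h3]
  calc c * (gth (z / 15) 0 * gth (z / 75) 0) ≤ c * (696 / 10) :=
        mul_le_mul_of_nonneg_left h2 hc0.le
    _ = 435 * Real.exp (-(45 / 8 * z)) := by rw [hc]; ring

end

end Pool.Agent.Lib.EPH
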