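import Pool.Agent.Lib.EPH.Dual
import Pool.Agent.Lib.EPH.Dir2

/-!
# The dual side: the main inequality
-/

namespace Pool.Agent.Lib.EPH

open Real

section

variable {B C h t u v : ℝ}

theorem gth_scale (β l φ : ℝ) (hl : 0 ≤ l) : gth β (l * φ) = gth β (l * |φ|) := by
  rw [← gth_abs, abs_mul, abs_of_nonneg hl]

/-- the comparison of exponentials -/
theorem num_wide {z : ℝ} (hz : 1518 / 1000 ≤ z) :
    48 / 25 * (435 * Real.exp (-(45 / 8 * z))) < 4 / 3 * Real.exp (-(4 / 3 * z)) := by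
  have e : Real.exp (-(4 / 3 * z)) = Real.exp (-(45 / 8 * z)) * Real.exp (103 / 24 * z) := by
    rw [← Real.exp_add]; congr 1; ring
  have h1 : Real.exp 6 * Real.exp (1 / 2) ≤ Real.exp (103 / 24 * z) := by
    rw [← Real.exp_add]
    refine Real.exp_le_exp.mpr ?_
    linarith
  have h2 : (2.718 : ℝ) ^ 6 ≤ Real.exp 6 := by
    have h := Real.exp_one_gt_d9
    have : Real.exp 6 = Real.exp 1 ^ 6 := by
      rw [← Real.exp_nat_mul]; norm_num
    rw [this]
    exact pow_le_pow_left₀ (by norm_num) (by linarith) 6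
  have h3 : (13 / 8 : ℝ) ≤ Real.exp (1 / 2) := by
    have := Real.quadratic_le_exp_of_nonneg (x := (1 / 2 : ℝ)) (by norm_num)
    linarith
  have h4 : (2.718 : ℝ) ^ 6 * (13 / 8) ≤ Real.exp 6 * Real.exp (1 / 2) :=
    mul_le_mul h2 h3 (by norm_num) (Real.exp_pos _).le
  have h5 : (655 : ℝ) ≤ Real.exp (103 / 24 * z) := by
    norm_num at h4 ⊢
    linarith
  rw [e]
  have h6 := Real.exp_pos (-(45 / 8 * z))
  nlinarith

theorem num_all {z : ℝ} (hz : 5 / 2 ≤ z) :
    83 / 20 * Real.exp (z * (5 / 2) / 16) * (435 * Real.exp (-(45 / 8 * z))) <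
      4 / 3 * Real.exp (-(4 / 3 * z)) := by
  have e : Real.exp (-(4 / 3 * z)) =
      Real.exp (z * (5 / 2) / 16) * Real.exp (-(45 / 8 * z)) * Real.exp (397 / 96 * z) := by
    rw [← Real.exp_add, ← Real.exp_add]; congr 1; ring
  have h1 : Real.exp 8 ≤ Real.exp (397 / 96 * z) := Real.exp_le_exp.mpr (by linarith)
  have h2 : (2.718 : ℝ) ^ 8 ≤ Real.exp 8 := by
    have h := Real.exp_one_gt_d9
    have : Real.exp 8 = Real.exp 1 ^ 8 := by
      rw [← Real.exp_nat_mul]; norm_num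
    rw [this]
    exact pow_le_pow_left₀ (by norm_num) (by linarith) 8
  have h5 : (2900 : ℝ) ≤ Real.exp (397 / 96 * z) := by
    norm_num at h2 ⊢
    linarith
  rw [e]
  have h6 : 0 < Real.exp (z * (5 / 2) / 16) * Real.exp (-(45 / 8 * z)) := by positivity
  nlinarith

/-- THE DUAL SIDE -/
theorem dual_lt (hB : |B| ≤ 1 / 2) (hC : 1 ≤ C) (hC5 : C ≤ 5) (hh : 2 / 5 ≤ h) (ht0 : 0 < t)
    (ht : t ≤ 13 / 2) (hq0 : 0 < q2 1 B C u v) {l1 l2 : ℝ} (hl : 0 ≤ l1) (hl12 : l1 < l2)
    (hq : l2 ^ 2 * q2 1 B C u v ≤ 1 / 25) :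
    Th 1 B C h t (l2 * u) (l2 * v) < Th 1 B C h t (l1 * u) (l1 * v) := by
  have hh0 : 0 < h := by linarith
  have hl2 : 0 < l2 := lt_of_le_of_lt hl hl12
  have hD := disc_pos hB hC
  have hπ := Real.pi_pos
  set z := π ^ 2 / t with hz
  have hz0 : 0 < z := by positivity
  have hz1 : 1518 / 1000 ≤ z := by
    rw [hz, le_div_iff₀ ht0]
    have := Real.pi_gt_d6
    nlinarith
  set β := z / h with hβ
  have hβ0 : 0 < β := by positivity
  -- the constant and its comparison
  obtain ⟨K, c, hgd, hK0, hnum⟩ : ∃ K c, GD β c K ∧ 0 ≤ K ∧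
      K * (435 * Real.exp (-(45 / 8 * z))) < 4 / 3 * Real.exp (-(4 / 3 * z)) := by
    rcases le_total β (2 * π) with hb | hb
    · obtain ⟨c, hc⟩ := gd_wide hβ0 hb
      exact ⟨48 / 25, c, hc, by norm_num, num_wide hz1⟩
    · obtain ⟨c, hc⟩ := gd_all hβ0
      refine ⟨83 / 20 * Real.exp (β / 16), c, hc, by positivity, ?_⟩
      have hz2 : 5 / 2 ≤ z := by
        have h1 : 2 * π * h ≤ z := by
          rw [hβ, le_div_iff₀ hh0] at hb
          exact hb
        have := Real.pi_gt_d2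
        nlinarith
      have hb2 : β ≤ z * (5 / 2) := by
        rw [hβ, div_le_iff₀ hh0]
        nlinarith
      refine lt_of_le_of_lt ?_ (num_all hz2)
      have := Real.exp_le_exp.mpr (show β / 16 ≤ z * (5 / 2) / 16 by linarith)
      gcongr
  set q := q2 1 B C u v with hqd
  set Δ := l2 ^ 2 - l1 ^ 2 with hΔ
  have hΔ0 : 0 < Δ := by rw [hΔ]; nlinarith
  have hc0 := hgd.pos
  obtain ⟨G, hG, hsG⟩ := good_sum hB hC hC5 (z := z) (by linarith) u v
  obtain ⟨T, hT, hsT⟩ := bad_sum hB hC hC5 hz1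
  have hlow := (hsG.sub (hsT.mul_left (K * q))).mul_left (c * Δ)
  have hpos : 0 < (π / t) ^ ((3 : ℝ) / 2) * ((1 * C - B ^ 2) * h) ^ (-(1 : ℝ) / 2) := by
    have : 0 < (1 * C - B ^ 2) * h := by positivity
    positivity
  have hs := (Th_dual one_pos hD hh0 ht0 (l1 * u) (l1 * v)).sub
    (Th_dual one_pos hD hh0 ht0 (l2 * u) (l2 * v))
  have hle := hasSum_le (fun n => ?_) hlow hs
  · have h1 : 0 < G - K * q * T := by
      have h2 : K * T ≤ K * (435 * Real.exp (-(45 / 8 * z))) := mul_le_mul_of_nonneg_left hT hK0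
      have h3 : K * T < 4 / 3 * Real.exp (-(4 / 3 * z)) := lt_of_le_of_lt h2 hnum
      have h4 := mul_lt_mul_of_pos_left h3 hq0
      linarith
    have h2 : 0 < c * Δ * (G - K * q * T) := by positivity
    have h3 := lt_of_lt_of_le h2 hle
    rw [← sub_div] at h3
    have h4 := (div_pos_iff_of_pos_right hpos).mp h3
    linarith
  · rw [← hz, ← hβ, ← mul_sub]
    set φ := (n.1 : ℝ) * u + n.2 * v with hφ
    have e1 : ∀ l : ℝ, (n.1 : ℝ) * (l * u) + n.2 * (l * v) = l * φ := by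
      intro l; rw [hφ]; ring
    rw [e1, e1, gth_scale β l1 φ hl, gth_scale β l2 φ hl2.le]
    set a := |φ| with ha
    have ha0 : 0 ≤ a := abs_nonneg _
    have ha2 : a ^ 2 = φ ^ 2 := sq_abs _
    have hE := Real.exp_pos (-(z * r2 1 B C (n.1 : ℝ) (n.2 : ℝ)))
    have hpair := pair_le hB hC (n.1 : ℝ) (n.2 : ℝ) u v
    rw [← hφ, ← hqd] at hpair
    have h12 : l1 * a ≤ l2 * a := mul_le_mul_of_nonneg_right hl12.le ha0
    have h1a : 0 ≤ l1 * a := by positivity
    have hbadn := badT_nonneg (B := B) (C := C) z n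
    have hKq : 0 ≤ K * q * badT B C z n := by positivity
    have hcΔ : 0 < c * Δ := by positivity
    rcases le_or_gt (l2 * a) (1 / 2) with hs1 | hs1
    · -- the difference is nonnegative
      have hmono := gth_mono hβ0 h1a h12 hs1
      by_cases hgood : n = (1, 0) ∨ n = (-1, 0) ∨ n = (0, 1) ∨ n = (0, -1)
      · have hr : r2 1 B C (n.1 : ℝ) (n.2 : ℝ) ≤ 4 / 3 := by
          have hw : 1 / (C - 1 / 4) ≤ 4 / 3 := by
            rw [div_le_iff₀ (by linarith)]; linarith
          rcases hgood with h | h | h | h <;> rw [h] <;> push_cast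
          · exact r2_e1 hB hC (by norm_num)
          · exact r2_e1 hB hC (by norm_num)
          · exact (r2_e2 hB hC (by norm_num)).trans hw
          · exact (r2_e2 hB hC (by norm_num)).trans hw
        have hquart : l2 * a ≤ 1 / 4 := by
          refine abs_le_of_sq_le_sq' ?_ (by norm_num) |>.2
          rw [mul_pow, ha2]
          have h3 : l2 ^ 2 * φ ^ 2 ≤ l2 ^ 2 * (4 / 3 * q) := by
            refine mul_le_mul_of_nonneg_left (hpair.trans ?_) (sq_nonneg _)
            exact mul_le_mul_of_nonneg_right hr hq0.le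
          nlinarith
        have hquad := hgd.quad (l1 * a) (l2 * a) h1a h12 hquart
        have e2 : (l2 * a) ^ 2 - (l1 * a) ^ 2 = Δ * φ ^ 2 := by
          rw [hΔ, ← ha2]; ring
        rw [e2] at hquad
        have hg : goodT B C z u v n = φ ^ 2 * Real.exp (-(z * r2 1 B C n.1 n.2)) := by
          unfold goodT
          rw [if_pos hgood]
        rw [hg]
        have h4 := mul_le_mul_of_nonneg_left hquad hE.le
        have h5 := mul_nonneg hcΔ.le hKq
        nlinarith
      · have hg : goodT B C z u v n = 0 := by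
          unfold goodT
          rw [if_neg hgood]
        rw [hg]
        have h4 := mul_nonneg hE.le (sub_nonneg.mpr hmono)
        have h5 := mul_nonneg hcΔ.le hKq
        nlinarith
    · -- bad terms
      have hsq : 1 / 4 < l2 ^ 2 * φ ^ 2 := by
        rw [← ha2, ← mul_pow]
        nlinarith
      have hR : 25 / 4 ≤ r2 1 B C (n.1 : ℝ) (n.2 : ℝ) := by
        by_contra hcon
        push Not at hcon
        have h3 : l2 ^ 2 * φ ^ 2 ≤ l2 ^ 2 * (r2 1 B C (n.1 : ℝ) (n.2 : ℝ) * q) :=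
          mul_le_mul_of_nonneg_left hpair (sq_nonneg _)
        have h4 : l2 ^ 2 * (r2 1 B C (n.1 : ℝ) (n.2 : ℝ) * q) ≤ l2 ^ 2 * (25 / 4 * q) :=
          mul_le_mul_of_nonneg_left (mul_le_mul_of_nonneg_right hcon.le hq0.le) (sq_nonneg _)
        nlinarith
      have hnot : ¬ (n = (1, 0) ∨ n = (-1, 0) ∨ n = (0, 1) ∨ n = (0, -1)) := by
        intro hgood
        have hr : r2 1 B C (n.1 : ℝ) (n.2 : ℝ) ≤ 4 / 3 := by
          have hw : 1 / (C - 1 / 4) ≤ 4 / 3 := by
            rw [div_le_iff₀ (by linarith)]; linarith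
          rcases hgood with h | h | h | h <;> rw [h] <;> push_cast
          · exact r2_e1 hB hC (by norm_num)
          · exact r2_e1 hB hC (by norm_num)
          · exact (r2_e2 hB hC (by norm_num)).trans hw
          · exact (r2_e2 hB hC (by norm_num)).trans hw
        linarith
      have hg : goodT B C z u v n = 0 := by
        unfold goodT
        rw [if_neg hnot]
      have hb : badT B C z n = r2 1 B C n.1 n.2 * Real.exp (-(z * r2 1 B C n.1 n.2)) := by
        unfold badT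
        rw [if_pos hR]
      rw [hg, hb]
      have hlip := hgd.lip (l1 * a) (l2 * a)
      have e2 : |(l1 * a) ^ 2 - (l2 * a) ^ 2| = Δ * φ ^ 2 := by
        have : (l1 * a) ^ 2 - (l2 * a) ^ 2 = -(Δ * φ ^ 2) := by
          rw [hΔ, ← ha2]; ring
        rw [this, abs_neg, abs_of_nonneg (by positivity)]
      rw [e2] at hlip
      have h3 := (abs_le.mp hlip).1
      have h4 : K * c * (Δ * φ ^ 2) ≤ K * c * (Δ * (r2 1 B C (n.1 : ℝ) (n.2 : ℝ) * q)) := by
        refine mul_le_mul_of_nonneg_left (mul_le_mul_of_nonneg_left hpair hΔ0.le) (by positivity)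
      have h5 : -(K * c * (Δ * (r2 1 B C (n.1 : ℝ) (n.2 : ℝ) * q))) ≤
          gth β (l1 * a) - gth β (l2 * a) := by linarith
      have h6 := mul_le_mul_of_nonneg_left h5 hE.le
      nlinarith

/-- THE SHIFT LEMMA for theta series, normalised -/
theorem theta_lt (hB : |B| ≤ 1 / 2) (hC : 1 ≤ C) (hC5 : C ≤ 5) (hh : 2 / 5 ≤ h) (ht0 : 0 < t)
    (hq0 : 0 < q2 1 B C u v) {l1 l2 : ℝ} (hl : 0 ≤ l1) (hl12 : l1 < l2)
    (hq : l2 ^ 2 * q2 1 B C u v ≤ 1 / 25) :
    Th 1 B C h t (l2 * u) (l2 * v) < Th 1 B C h t (l1 * u) (l1 * v) := by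
  rcases le_total t (13 / 2) with ht | ht
  · exact dual_lt hB hC hC5 hh ht0 ht hq0 hl hl12 hq
  · exact direct_lt hB hC hh ht hq0 hl hl12 hq

end

end Pool.Agent.Lib.EPH
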