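import Pool.Agent.Lib.EPH.GthC
import Pool.Agent.Lib.EPS.Theta

/-!
# Layered ternary forms

`sform A B C h u v` has value `q2 (x + k u, y + k v) + h k^2` at `(x, y, k)`.
-/

open Matrix
open scoped Matrix.Norms.Elementwise

namespace Pool.Agent.Lib.EPH

open Real Pool.Agent.Lib.EpZ

/-- the binary form of a layer -/
def q2 (A B C a b : ℝ) : ℝ := A * a ^ 2 + 2 * B * a * b + C * b ^ 2

/-- its bilinear form -/
def b2 (A B C a b c d : ℝ) : ℝ := A * a * c + B * (a * d + b * c) + C * b * d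

/-- the dual binary form -/
noncomputable def r2 (A B C a b : ℝ) : ℝ := (C * a ^ 2 - 2 * B * a * b + A * b ^ 2) / (A * C - B ^ 2)

/-- the ternary form with layers `q2`, height `√h`, shift `(u, v)` -/
def sform (A B C h u v : ℝ) : Mx 3 :=
  !![A, B, A * u + B * v;
     B, C, B * u + C * v;
     A * u + B * v, B * u + C * v, A * u ^ 2 + 2 * B * u * v + C * v ^ 2 + h]

theorem qr_sform (A B C h u v : ℝ) (w : Fin 3 → ℝ) :
    qr (sform A B C h u v) w =
      q2 A B C (w 0 + w 2 * u) (w 1 + w 2 * v) + h * w 2 ^ 2 := by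
  rw [qr_eq]
  simp only [Fin.sum_univ_three, sform, q2]
  simp
  ring

theorem det_sform (A B C h u v : ℝ) : (sform A B C h u v).det = (A * C - B ^ 2) * h := by
  rw [Matrix.det_fin_three]
  simp [sform]
  ring

/-- completing the square -/
theorem q2_sq {A B C : ℝ} (hA : A ≠ 0) (a b : ℝ) :
    q2 A B C a b = A * (a + B / A * b) ^ 2 + (A * C - B ^ 2) / A * b ^ 2 := by
  unfold q2
  field_simp
  ring

theorem q2_pos {A B C : ℝ} (hA : 0 < A) (hD : 0 < A * C - B ^ 2) {a b : ℝ} (h : a ≠ 0 ∨ b ≠ 0) :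
    0 < q2 A B C a b := by
  rw [q2_sq hA.ne']
  rcases eq_or_ne b 0 with hb | hb
  · subst hb
    have ha : a ≠ 0 := by simpa using h
    have : 0 < a ^ 2 := by positivity
    simp
    positivity
  · have : 0 < b ^ 2 := by positivity
    positivity

theorem q2_nonneg {A B C : ℝ} (hA : 0 < A) (hD : 0 < A * C - B ^ 2) (a b : ℝ) :
    0 ≤ q2 A B C a b := by
  rw [q2_sq hA.ne']
  positivity

theorem sform_pd {A B C h : ℝ} (hA : 0 < A) (hD : 0 < A * C - B ^ 2) (hh : 0 < h) (u v : ℝ) :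
    PD (sform A B C h u v) := by
  refine ⟨?_, fun w hw => ?_⟩
  · unfold Matrix.IsSymm sform
    ext i j
    fin_cases i <;> fin_cases j <;> simp [Matrix.transpose]
  · rw [qr_sform]
    rcases eq_or_ne (w 2) 0 with h2 | h2
    · have h01 : w 0 ≠ 0 ∨ w 1 ≠ 0 := by
        by_contra hc
        push Not at hc
        refine hw (funext fun i => ?_)
        fin_cases i
        · exact hc.1
        · exact hc.2
        · exact h2
      have h1 := q2_pos (B := B) (C := C) hA hD h01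
      rw [h2]
      simpa using h1
    · have h1 := q2_nonneg (B := B) (C := C) hA hD (w 0 + w 2 * u) (w 1 + w 2 * v)
      have h3 : 0 < w 2 ^ 2 := by positivity
      have h4 : 0 < h * w 2 ^ 2 := by positivity
      linarith

/-- the inverse matrix -/
noncomputable def sinv (A B C h u v : ℝ) : Mx 3 :=
  !![C / (A * C - B ^ 2) + u ^ 2 / h, -B / (A * C - B ^ 2) + u * v / h, -u / h;
     -B / (A * C - B ^ 2) + u * v / h, A / (A * C - B ^ 2) + v ^ 2 / h, -v / h;
     -u / h, -v / h, 1 / h]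

theorem sform_inv {A B C h : ℝ} (hD : A * C - B ^ 2 ≠ 0) (hh : h ≠ 0) (u v : ℝ) :
    (sform A B C h u v)⁻¹ = sinv A B C h u v := by
  refine Matrix.inv_eq_right_inv ?_
  ext i j
  fin_cases i <;> fin_cases j <;>
    simp [sform, sinv, Matrix.mul_apply, Fin.sum_univ_three] <;> field_simp <;> ring

theorem qr_sinv {A B C h : ℝ} (hh : h ≠ 0) (u v : ℝ) (w : Fin 3 → ℝ) :
    qr (sinv A B C h u v) w =
      r2 A B C (w 0) (w 1) + (w 2 - (w 0 * u + w 1 * v)) ^ 2 / h := by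
  rw [qr_eq]
  simp only [Fin.sum_univ_three, sinv, r2]
  simp
  field_simp
  ring

/-- pairs and heights -/
def e3 : (ℤ × ℤ) × ℤ ≃ (Fin 3 → ℤ) where
  toFun p := ![p.1.1, p.1.2, p.2]
  invFun x := ((x 0, x 1), x 2)
  left_inv p := by rfl
  right_inv x := by
    funext i
    fin_cases i <;> rfl

theorem qf_sform (A B C h u v : ℝ) (p : (ℤ × ℤ) × ℤ) :
    qf (sform A B C h u v) (e3 p) =
      q2 A B C (p.1.1 + p.2 * u) (p.1.2 + p.2 * v) + h * (p.2 : ℝ) ^ 2 := by
  unfold qf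
  rw [qr_sform]
  rfl

/-- the theta series of a layered form -/
noncomputable def Th (A B C h t u v : ℝ) : ℝ :=
  ∑' p : (ℤ × ℤ) × ℤ,
    Real.exp (-(t * (q2 A B C (p.1.1 + p.2 * u) (p.1.2 + p.2 * v) + h * (p.2 : ℝ) ^ 2)))

theorem Th_eq (A B C h t u v : ℝ) :
    ∑' x : Fin 3 → ℤ, Real.exp (-(t * qf (sform A B C h u v) x)) = Th A B C h t u v := by
  unfold Th
  rw [← e3.tsum_eq]
  exact tsum_congr fun p => by rw [qf_sform]

theorem summable_Th {A B C h : ℝ} (hA : 0 < A) (hD : 0 < A * C - B ^ 2) (hh : 0 < h) {t : ℝ}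
    (ht : 0 < t) (u v : ℝ) :
    Summable fun p : (ℤ × ℤ) × ℤ =>
      Real.exp (-(t * (q2 A B C (p.1.1 + p.2 * u) (p.1.2 + p.2 * v) + h * (p.2 : ℝ) ^ 2))) := by
  have h1 := EPS.summable_theta (sform_pd hA hD hh u v) ht
  have h2 := (e3.summable_iff).mpr h1
  refine h2.congr fun p => ?_
  simp only [Function.comp]
  rw [qf_sform]

/-- the dual expression -/
theorem Th_dual {A B C h : ℝ} (hA : 0 < A) (hD : 0 < A * C - B ^ 2) (hh : 0 < h) {t : ℝ}
    (ht : 0 < t) (u v : ℝ) :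
    HasSum (fun n : ℤ × ℤ => Real.exp (-(π ^ 2 / t * r2 A B C n.1 n.2)) *
      gth (π ^ 2 / t / h) (n.1 * u + n.2 * v))
      (Th A B C h t u v / ((π / t) ^ ((3 : ℝ) / 2) * ((A * C - B ^ 2) * h) ^ (-(1 : ℝ) / 2))) := by
  have hpd := sform_pd hA hD hh u v
  have h1 := EPS.theta_dual hpd ht
  rw [Th_eq, det_sform, sform_inv hD.ne' hh.ne'] at h1
  have hpi : PD (sinv A B C h u v) := by
    rw [← sform_inv hD.ne' hh.ne']
    exact pd_of_posDef hpd.posDef.inv
  have h2 := EPS.summable_theta hpi (t := π ^ 2 / t) (by positivity)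
  have h3 := (e3.summable_iff).mpr h2
  have hval : ∀ p : (ℤ × ℤ) × ℤ, Real.exp (-(π ^ 2 / t * qf (sinv A B C h u v) (e3 p))) =
      Real.exp (-(π ^ 2 / t * r2 A B C p.1.1 p.1.2)) *
        Real.exp (-(π ^ 2 / t / h * ((p.2 : ℝ) - (p.1.1 * u + p.1.2 * v)) ^ 2)) := by
    intro p
    unfold qf
    rw [qr_sinv hh.ne', ← Real.exp_add]
    congr 1
    have e1 : rv (e3 p) 0 = p.1.1 := rfl
    have e2 : rv (e3 p) 1 = p.1.2 := rfl
    have e4 : rv (e3 p) 2 = p.2 := rfl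
    rw [e1, e2, e4]
    ring
  have hpos : 0 < (π / t) ^ ((3 : ℝ) / 2) * ((A * C - B ^ 2) * h) ^ (-(1 : ℝ) / 2) := by
    have : 0 < (A * C - B ^ 2) * h := by positivity
    positivity
  have h4 : HasSum (fun p : (ℤ × ℤ) × ℤ => Real.exp (-(π ^ 2 / t * r2 A B C p.1.1 p.1.2)) *
        Real.exp (-(π ^ 2 / t / h * ((p.2 : ℝ) - (p.1.1 * u + p.1.2 * v)) ^ 2)))
      (Th A B C h t u v / ((π / t) ^ ((3 : ℝ) / 2) * ((A * C - B ^ 2) * h) ^ (-(1 : ℝ) / 2))) := by
    have h5 : Th A B C h t u v / ((π / t) ^ ((3 : ℝ) / 2) * ((A * C - B ^ 2) * h) ^ (-(1 : ℝ) / 2)) =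
        ∑' y : Fin 3 → ℤ, Real.exp (-(π ^ 2 / t * qf (sinv A B C h u v) y)) := by
      rw [h1, mul_comm, mul_div_assoc, div_self hpos.ne', mul_one]
    rw [h5, ← e3.tsum_eq]
    have h6 := h3.hasSum
    have h7 := funext hval
    rw [← h7]
    exact h6
  refine h4.prod_fiberwise fun n => ?_
  exact ((summable_gth (β := π ^ 2 / t / h) (by positivity) (n.1 * u + n.2 * v)).hasSum).mul_left _

end Pool.Agent.Lib.EPH
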