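import Pool.Agent.Lib.EPH.GthC

/-!
# One-dimensional theta functions: the combined estimates
-/

namespace Pool.Agent.Lib.EPH

open Real

theorem sin_low {x : ℝ} (hx : 0 ≤ x) (hx1 : x ≤ 1 / 4) : 14 / 5 * x ≤ Real.sin (π * x) := by
  have hc := strictConcaveOn_sin_Icc.concaveOn
  have hπ := Real.pi_pos
  have m0 : (0 : ℝ) ∈ Set.Icc 0 π := ⟨le_rfl, hπ.le⟩
  have m1 : (π / 4 : ℝ) ∈ Set.Icc 0 π := ⟨by positivity, by linarith⟩
  have w0 : (0 : ℝ) ≤ 1 - 4 * x := by linarith
  have w1 : (0 : ℝ) ≤ 4 * x := by linarith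
  have w2 : (1 - 4 * x) + 4 * x = 1 := by ring
  have h := hc.2 m0 m1 w0 w1 w2
  simp only [smul_eq_mul, mul_zero, Real.sin_zero, zero_add] at h
  have e : 4 * x * (π / 4) = π * x := by ring
  rw [e, Real.sin_pi_div_four] at h
  have h2 : (7 / 5 : ℝ) ≤ √2 := by
    rw [Real.le_sqrt (by norm_num) (by norm_num)]
    norm_num
  nlinarith

theorem sin_low2 {x : ℝ} (hx : 0 ≤ x) (hx1 : x ≤ 1 / 2) : 2 * x ≤ Real.sin (π * x) := by
  have hπ := Real.pi_pos
  have h := Real.mul_le_sin (x := π * x) (by positivity) (by nlinarith)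
  have e : 2 / π * (π * x) = 2 * x := by field_simp
  rw [e] at h
  exact h

/-- monotonicity, spread case -/
theorem gthC_mono {β : ℝ} (hβ : 0 < β) (hq : nome β ≤ 457 / 1000) {a b : ℝ} (ha : 0 ≤ a)
    (hab : a ≤ b) (hb : b ≤ 1 / 2) : gth β b ≤ gth β a := by
  have h := gth_cos_main hβ hq a b
  have hq0 := nome_pos β
  have hs : 0 < √(π / β) := Real.sqrt_pos.mpr (by positivity)
  have hπ := Real.pi_pos
  have s1 : 0 ≤ Real.sin (π * (a + b)) :=
    Real.sin_nonneg_of_nonneg_of_le_pi (mul_nonneg hπ.le (by linarith)) (by nlinarith)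
  have s2 : 0 ≤ Real.sin (π * (b - a)) :=
    Real.sin_nonneg_of_nonneg_of_le_pi (mul_nonneg hπ.le (by linarith)) (by nlinarith)
  rw [abs_of_nonneg s1, abs_of_nonneg s2] at h
  have h1 := (abs_le.mp h).1
  have hs3 : 80 / 19 * nome β ^ 3 ≤ 1 := by
    have : nome β ^ 3 ≤ (457 / 1000) ^ 3 := pow_le_pow_left₀ hq0.le hq 3
    norm_num at this ⊢
    linarith
  have h2 : 4 * nome β * (Real.sin (π * (a + b)) * Real.sin (π * (b - a))) *
      (80 / 19 * nome β ^ 3) ≤ 4 * nome β * (Real.sin (π * (a + b)) * Real.sin (π * (b - a))) * 1 :=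
    mul_le_mul_of_nonneg_left hs3 (by positivity)
  have h3 : 0 ≤ (gth β a - gth β b) / √(π / β) := by linarith
  have h4 : 0 ≤ gth β a - gth β b := by
    have := mul_nonneg h3 hs.le
    rwa [div_mul_cancel₀ _ hs.ne'] at this
  linarith

/-- quadratic decrease, spread case -/
theorem gthC_quad {β : ℝ} (hβ : 0 < β) (hq : nome β ≤ 457 / 1000) {a b : ℝ} (ha : 0 ≤ a)
    (hab : a ≤ b) (hb : b ≤ 1 / 4) :
    (1 - 80 / 19 * nome β ^ 3) * (112 / 5 * nome β * √(π / β)) * (b ^ 2 - a ^ 2) ≤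
      gth β a - gth β b := by
  have h := gth_cos_main hβ hq a b
  have hq0 := nome_pos β
  have hs : 0 < √(π / β) := Real.sqrt_pos.mpr (by positivity)
  have s1 := sin_low2 (x := a + b) (by linarith) (by linarith)
  have s2 := sin_low (x := b - a) (by linarith) (by linarith)
  have s10 : 0 ≤ Real.sin (π * (a + b)) := le_trans (by linarith) s1
  have s20 : 0 ≤ Real.sin (π * (b - a)) := le_trans (by linarith) s2
  rw [abs_of_nonneg s10, abs_of_nonneg s20] at h
  have h1 := (abs_le.mp h).1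
  have hs3 : 80 / 19 * nome β ^ 3 ≤ 1 := by
    have : nome β ^ 3 ≤ (457 / 1000) ^ 3 := pow_le_pow_left₀ hq0.le hq 3
    norm_num at this ⊢
    linarith
  have hss : 28 / 5 * (b ^ 2 - a ^ 2) ≤ Real.sin (π * (a + b)) * Real.sin (π * (b - a)) := by
    have := mul_le_mul s1 s2 (by linarith) s10
    nlinarith
  have h3 : (1 - 80 / 19 * nome β ^ 3) * (4 * nome β * (28 / 5 * (b ^ 2 - a ^ 2))) ≤
      (gth β a - gth β b) / √(π / β) := by
    have h4 : (1 - 80 / 19 * nome β ^ 3) * (4 * nome β * (28 / 5 * (b ^ 2 - a ^ 2))) ≤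
        (1 - 80 / 19 * nome β ^ 3) *
          (4 * nome β * (Real.sin (π * (a + b)) * Real.sin (π * (b - a)))) :=
      mul_le_mul_of_nonneg_left (mul_le_mul_of_nonneg_left hss (by positivity)) (by linarith)
    linarith
  have h5 := mul_le_mul_of_nonneg_right h3 hs.le
  rw [div_mul_cancel₀ _ hs.ne'] at h5
  linarith

/-- the global bound, spread case -/
theorem gthC_lip {β : ℝ} (hβ : 0 < β) (hq : nome β ≤ 457 / 1000) (a b : ℝ) :
    |gth β a - gth β b| ≤
      (1 + 80 / 19 * nome β ^ 3) * (4 * nome β * √(π / β) * π ^ 2) * |a ^ 2 - b ^ 2| := by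
  have h := gth_cos_main hβ hq a b
  have hq0 := nome_pos β
  have hs : 0 < √(π / β) := Real.sqrt_pos.mpr (by positivity)
  have hπ := Real.pi_pos
  have s1 : |Real.sin (π * (a + b))| ≤ π * |a + b| := by
    have := Real.abs_sin_le_abs (x := π * (a + b))
    rwa [abs_mul, abs_of_pos hπ] at this
  have s2 : |Real.sin (π * (b - a))| ≤ π * |b - a| := by
    have := Real.abs_sin_le_abs (x := π * (b - a))
    rwa [abs_mul, abs_of_pos hπ] at this
  have hss : |Real.sin (π * (a + b))| * |Real.sin (π * (b - a))| ≤ π ^ 2 * |a ^ 2 - b ^ 2| := by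
    have h1 := mul_le_mul s1 s2 (abs_nonneg _) (by positivity)
    have e : |a ^ 2 - b ^ 2| = |a + b| * |b - a| := by
      rw [← abs_mul, ← abs_neg (a ^ 2 - b ^ 2)]; congr 1; ring
    rw [e]
    linarith
  have h1 : |(gth β a - gth β b) / √(π / β)| ≤
      (1 + 80 / 19 * nome β ^ 3) * (4 * nome β * (|Real.sin (π * (a + b))| *
        |Real.sin (π * (b - a))|)) := by
    have h2 := abs_sub_abs_le_abs_sub ((gth β a - gth β b) / √(π / β))
      (4 * nome β * (Real.sin (π * (a + b)) * Real.sin (π * (b - a))))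
    have h3 : |4 * nome β * (Real.sin (π * (a + b)) * Real.sin (π * (b - a)))| =
        4 * nome β * (|Real.sin (π * (a + b))| * |Real.sin (π * (b - a))|) := by
      rw [abs_mul (4 * nome β), abs_mul (Real.sin (π * (a + b))),
        abs_of_pos (by positivity : (0 : ℝ) < 4 * nome β)]
    rw [h3] at h2
    linarith
  rw [abs_div, abs_of_pos hs, div_le_iff₀ hs] at h1
  refine h1.trans ?_
  calc (1 + 80 / 19 * nome β ^ 3) * (4 * nome β * (|Real.sin (π * (a + b))| *
        |Real.sin (π * (b - a))|)) * √(π / β)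
      ≤ (1 + 80 / 19 * nome β ^ 3) * (4 * nome β * (π ^ 2 * |a ^ 2 - b ^ 2|)) * √(π / β) := by
        gcongr
    _ = _ := by ring

/-- the data of the comparison -/
structure GD (β c K : ℝ) : Prop where
  pos : 0 < c
  quad : ∀ a b : ℝ, 0 ≤ a → a ≤ b → b ≤ 1 / 4 → c * (b ^ 2 - a ^ 2) ≤ gth β a - gth β b
  lip : ∀ a b : ℝ, |gth β a - gth β b| ≤ K * c * |a ^ 2 - b ^ 2|

theorem nome_le_of {β : ℝ} (hβ : 0 < β) (h : β ≤ 4 * π) : nome β ≤ 457 / 1000 := by
  have hπ := Real.pi_pos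
  have hπ2 := Real.pi_gt_d4
  have h1 : 785 / 1000 ≤ π ^ 2 / β := by
    rw [le_div_iff₀ hβ]
    nlinarith
  have h2 : nome β ≤ Real.exp (-(785 / 1000)) := by
    unfold nome
    exact Real.exp_le_exp.mpr (by linarith)
  refine h2.trans ?_
  rw [Real.exp_neg, ← one_div]
  have h3 := Real.sum_le_exp_of_nonneg (x := (785 / 1000 : ℝ)) (by norm_num) 6
  have h4 : (1000 / 457 : ℝ) ≤ Real.exp (785 / 1000) := by
    refine le_trans ?_ h3
    simp [Finset.sum_range_succ, Nat.factorial]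
    norm_num
  calc 1 / Real.exp (785 / 1000) ≤ 1 / (1000 / 457) := one_div_le_one_div_of_le (by norm_num) h4
    _ = 457 / 1000 := by norm_num

theorem nome_le_of2 {β : ℝ} (hβ : 0 < β) (h : β ≤ 2 * π) : nome β ≤ 209 / 1000 := by
  have hπ := Real.pi_pos
  have hπ2 := Real.pi_gt_d4
  have h1 : 157 / 100 ≤ π ^ 2 / β := by
    rw [le_div_iff₀ hβ]
    nlinarith
  have h2 : nome β ≤ Real.exp (-(157 / 100)) := by
    unfold nome
    exact Real.exp_le_exp.mpr (by linarith)
  refine h2.trans ?_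
  have e : Real.exp (-(157 / 100)) = Real.exp (-(785 / 1000)) ^ 2 := by
    rw [← Real.exp_nat_mul]; congr 1; norm_num
  rw [e]
  have h3 := Real.sum_le_exp_of_nonneg (x := (785 / 1000 : ℝ)) (by norm_num) 6
  have h4 : (1000 / 457 : ℝ) ≤ Real.exp (785 / 1000) := by
    refine le_trans ?_ h3
    simp [Finset.sum_range_succ, Nat.factorial]
    norm_num
  have h5 : Real.exp (-(785 / 1000)) ≤ 457 / 1000 := by
    rw [Real.exp_neg, ← one_div]
    calc 1 / Real.exp (785 / 1000) ≤ 1 / (1000 / 457) := one_div_le_one_div_of_le (by norm_num) h4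
      _ = 457 / 1000 := by norm_num
  have h6 := pow_le_pow_left₀ (Real.exp_pos _).le h5 2
  refine h6.trans ?_
  norm_num

/-- the spread case -/
theorem gd_spread {β : ℝ} (hβ : 0 < β) {q0 K : ℝ} (hq : nome β ≤ q0) (hq0 : q0 ≤ 457 / 1000)
    (hK : (1 + 80 / 19 * q0 ^ 3) * (986961 / 100000 * 5 / 28) ≤ K * (1 - 80 / 19 * q0 ^ 3))
    (hK0 : 0 ≤ K) : ∃ c, GD β c K := by
  have hn := nome_pos β
  have hs : 0 < √(π / β) := Real.sqrt_pos.mpr (by positivity)
  have hn3 : nome β ^ 3 ≤ q0 ^ 3 := pow_le_pow_left₀ hn.le hq 3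
  have hq3 : q0 ^ 3 ≤ (457 / 1000) ^ 3 := pow_le_pow_left₀ (hn.le.trans hq) hq0 3
  have hlt : 0 < 1 - 80 / 19 * nome β ^ 3 := by
    norm_num at hq3
    linarith
  have hq' := hq.trans hq0
  refine ⟨(1 - 80 / 19 * nome β ^ 3) * (112 / 5 * nome β * √(π / β)), ?_, ?_, ?_⟩
  · positivity
  · intro a b ha hab hb
    exact gthC_quad hβ hq' ha hab hb
  · intro a b
    refine (gthC_lip hβ hq' a b).trans ?_
    refine mul_le_mul_of_nonneg_right ?_ (abs_nonneg _)
    have hπ2 : π ^ 2 ≤ 986961 / 100000 := by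
      have := Real.pi_lt_d6
      have := Real.pi_pos
      nlinarith
    have h1 : (1 + 80 / 19 * nome β ^ 3) * (986961 / 100000 * 5 / 28) ≤
        K * (1 - 80 / 19 * nome β ^ 3) := by nlinarith
    have h2 : 0 < nome β * √(π / β) := by positivity
    have h3 := mul_le_mul_of_nonneg_right h1 (by positivity : 0 ≤ 112 / 5 * (nome β * √(π / β)))
    have h4 : (1 + 80 / 19 * nome β ^ 3) * (4 * nome β * √(π / β) * π ^ 2) ≤
        (1 + 80 / 19 * nome β ^ 3) * (4 * nome β * √(π / β) * (986961 / 100000)) := by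
      gcongr
    nlinarith

/-- the general case -/
theorem gd_all {β : ℝ} (hβ : 0 < β) : ∃ c, GD β c (83 / 20 * Real.exp (β / 16)) := by
  have he : 1 ≤ Real.exp (β / 16) := Real.one_le_exp (by positivity)
  rcases le_total β (4 * π) with h | h
  · obtain ⟨c, hc⟩ := gd_spread hβ (q0 := 457 / 1000) (K := 83 / 20) (nome_le_of hβ h) le_rfl
      (by norm_num) (by norm_num)
    refine ⟨c, hc.pos, hc.quad, fun a b => (hc.lip a b).trans ?_⟩
    refine mul_le_mul_of_nonneg_right (mul_le_mul_of_nonneg_right ?_ hc.pos.le) (abs_nonneg _)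
    linarith
  · refine ⟨7 / 8 * β * Real.exp (-(β / 16)), by positivity, ?_, ?_⟩
    · intro a b ha hab hb
      exact gthA_quad h ha hab hb
    · intro a b
      refine (gthA_lip h a b).trans ?_
      refine mul_le_mul_of_nonneg_right ?_ (abs_nonneg _)
      have e : 83 / 20 * Real.exp (β / 16) * (7 / 8 * β * Real.exp (-(β / 16))) =
          83 / 20 * (7 / 8) * β * (Real.exp (β / 16) * Real.exp (-(β / 16))) := by ring
      rw [e, ← Real.exp_add, add_neg_cancel, Real.exp_zero]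
      linarith

theorem gd_wide {β : ℝ} (hβ : 0 < β) (h : β ≤ 2 * π) : ∃ c, GD β c (48 / 25) :=
  gd_spread hβ (q0 := 209 / 1000) (nome_le_of2 hβ h) (by norm_num) (by norm_num) (by norm_num)

/-- monotonicity for every parameter -/
theorem gth_mono {β : ℝ} (hβ : 0 < β) {a b : ℝ} (ha : 0 ≤ a) (hab : a ≤ b) (hb : b ≤ 1 / 2) :
    gth β b ≤ gth β a := by
  rcases le_total β (4 * π) with h | h
  · exact gthC_mono hβ (nome_le_of hβ h) ha hab hb
  · exact gthA_mono h ha hab hb

end Pool.Agent.Lib.EPH
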