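import Mathlib

/-!
# One-dimensional theta functions, concentrated case

`gth β φ = ∑ m, exp (-β (m - φ)^2)`; here `β ≥ 4π`.
-/

namespace Pool.Agent.Lib.EPH

open Real

/-- the periodised Gaussian -/
noncomputable def gth (β φ : ℝ) : ℝ := ∑' m : ℤ, Real.exp (-(β * ((m : ℝ) - φ) ^ 2))

/-- a symmetric pair of Gaussians -/
noncomputable def tp (β m φ : ℝ) : ℝ :=
  Real.exp (-(β * (m - φ) ^ 2)) + Real.exp (-(β * (m + φ) ^ 2))

theorem tp_eq (β m φ : ℝ) :
    tp β m φ = 2 * Real.exp (-(β * m ^ 2)) * (Real.exp (-(β * φ ^ 2)) * Real.cosh (2 * β * m * φ)) := by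
  unfold tp
  rw [Real.cosh_eq]
  have e1 : Real.exp (-(β * (m - φ) ^ 2)) =
      Real.exp (-(β * m ^ 2)) * Real.exp (-(β * φ ^ 2)) * Real.exp (2 * β * m * φ) := by
    rw [← Real.exp_add, ← Real.exp_add]
    congr 1
    ring
  have e2 : Real.exp (-(β * (m + φ) ^ 2)) =
      Real.exp (-(β * m ^ 2)) * Real.exp (-(β * φ ^ 2)) * Real.exp (-(2 * β * m * φ)) := by
    rw [← Real.exp_add, ← Real.exp_add]
    congr 1
    ring
  rw [e1, e2]
  ring

/-- `x cosh x ≤ (1 + x) sinh x` -/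
theorem mul_cosh_le {x : ℝ} (hx : 0 ≤ x) : x * Real.cosh x ≤ (1 + x) * Real.sinh x := by
  have h1 : x ≤ Real.sinh x := Real.self_le_sinh_iff.mpr hx
  have h2 : x * Real.exp (-x) ≤ x := by
    have : Real.exp (-x) ≤ 1 := Real.exp_le_one_iff.mpr (by linarith)
    nlinarith
  have h3 : Real.cosh x - Real.sinh x = Real.exp (-x) := Real.cosh_sub_sinh x
  nlinarith

/-- `sinh x ≤ x cosh x` -/
theorem sinh_le_mul {x : ℝ} (hx : 0 ≤ x) : Real.sinh x ≤ x * Real.cosh x := by
  have hd : ∀ y : ℝ, HasDerivAt (fun y => y * Real.cosh y - Real.sinh y)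
      (y * Real.sinh y) y := by
    intro y
    have h1 := ((hasDerivAt_id y).mul (Real.hasDerivAt_cosh y)).sub (Real.hasDerivAt_sinh y)
    refine h1.congr_deriv ?_
    simp
  have hm : MonotoneOn (fun y => y * Real.cosh y - Real.sinh y) (Set.Ici 0) := by
    refine monotoneOn_of_deriv_nonneg (convex_Ici 0)
      (fun y _ => (hd y).continuousAt.continuousWithinAt)
      (fun y _ => (hd y).differentiableAt.differentiableWithinAt) fun y hy => ?_
    rw [interior_Ici] at hy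
    rw [(hd y).deriv]
    have hy' : 0 < y := hy
    exact mul_nonneg hy'.le (Real.sinh_nonneg_iff.mpr hy'.le)
  have h := hm (Set.mem_Ici.mpr le_rfl) (Set.mem_Ici.mpr hx) hx
  simp at h
  linarith

/-- the pair is increasing in the distance of its centre of symmetry -/
theorem tp_mono {β m a b : ℝ} (hβ : 0 < β) (hm : 0 < m) (ha : 0 ≤ a) (hab : a ≤ b)
    (hb : 1 / (2 * β * m) + b ≤ m) : tp β m a ≤ tp β m b := by
  have hd : ∀ y : ℝ, HasDerivAt (fun y => Real.exp (-(β * y ^ 2)) * Real.cosh (2 * β * m * y))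
      (Real.exp (-(β * y ^ 2)) * (2 * β * (m * Real.sinh (2 * β * m * y)
        - y * Real.cosh (2 * β * m * y)))) y := by
    intro y
    have h1 : HasDerivAt (fun y : ℝ => -(β * y ^ 2)) (-(β * (2 * y))) y := by
      have := ((hasDerivAt_pow 2 y).const_mul β).neg
      refine this.congr_deriv ?_
      simp
    have h2 : HasDerivAt (fun y : ℝ => 2 * β * m * y) (2 * β * m) y := by
      have := (hasDerivAt_id y).const_mul (2 * β * m)
      refine this.congr_deriv ?_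
      simp
    refine (h1.exp.mul h2.cosh).congr_deriv ?_
    ring
  have hmono : MonotoneOn (fun y => Real.exp (-(β * y ^ 2)) * Real.cosh (2 * β * m * y))
      (Set.Icc 0 b) := by
    refine monotoneOn_of_deriv_nonneg (convex_Icc 0 b)
      (fun y _ => (hd y).continuousAt.continuousWithinAt)
      (fun y _ => (hd y).differentiableAt.differentiableWithinAt) fun y hy => ?_
    rw [interior_Icc] at hy
    rw [(hd y).deriv]
    have hy0 : 0 < y := hy.1
    have hyb : y < b := hy.2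
    refine mul_nonneg (Real.exp_pos _).le (mul_nonneg (by positivity) ?_)
    set x := 2 * β * m * y with hx
    have hx0 : 0 < x := by positivity
    have h1 := mul_cosh_le hx0.le
    have hs : 0 < Real.sinh x := Real.sinh_pos_iff.mpr hx0
    have h2 : y * Real.cosh x = (x * Real.cosh x) / (2 * β * m) := by
      rw [hx]; field_simp
    have h3 : (x * Real.cosh x) / (2 * β * m) ≤ ((1 + x) * Real.sinh x) / (2 * β * m) := by
      gcongr
    have h4 : ((1 + x) * Real.sinh x) / (2 * β * m) = (1 / (2 * β * m) + y) * Real.sinh x := by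
      rw [hx]; field_simp
    have h5 : (1 / (2 * β * m) + y) * Real.sinh x ≤ m * Real.sinh x := by
      refine mul_le_mul_of_nonneg_right ?_ hs.le
      linarith
    linarith
  have h := hmono ⟨ha, hab⟩ ⟨ha.trans hab, le_rfl⟩ hab
  rw [tp_eq, tp_eq]
  exact mul_le_mul_of_nonneg_left h (by positivity)

/-- upper bound for the growth of a pair -/
theorem tp_sub_le {β m a b : ℝ} (hβ : 0 < β) (hm : 0 < m) (ha : 0 ≤ a) (hab : a ≤ b) :
    tp β m b - tp β m a ≤ 4 * β ^ 2 * m ^ 2 * Real.exp (-(β * (m - b) ^ 2)) * (b ^ 2 - a ^ 2) := by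
  have hb : 0 ≤ b := ha.trans hab
  set X := 2 * β * m * b with hX
  set Y := 2 * β * m * a with hY
  have hX0 : 0 ≤ X := by positivity
  have hY0 : 0 ≤ Y := by positivity
  have hYX : Y ≤ X := by rw [hX, hY]; gcongr
  have h1 : Real.cosh X - Real.cosh Y = 2 * (Real.sinh ((X + Y) / 2) * Real.sinh ((X - Y) / 2)) := by
    have e1 : X = (X + Y) / 2 + (X - Y) / 2 := by ring
    have e2 : Y = (X + Y) / 2 - (X - Y) / 2 := by ring
    conv_lhs => rw [e1]
    rw [Real.cosh_add]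
    conv_lhs => rw [e2]
    rw [Real.cosh_sub]
    have e3 : ((X + Y) / 2 - (X - Y) / 2) = Y := by ring
    have e4 : ((X + Y) / 2 + (X - Y) / 2) = X := by ring
    simp only [e3, e4]
    ring
  have h2 : Real.sinh ((X + Y) / 2) * Real.sinh ((X - Y) / 2) ≤
      ((X + Y) / 2 * Real.cosh ((X + Y) / 2)) * ((X - Y) / 2 * Real.cosh ((X - Y) / 2)) := by
    refine mul_le_mul (sinh_le_mul (by linarith)) (sinh_le_mul (by linarith))
      (Real.sinh_nonneg_iff.mpr (by linarith)) ?_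
    have := Real.cosh_pos ((X + Y) / 2)
    positivity
  have h3 : Real.cosh ((X + Y) / 2) * Real.cosh ((X - Y) / 2) = (Real.cosh X + Real.cosh Y) / 2 := by
    have e1 : Real.cosh X = Real.cosh ((X + Y) / 2) * Real.cosh ((X - Y) / 2)
        + Real.sinh ((X + Y) / 2) * Real.sinh ((X - Y) / 2) := by
      rw [← Real.cosh_add]; congr 1; ring
    have e2 : Real.cosh Y = Real.cosh ((X + Y) / 2) * Real.cosh ((X - Y) / 2)
        - Real.sinh ((X + Y) / 2) * Real.sinh ((X - Y) / 2) := by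
      rw [← Real.cosh_sub]; congr 1; ring
    rw [e1, e2]; ring
  have h4 : Real.cosh Y ≤ Real.cosh X := by
    rw [Real.cosh_le_cosh, abs_of_nonneg hY0, abs_of_nonneg hX0]; exact hYX
  have h5 : Real.cosh X - Real.cosh Y ≤ (X ^ 2 - Y ^ 2) / 2 * Real.cosh X := by
    have hXY : 0 ≤ X ^ 2 - Y ^ 2 := by nlinarith
    calc Real.cosh X - Real.cosh Y
        = 2 * (Real.sinh ((X + Y) / 2) * Real.sinh ((X - Y) / 2)) := h1
      _ ≤ 2 * (((X + Y) / 2 * Real.cosh ((X + Y) / 2)) * ((X - Y) / 2 * Real.cosh ((X - Y) / 2))) := by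
          linarith
      _ = (X ^ 2 - Y ^ 2) / 2 * (Real.cosh ((X + Y) / 2) * Real.cosh ((X - Y) / 2)) := by ring
      _ = (X ^ 2 - Y ^ 2) / 2 * ((Real.cosh X + Real.cosh Y) / 2) := by rw [h3]
      _ ≤ (X ^ 2 - Y ^ 2) / 2 * Real.cosh X := by
          refine mul_le_mul_of_nonneg_left ?_ (by linarith)
          linarith
  have h6 : Real.exp (-(β * b ^ 2)) ≤ Real.exp (-(β * a ^ 2)) := by
    refine Real.exp_le_exp.mpr ?_
    have : a ^ 2 ≤ b ^ 2 := by nlinarith
    nlinarith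
  have h7 : Real.exp (-(β * b ^ 2)) * Real.cosh X - Real.exp (-(β * a ^ 2)) * Real.cosh Y ≤
      Real.exp (-(β * b ^ 2)) * ((X ^ 2 - Y ^ 2) / 2 * Real.cosh X) := by
    have hc := Real.cosh_pos Y
    have h8 := mul_le_mul_of_nonneg_left h5 (Real.exp_pos (-(β * b ^ 2))).le
    nlinarith
  have h9 : Real.cosh X ≤ Real.exp X := by
    rw [Real.cosh_eq]
    have : Real.exp (-X) ≤ Real.exp X := Real.exp_le_exp.mpr (by linarith)
    linarith
  rw [tp_eq, tp_eq]
  have h10 : Real.exp (-(β * (m - b) ^ 2)) =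
      Real.exp (-(β * m ^ 2)) * Real.exp (-(β * b ^ 2)) * Real.exp X := by
    rw [← Real.exp_add, ← Real.exp_add, hX]
    congr 1
    ring
  have h11 : X ^ 2 - Y ^ 2 = 4 * β ^ 2 * m ^ 2 * (b ^ 2 - a ^ 2) := by
    rw [hX, hY]; ring
  have hba : 0 ≤ b ^ 2 - a ^ 2 := by nlinarith
  have e1 := Real.exp_pos (-(β * m ^ 2))
  have e2 := Real.exp_pos (-(β * b ^ 2))
  calc 2 * Real.exp (-(β * m ^ 2)) * (Real.exp (-(β * b ^ 2)) * Real.cosh X) -
        2 * Real.exp (-(β * m ^ 2)) * (Real.exp (-(β * a ^ 2)) * Real.cosh Y)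
      = 2 * Real.exp (-(β * m ^ 2)) *
        (Real.exp (-(β * b ^ 2)) * Real.cosh X - Real.exp (-(β * a ^ 2)) * Real.cosh Y) := by ring
    _ ≤ 2 * Real.exp (-(β * m ^ 2)) *
        (Real.exp (-(β * b ^ 2)) * ((X ^ 2 - Y ^ 2) / 2 * Real.cosh X)) :=
        mul_le_mul_of_nonneg_left h7 (by positivity)
    _ = (Real.exp (-(β * m ^ 2)) * Real.exp (-(β * b ^ 2)) * (X ^ 2 - Y ^ 2)) * Real.cosh X := by ring
    _ ≤ (Real.exp (-(β * m ^ 2)) * Real.exp (-(β * b ^ 2)) * (X ^ 2 - Y ^ 2)) * Real.exp X := by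
        refine mul_le_mul_of_nonneg_left h9 ?_
        rw [h11]
        positivity
    _ = 4 * β ^ 2 * m ^ 2 * Real.exp (-(β * (m - b) ^ 2)) * (b ^ 2 - a ^ 2) := by
        rw [h10, h11]; ring

/-- the central Gaussian -/
theorem gau_sub_ge {β a b : ℝ} (hβ : 0 < β) (ha : 0 ≤ a) (hab : a ≤ b) :
    β * Real.exp (-(β * b ^ 2)) * (b ^ 2 - a ^ 2) ≤
      Real.exp (-(β * a ^ 2)) - Real.exp (-(β * b ^ 2)) := by
  have h1 : Real.exp (-(β * a ^ 2)) = Real.exp (-(β * b ^ 2)) * Real.exp (β * (b ^ 2 - a ^ 2)) := by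
    rw [← Real.exp_add]; congr 1; ring
  have h2 := Real.add_one_le_exp (β * (b ^ 2 - a ^ 2))
  have h3 := mul_le_mul_of_nonneg_left h2 (Real.exp_pos (-(β * b ^ 2))).le
  rw [h1]
  linarith

theorem gau_sub_le {β a b : ℝ} (hβ : 0 < β) (ha : 0 ≤ a) (hab : a ≤ b) :
    Real.exp (-(β * a ^ 2)) - Real.exp (-(β * b ^ 2)) ≤ β * (b ^ 2 - a ^ 2) := by
  have h1 : Real.exp (-(β * b ^ 2)) = Real.exp (-(β * a ^ 2)) * Real.exp (-(β * (b ^ 2 - a ^ 2))) := by
    rw [← Real.exp_add]; congr 1; ring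
  have h2 := Real.add_one_le_exp (-(β * (b ^ 2 - a ^ 2)))
  have h3 := mul_le_mul_of_nonneg_left h2 (Real.exp_pos (-(β * a ^ 2))).le
  have h4 : Real.exp (-(β * a ^ 2)) ≤ 1 := Real.exp_le_one_iff.mpr (by
    have : 0 ≤ β * a ^ 2 := by positivity
    linarith)
  have h5 : 0 ≤ β * (b ^ 2 - a ^ 2) := mul_nonneg hβ.le (by nlinarith)
  rw [h1]
  nlinarith

end Pool.Agent.Lib.EPH
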