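import Pool.Agent.Lib.EPH.GthA

/-!
# One-dimensional theta functions: sums, periodicity, concentrated case
-/

namespace Pool.Agent.Lib.EPH

open Real

theorem summable_pow_gth {β : ℝ} (hβ : 0 < β) (φ : ℝ) (k : ℕ) :
    Summable fun m : ℤ => |(m : ℝ)| ^ k * Real.exp (-(β * ((m : ℝ) - φ) ^ 2)) := by
  have h := summable_pow_mul_jacobiTheta₂_term_bound (β * |φ| / π) (T := β / π) (by positivity) k
  refine Summable.of_nonneg_of_le (fun m => by positivity) (fun m => ?_) h
  have h0 : (|m| : ℤ) = |m| := rfl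
  push_cast
  refine mul_le_mul_of_nonneg_left (Real.exp_le_exp.mpr ?_) (by positivity)
  have e1 : -π * (β / π * (m : ℝ) ^ 2 - 2 * (β * |φ| / π) * |(m : ℝ)|)
      = -(β * (m : ℝ) ^ 2) + 2 * β * (|φ| * |(m : ℝ)|) := by
    have hπ : π ≠ 0 := Real.pi_ne_zero
    have e2 : -π * (β / π * (m : ℝ) ^ 2 - 2 * (β * |φ| / π) * |(m : ℝ)|)
      = (π / π) * (-(β * (m : ℝ) ^ 2) + 2 * β * (|φ| * |(m : ℝ)|)) := by ring
    rw [e2, div_self hπ, one_mul]
  rw [e1]
  have h2 : (m : ℝ) * φ ≤ |φ| * |(m : ℝ)| := by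
    rw [← abs_mul, mul_comm φ]; exact le_abs_self _
  have h3 : 0 ≤ β * φ ^ 2 := by positivity
  have h4 := mul_le_mul_of_nonneg_left h2 (by positivity : (0 : ℝ) ≤ 2 * β)
  nlinarith

theorem summable_gth {β : ℝ} (hβ : 0 < β) (φ : ℝ) :
    Summable fun m : ℤ => Real.exp (-(β * ((m : ℝ) - φ) ^ 2)) := by
  simpa using summable_pow_gth hβ φ 0

theorem gth_neg (β φ : ℝ) : gth β (-φ) = gth β φ := by
  unfold gth
  rw [← (Equiv.neg ℤ).tsum_eq fun m : ℤ => Real.exp (-(β * ((m : ℝ) - φ) ^ 2))]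
  refine tsum_congr fun m => ?_
  simp only [Equiv.neg_apply]
  push_cast
  congr 2
  ring

theorem gth_add (β φ : ℝ) (n : ℤ) : gth β (φ + n) = gth β φ := by
  unfold gth
  rw [← (Equiv.addRight n).tsum_eq fun m : ℤ => Real.exp (-(β * ((m : ℝ) - (φ + n)) ^ 2))]
  refine tsum_congr fun m => ?_
  simp only [Equiv.coe_addRight]
  push_cast
  congr 2
  ring

theorem gth_abs (β φ : ℝ) : gth β |φ| = gth β φ := by
  rcases abs_choice φ with h | h <;> rw [h]
  exact gth_neg β φ

/-- distance to the nearest integer -/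
noncomputable def dz (x : ℝ) : ℝ := |x - round x|

theorem gth_dz (β φ : ℝ) : gth β (dz φ) = gth β φ := by
  unfold dz
  rw [gth_abs]
  have := gth_add β (φ - round φ) (round φ)
  rw [sub_add_cancel] at this
  exact this.symm

theorem dz_nonneg (x : ℝ) : 0 ≤ dz x := abs_nonneg _

theorem dz_le (x : ℝ) : dz x ≤ 1 / 2 := abs_sub_round x

theorem dz_le_abs (x : ℝ) (n : ℤ) : dz x ≤ |x - n| := round_le x n

/-- `dz` is 1-Lipschitz -/
theorem dz_lip (x y : ℝ) : dz x ≤ dz y + |x - y| := by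
  have h1 := dz_le_abs x (round y)
  have h2 : |x - round y| ≤ |x - y| + |y - round y| := by
    have := abs_add_le (x - y) (y - round y)
    have e : x - y + (y - round y) = x - round y := by ring
    rw [e] at this
    exact this
  unfold dz at *
  linarith

theorem dz_neg (x : ℝ) : dz (-x) = dz x := by
  have h1 : dz (-x) ≤ dz x := by
    have := dz_le_abs (-x) (-(round x))
    push_cast at this
    have e : |(-x) - -(round x : ℝ)| = |x - round x| := by
      rw [← abs_neg]; congr 1; ring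
    rw [e] at this
    exact this
  have h2 : dz x ≤ dz (-x) := by
    have := dz_le_abs x (-(round (-x)))
    push_cast at this
    have e : |x - -(round (-x) : ℝ)| = |(-x) - round (-x)| := by
      rw [← abs_neg]; congr 1; ring
    rw [e] at this
    exact this
  exact le_antisymm h1 h2

/-- the key comparison: folding contracts the difference of squares -/
theorem dz_sq (a b : ℝ) : |dz a ^ 2 - dz b ^ 2| ≤ |a ^ 2 - b ^ 2| := by
  have e1 : dz a ^ 2 - dz b ^ 2 = (dz a - dz b) * (dz a + dz b) := by ring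
  have e2 : a ^ 2 - b ^ 2 = (a - b) * (a + b) := by ring
  rw [e1, e2, abs_mul, abs_mul]
  have l1 : |dz a - dz b| ≤ |a - b| := by
    rw [abs_le]
    have h1 := dz_lip a b
    have h2 := dz_lip b a
    rw [abs_sub_comm b a] at h2
    constructor <;> linarith
  have l2 : |dz a - dz b| ≤ |a + b| := by
    rw [abs_le]
    have h1 := dz_lip a (-b)
    have h2 := dz_lip (-b) a
    rw [dz_neg] at h1 h2
    have e3 : |a - -b| = |a + b| := by congr 1; ring
    have e4 : |-b - a| = |a + b| := by rw [← abs_neg]; congr 1; ring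
    rw [e3] at h1
    rw [e4] at h2
    constructor <;> linarith
  have ha : dz a ≤ |a| := by simpa using dz_le_abs a 0
  have hb : dz b ≤ |b| := by simpa using dz_le_abs b 0
  have l3 : |dz a + dz b| ≤ |a| + |b| := by
    rw [abs_of_nonneg (add_nonneg (dz_nonneg a) (dz_nonneg b))]; linarith
  -- |a|+|b| is either |a+b| or |a-b|
  rcases le_total 0 (a * b) with h | h
  · have e : |a| + |b| = |a + b| := by
      rcases le_total 0 a with h1 | h1
      · rcases eq_or_lt_of_le h1 with h2 | h2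
        · rw [← h2]; simp
        · have hb0 : 0 ≤ b := by
            by_contra hc
            push Not at hc
            nlinarith
          rw [abs_of_nonneg h1, abs_of_nonneg hb0, abs_of_nonneg (by linarith)]
      · rcases eq_or_lt_of_le h1 with h2 | h2
        · rw [h2]; simp
        · have hb0 : b ≤ 0 := by
            by_contra hc
            push Not at hc
            nlinarith
          rw [abs_of_nonpos h1, abs_of_nonpos hb0, abs_of_nonpos (by linarith)]
          ring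
    rw [e] at l3
    exact mul_le_mul l1 l3 (abs_nonneg _) (abs_nonneg _)
  · have e : |a| + |b| = |a - b| := by
      rcases le_total 0 a with h1 | h1
      · rcases eq_or_lt_of_le h1 with h2 | h2
        · rw [← h2]; simp
        · have hb0 : b ≤ 0 := by
            by_contra hc
            push Not at hc
            nlinarith
          rw [abs_of_nonneg h1, abs_of_nonpos hb0, abs_of_nonneg (by linarith)]
          ring
      · rcases eq_or_lt_of_le h1 with h2 | h2
        · rw [h2]; simp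
        · have hb0 : 0 ≤ b := by
            by_contra hc
            push Not at hc
            nlinarith
          rw [abs_of_nonpos h1, abs_of_nonneg hb0, abs_of_nonpos (by linarith)]
          ring
    rw [e] at l3
    rw [mul_comm |a - b|]
    exact mul_le_mul l2 l3 (abs_nonneg _) (abs_nonneg _)

/-! ### pairings -/

/-- pairing `m` with `-m` -/
theorem gth_pair0 {β : ℝ} (hβ : 0 < β) (φ : ℝ) :
    HasSum (fun n : ℕ => tp β ((n : ℝ) + 1) φ) (gth β φ - Real.exp (-(β * φ ^ 2))) := by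
  have h := (summable_gth hβ φ).hasSum
  have h2 := (hasSum_nat_add_iff' 1).mpr h.nat_add_neg
  have e : (fun n : ℕ => tp β ((n : ℝ) + 1) φ) = fun n : ℕ =>
      Real.exp (-(β * ((((n + 1 : ℕ) : ℤ) : ℝ) - φ) ^ 2)) +
        Real.exp (-(β * (((-(((n + 1 : ℕ) : ℤ)) : ℤ) : ℝ) - φ) ^ 2)) := by
    funext n
    unfold tp
    push_cast
    congr 3
    ring
  rw [e]
  have e2 : gth β φ - Real.exp (-(β * φ ^ 2)) = gth β φ + Real.exp (-(β * (((0 : ℤ) : ℝ) - φ) ^ 2)) -
      ∑ i ∈ Finset.range 1, (Real.exp (-(β * ((((i : ℕ) : ℤ) : ℝ) - φ) ^ 2)) +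
        Real.exp (-(β * (((-((i : ℕ) : ℤ) : ℤ) : ℝ) - φ) ^ 2))) := by
    simp
  rw [e2]
  exact h2

/-- pairing `-k` with `k + 1` -/
theorem gth_pair1 {β : ℝ} (hβ : 0 < β) (φ : ℝ) :
    HasSum (fun n : ℕ => tp β ((n : ℝ) + 1 / 2) (1 / 2 - φ)) (gth β φ) := by
  rw [← gth_neg]
  have h := (summable_gth hβ (-φ)).hasSum.nat_add_neg_add_one
  have e : (fun n : ℕ => tp β ((n : ℝ) + 1 / 2) (1 / 2 - φ)) = fun n : ℕ =>
      Real.exp (-(β * (((n : ℤ) : ℝ) - -φ) ^ 2)) +
        Real.exp (-(β * (((-((n : ℤ) + 1) : ℤ) : ℝ) - -φ) ^ 2)) := by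
    funext n
    unfold tp
    push_cast
    congr 3 <;> ring
  rw [e]
  exact h

/-! ### the concentrated case `β ≥ 4π` -/

theorem exp_big {x : ℝ} (hx : 628 / 100 ≤ x) : 647 / 10 * x ≤ Real.exp x := by
  have h1 : (2.718 : ℝ) ^ 6 ≤ Real.exp 6 := by
    have h := Real.exp_one_gt_d9
    have : Real.exp 6 = Real.exp 1 ^ 6 := by
      rw [← Real.exp_nat_mul]; norm_num
    rw [this]
    exact pow_le_pow_left₀ (by norm_num) (by linarith) 6
  have h2 : 1 + (28 / 100 : ℝ) ≤ Real.exp (28 / 100) := by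
    have := Real.add_one_le_exp (28 / 100 : ℝ)
    linarith
  have h3 : Real.exp x = Real.exp 6 * Real.exp (28 / 100) * Real.exp (x - 628 / 100) := by
    rw [← Real.exp_add, ← Real.exp_add]; congr 1; ring
  have h4 := Real.add_one_le_exp (x - 628 / 100)
  have h5 : (500 : ℝ) ≤ Real.exp 6 * Real.exp (28 / 100) := by
    have h6 : (2.718 : ℝ) ^ 6 * (1 + 28 / 100) ≤ Real.exp 6 * Real.exp (28 / 100) :=
      mul_le_mul h1 h2 (by norm_num) (Real.exp_pos _).le
    norm_num at h6 ⊢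
    linarith
  rw [h3]
  have h7 : (500 : ℝ) * (x - 628 / 100 + 1) ≤
      Real.exp 6 * Real.exp (28 / 100) * Real.exp (x - 628 / 100) :=
    mul_le_mul h5 h4 (by linarith) (by positivity)
  linarith

theorem four_pi_ge {β : ℝ} (hβ : 4 * π ≤ β) : 1256 / 100 ≤ β := by
  have := Real.pi_gt_d2
  linarith

/-- growth of the outer pairs -/
theorem gthA_tail {β a b : ℝ} (hβ : 4 * π ≤ β) (ha : 0 ≤ a) (hab : a ≤ b) (hb : b ≤ 1 / 4) (n : ℕ) :
    tp β ((n : ℝ) + 1) b - tp β ((n : ℝ) + 1) a ≤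
      (β * Real.exp (-(β / 16)) * (b ^ 2 - a ^ 2)) * (99 / 800 * (1 / 100) ^ n) := by
  have hβ' := four_pi_ge hβ
  have hβ0 : 0 < β := by linarith
  have h1 := tp_sub_le (m := (n : ℝ) + 1) hβ0 (by positivity) ha hab
  refine h1.trans ?_
  have hba : 0 ≤ b ^ 2 - a ^ 2 := by nlinarith
  have key : 4 * β * ((n : ℝ) + 1) ^ 2 * Real.exp (-(β * ((n : ℝ) + 1 - b) ^ 2)) ≤
      Real.exp (-(β / 16)) * (99 / 800 * (1 / 100) ^ n) := by
    -- the exponent
    have h2 : Real.exp (-(β * ((n : ℝ) + 1 - b) ^ 2)) ≤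
        Real.exp (-(β / 16)) * Real.exp (-(β / 2)) * Real.exp (-10) ^ n := by
      rw [← Real.exp_nat_mul, ← Real.exp_add, ← Real.exp_add]
      refine Real.exp_le_exp.mpr ?_
      have hn : (0 : ℝ) ≤ n := Nat.cast_nonneg n
      have h3 : ((n : ℝ) + 3 / 4) ^ 2 ≤ ((n : ℝ) + 1 - b) ^ 2 := by
        refine pow_le_pow_left₀ (by positivity) ?_ 2
        linarith
      have h4 := mul_le_mul_of_nonneg_left h3 hβ0.le
      have h5 : (10 : ℝ) * n ≤ β * (3 / 2 * n) := by nlinarith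
      have h6 : 0 ≤ β * (n : ℝ) ^ 2 := by positivity
      nlinarith
    have h3 : ((n : ℝ) + 1) ^ 2 ≤ 4 ^ n := by
      have : ((n : ℝ) + 1) ≤ 2 ^ n := by
        have h := Nat.lt_two_pow_self (n := n)
        have h' : n + 1 ≤ 2 ^ n := h
        exact_mod_cast h'
      calc ((n : ℝ) + 1) ^ 2 ≤ (2 ^ n) ^ 2 := pow_le_pow_left₀ (by positivity) this 2
        _ = 4 ^ n := by rw [← pow_mul, mul_comm, pow_mul]; norm_num
    have h4 : Real.exp (-10) ≤ 1 / 400 := by
      rw [Real.exp_neg, ← one_div]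
      refine one_div_le_one_div_of_le (by norm_num) ?_
      have h := exp_big (x := 10) (by norm_num)
      linarith
    have h5 : Real.exp (-10) ^ n * 4 ^ n ≤ (1 / 100) ^ n := by
      rw [← mul_pow]
      refine pow_le_pow_left₀ (by positivity) ?_ n
      linarith
    have h6 : 4 * β * Real.exp (-(β / 2)) ≤ 99 / 800 := by
      have h := exp_big (x := β / 2) (by linarith)
      rw [Real.exp_neg]
      have hp := Real.exp_pos (β / 2)
      rw [← div_eq_mul_inv, div_le_iff₀ hp]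
      linarith
    calc 4 * β * ((n : ℝ) + 1) ^ 2 * Real.exp (-(β * ((n : ℝ) + 1 - b) ^ 2))
        ≤ 4 * β * 4 ^ n * (Real.exp (-(β / 16)) * Real.exp (-(β / 2)) * Real.exp (-10) ^ n) := by
          gcongr
      _ = Real.exp (-(β / 16)) * ((4 * β * Real.exp (-(β / 2))) * (Real.exp (-10) ^ n * 4 ^ n)) := by
          ring
      _ ≤ Real.exp (-(β / 16)) * ((99 / 800) * (1 / 100) ^ n) := by
          gcongr
  calc 4 * β ^ 2 * ((n : ℝ) + 1) ^ 2 * Real.exp (-(β * ((n : ℝ) + 1 - b) ^ 2)) * (b ^ 2 - a ^ 2)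
      = β * (b ^ 2 - a ^ 2) *
        (4 * β * ((n : ℝ) + 1) ^ 2 * Real.exp (-(β * ((n : ℝ) + 1 - b) ^ 2))) := by ring
    _ ≤ β * (b ^ 2 - a ^ 2) * (Real.exp (-(β / 16)) * (99 / 800 * (1 / 100) ^ n)) :=
        mul_le_mul_of_nonneg_left key (by positivity)
    _ = (β * Real.exp (-(β / 16)) * (b ^ 2 - a ^ 2)) * (99 / 800 * (1 / 100) ^ n) := by ring

/-- quadratic decrease near `0` -/
theorem gthA_quad {β a b : ℝ} (hβ : 4 * π ≤ β) (ha : 0 ≤ a) (hab : a ≤ b) (hb : b ≤ 1 / 4) :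
    7 / 8 * β * Real.exp (-(β / 16)) * (b ^ 2 - a ^ 2) ≤ gth β a - gth β b := by
  have hβ' := four_pi_ge hβ
  have hβ0 : 0 < β := by linarith
  have hba : 0 ≤ b ^ 2 - a ^ 2 := by nlinarith
  have hs := (gth_pair0 hβ0 b).sub (gth_pair0 hβ0 a)
  have hg : HasSum (fun n : ℕ => (β * Real.exp (-(β / 16)) * (b ^ 2 - a ^ 2)) *
      (99 / 800 * (1 / 100 : ℝ) ^ n))
      ((β * Real.exp (-(β / 16)) * (b ^ 2 - a ^ 2)) * (99 / 800 * (1 - 1 / 100)⁻¹)) :=
    ((hasSum_geometric_of_lt_one (by norm_num) (by norm_num)).mul_left _).mul_left _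
  have h1 := hasSum_le (fun n => gthA_tail hβ ha hab hb n) hs hg
  have h2 := gau_sub_ge hβ0 ha hab
  have h3 : Real.exp (-(β / 16)) ≤ Real.exp (-(β * b ^ 2)) := by
    refine Real.exp_le_exp.mpr ?_
    have hb0 : 0 ≤ b := ha.trans hab
    have : b ^ 2 ≤ 1 / 16 := by nlinarith
    nlinarith
  have h4 : β * Real.exp (-(β / 16)) * (b ^ 2 - a ^ 2) ≤
      β * Real.exp (-(β * b ^ 2)) * (b ^ 2 - a ^ 2) := by gcongr
  have h5 : (99 / 800 * (1 - 1 / 100)⁻¹ : ℝ) = 1 / 8 := by norm_num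
  rw [h5] at h1
  linarith

/-- monotonicity up to `1/2` -/
theorem gthA_anti {β a b : ℝ} (hβ : 4 * π ≤ β) (ha : 1 / 5 ≤ a) (hab : a ≤ b) (hb : b ≤ 1 / 2) :
    gth β b ≤ gth β a := by
  have hβ' := four_pi_ge hβ
  have hβ0 : 0 < β := by linarith
  refine hasSum_le (fun n => ?_) (gth_pair1 hβ0 b) (gth_pair1 hβ0 a)
  refine tp_mono hβ0 (by positivity) (by linarith) (by linarith) ?_
  have hn : (0 : ℝ) ≤ n := Nat.cast_nonneg n
  have h1 : 1 / (2 * β * ((n : ℝ) + 1 / 2)) ≤ 1 / 5 := by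
    refine one_div_le_one_div_of_le (by norm_num) ?_
    nlinarith
  linarith

/-- monotonicity on `[0, 1/2]` -/
theorem gthA_mono {β a b : ℝ} (hβ : 4 * π ≤ β) (ha : 0 ≤ a) (hab : a ≤ b) (hb : b ≤ 1 / 2) :
    gth β b ≤ gth β a := by
  have hβ' := four_pi_ge hβ
  have hq : ∀ a b : ℝ, 0 ≤ a → a ≤ b → b ≤ 1 / 4 → gth β b ≤ gth β a := by
    intro a b ha hab hb
    have h := gthA_quad hβ ha hab hb
    have h2 : 0 ≤ 7 / 8 * β * Real.exp (-(β / 16)) * (b ^ 2 - a ^ 2) := by
      have : 0 ≤ b ^ 2 - a ^ 2 := by nlinarith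
      positivity
    linarith
  rcases le_total b (1 / 4) with h | h
  · exact hq a b ha hab h
  · rcases le_total (1 / 5) a with h' | h'
    · exact gthA_anti hβ h' hab hb
    · exact (gthA_anti hβ (a := 1 / 4) (by norm_num) h hb).trans
        (hq a (1 / 4) ha (by linarith) le_rfl)

/-- the Lipschitz type bound on `[0, 1/2]` -/
theorem gthA_upper {β a b : ℝ} (hβ : 4 * π ≤ β) (ha : 0 ≤ a) (hab : a ≤ b) (hb : b ≤ 1 / 2) :
    gth β a - gth β b ≤ β * (b ^ 2 - a ^ 2) := by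
  have hβ' := four_pi_ge hβ
  have hβ0 : 0 < β := by linarith
  have h1 : gth β a - Real.exp (-(β * a ^ 2)) ≤ gth β b - Real.exp (-(β * b ^ 2)) := by
    refine hasSum_le (fun n => ?_) (gth_pair0 hβ0 a) (gth_pair0 hβ0 b)
    refine tp_mono hβ0 (by positivity) ha hab ?_
    have hn : (0 : ℝ) ≤ n := Nat.cast_nonneg n
    have h1 : 1 / (2 * β * ((n : ℝ) + 1)) ≤ 1 / 5 := by
      refine one_div_le_one_div_of_le (by norm_num) ?_
      nlinarith
    linarith
  have h2 := gau_sub_le hβ0 ha hab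
  linarith

/-- the global bound -/
theorem gthA_lip {β : ℝ} (hβ : 4 * π ≤ β) (a b : ℝ) :
    |gth β a - gth β b| ≤ β * |a ^ 2 - b ^ 2| := by
  have hβ' := four_pi_ge hβ
  have hβ0 : 0 < β := by linarith
  rw [← gth_dz β a, ← gth_dz β b]
  have h1 : |gth β (dz a) - gth β (dz b)| ≤ β * |dz a ^ 2 - dz b ^ 2| := by
    rcases le_total (dz a) (dz b) with h | h
    · have h2 := gthA_mono hβ (dz_nonneg a) h (dz_le b)
      have h3 := gthA_upper hβ (dz_nonneg a) h (dz_le b)
      have h4 : dz a ^ 2 ≤ dz b ^ 2 := pow_le_pow_left₀ (dz_nonneg a) h 2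
      rw [abs_of_nonneg (by linarith), abs_of_nonpos (by linarith)]
      linarith
    · have h2 := gthA_mono hβ (dz_nonneg b) h (dz_le a)
      have h3 := gthA_upper hβ (dz_nonneg b) h (dz_le a)
      have h4 : dz b ^ 2 ≤ dz a ^ 2 := pow_le_pow_left₀ (dz_nonneg b) h 2
      rw [abs_of_nonpos (by linarith), abs_of_nonneg (by linarith)]
      linarith
  exact h1.trans (mul_le_mul_of_nonneg_left (dz_sq a b) hβ0.le)

end Pool.Agent.Lib.EPH
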