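import Pool.Agent.Lib.EPH.GthB

/-!
# One-dimensional theta functions: spread case, cosine series
-/

namespace Pool.Agent.Lib.EPH

open Real

/-- the nome of the dual series -/
noncomputable def nome (β : ℝ) : ℝ := Real.exp (-(π ^ 2 / β))

theorem nome_pos (β : ℝ) : 0 < nome β := Real.exp_pos _

theorem abs_sin_mul_le (n : ℕ) (x : ℝ) : |Real.sin (n * x)| ≤ n * |Real.sin x| := by
  induction n with
  | zero => simp
  | succ n ih =>
    have e : ((n + 1 : ℕ) : ℝ) * x = n * x + x := by push_cast; ring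
    rw [e, Real.sin_add]
    have h1 := abs_add_le (Real.sin (n * x) * Real.cos x) (Real.cos (n * x) * Real.sin x)
    rw [abs_mul, abs_mul] at h1
    have h2 := Real.abs_cos_le_one x
    have h3 := Real.abs_cos_le_one (n * x)
    have h4 : |Real.sin (n * x)| * |Real.cos x| ≤ |Real.sin (n * x)| * 1 :=
      mul_le_mul_of_nonneg_left h2 (abs_nonneg _)
    have h5 : |Real.cos (n * x)| * |Real.sin x| ≤ 1 * |Real.sin x| :=
      mul_le_mul_of_nonneg_right h3 (abs_nonneg _)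
    push_cast
    linarith

/-- the cosine series -/
theorem gth_cos {β : ℝ} (hβ : 0 < β) (φ : ℝ) :
    HasSum (fun n : ℤ => nome β ^ (n.natAbs ^ 2) * Real.cos (2 * π * n * φ))
      (gth β φ / √(π / β)) := by
  have ha : 0 < (((π / β : ℝ) : ℂ)).re := by
    rw [Complex.ofReal_re]; positivity
  have h := Complex.tsum_exp_neg_quadratic ha (Complex.I * φ)
  have hterm : ∀ n : ℤ, Complex.exp (-π * ((π / β : ℝ) : ℂ) * n ^ 2 + 2 * π * (Complex.I * φ) * n) =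
      ((nome β ^ (n.natAbs ^ 2) : ℝ) : ℂ) * Complex.exp (((2 * π * n * φ : ℝ) : ℂ) * Complex.I) := by
    intro n
    unfold nome
    rw [← Real.exp_nat_mul, Complex.ofReal_exp, ← Complex.exp_add]
    congr 1
    have e1 : ((n.natAbs ^ 2 : ℕ) : ℝ) = (n : ℝ) ^ 2 := by
      rw [← Int.cast_natCast, Int.natCast_pow, Int.natCast_natAbs, sq_abs]
      push_cast; ring
    rw [e1]
    push_cast
    ring
  have hs : Summable fun n : ℤ => nome β ^ (n.natAbs ^ 2) := by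
    have h1 := summable_gth (β := π ^ 2 / β) (by positivity) 0
    refine h1.congr fun n => ?_
    unfold nome
    rw [← Real.exp_nat_mul]
    congr 1
    have e1 : ((n.natAbs ^ 2 : ℕ) : ℝ) = (n : ℝ) ^ 2 := by
      rw [← Int.cast_natCast, Int.natCast_pow, Int.natCast_natAbs, sq_abs]
      push_cast; ring
    rw [e1]
    ring
  have hsum : Summable fun n : ℤ =>
      Complex.exp (-π * ((π / β : ℝ) : ℂ) * n ^ 2 + 2 * π * (Complex.I * φ) * n) := by
    refine Summable.of_norm ?_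
    refine hs.congr fun n => ?_
    rw [hterm, norm_mul, Complex.norm_exp_ofReal_mul_I, mul_one, Complex.norm_real,
      Real.norm_eq_abs, abs_of_nonneg (pow_nonneg (nome_pos β).le _)]
  have hval : ∑' n : ℤ, Complex.exp (-π * ((π / β : ℝ) : ℂ) * n ^ 2 + 2 * π * (Complex.I * φ) * n)
      = ((gth β φ / √(π / β) : ℝ) : ℂ) := by
    rw [h]
    have e2 : (((π / β : ℝ) : ℂ)) ^ (1 / 2 : ℂ) = ((√(π / β) : ℝ) : ℂ) := by
      rw [Real.sqrt_eq_rpow, Complex.ofReal_cpow (by positivity)]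
      norm_num
    rw [e2]
    have e3 : ∀ n : ℤ, Complex.exp (-π / ((π / β : ℝ) : ℂ) * (n + Complex.I * (Complex.I * φ)) ^ 2)
        = ((Real.exp (-(β * ((n : ℝ) - φ) ^ 2)) : ℝ) : ℂ) := by
      intro n
      rw [Complex.ofReal_exp]
      congr 1
      have e4 : (n : ℂ) + Complex.I * (Complex.I * φ) = n - φ := by
        rw [← mul_assoc, Complex.I_mul_I]; ring
      rw [e4]
      push_cast
      have hπ : (π : ℂ) ≠ 0 := Complex.ofReal_ne_zero.mpr Real.pi_ne_zero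
      have hb : (β : ℂ) ≠ 0 := Complex.ofReal_ne_zero.mpr hβ.ne'
      field_simp
    simp only [e3]
    rw [← Complex.ofReal_tsum]
    unfold gth
    push_cast
    ring
  have hc : HasSum (fun n : ℤ =>
      Complex.exp (-π * ((π / β : ℝ) : ℂ) * n ^ 2 + 2 * π * (Complex.I * φ) * n))
      ((gth β φ / √(π / β) : ℝ) : ℂ) := by
    rw [← hval]; exact hsum.hasSum
  have hr := Complex.hasSum_re hc
  rw [Complex.ofReal_re] at hr
  have e5 : (fun n : ℤ => nome β ^ (n.natAbs ^ 2) * Real.cos (2 * π * n * φ)) = fun n : ℤ =>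
      (Complex.exp (-π * ((π / β : ℝ) : ℂ) * n ^ 2 + 2 * π * (Complex.I * φ) * n)).re := by
    funext n
    rw [hterm, Complex.re_ofReal_mul, Complex.exp_ofReal_mul_I_re]
  rw [e5]
  exact hr

/-- the difference of two values -/
theorem gth_cos_sub {β : ℝ} (hβ : 0 < β) (a b : ℝ) :
    HasSum (fun n : ℕ => 4 * nome β ^ ((n + 1) ^ 2) *
      (Real.sin ((n + 1 : ℕ) * (π * (a + b))) * Real.sin ((n + 1 : ℕ) * (π * (b - a)))))
      ((gth β a - gth β b) / √(π / β)) := by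
  have h := (gth_cos hβ a).sub (gth_cos hβ b)
  have h2 := (hasSum_nat_add_iff' 1).mpr h.nat_add_neg
  have e : (fun n : ℕ => 4 * nome β ^ ((n + 1) ^ 2) *
      (Real.sin ((n + 1 : ℕ) * (π * (a + b))) * Real.sin ((n + 1 : ℕ) * (π * (b - a))))) =
      fun n : ℕ => (nome β ^ ((((n + 1 : ℕ) : ℤ)).natAbs ^ 2) * Real.cos (2 * π * (((n + 1 : ℕ) : ℤ) : ℝ) * a)
        - nome β ^ ((((n + 1 : ℕ) : ℤ)).natAbs ^ 2) * Real.cos (2 * π * (((n + 1 : ℕ) : ℤ) : ℝ) * b)) +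
        (nome β ^ ((-((n + 1 : ℕ) : ℤ)).natAbs ^ 2) * Real.cos (2 * π * ((-((n + 1 : ℕ) : ℤ) : ℤ) : ℝ) * a)
        - nome β ^ ((-((n + 1 : ℕ) : ℤ)).natAbs ^ 2) * Real.cos (2 * π * ((-((n + 1 : ℕ) : ℤ) : ℤ) : ℝ) * b)) := by
    funext n
    have e1 : (((n + 1 : ℕ) : ℤ)).natAbs = n + 1 := Int.natAbs_natCast _
    have e2 : (-((n + 1 : ℕ) : ℤ)).natAbs = n + 1 := by rw [Int.natAbs_neg]; exact e1
    rw [e1, e2]
    have e3 : Real.cos (2 * π * ((-((n + 1 : ℕ) : ℤ) : ℤ) : ℝ) * a) =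
        Real.cos (2 * π * (((n + 1 : ℕ) : ℤ) : ℝ) * a) := by
      rw [← Real.cos_neg]; congr 1; push_cast; ring
    have e4 : Real.cos (2 * π * ((-((n + 1 : ℕ) : ℤ) : ℤ) : ℝ) * b) =
        Real.cos (2 * π * (((n + 1 : ℕ) : ℤ) : ℝ) * b) := by
      rw [← Real.cos_neg]; congr 1; push_cast; ring
    rw [e3, e4]
    have e5 : Real.cos (2 * π * (((n + 1 : ℕ) : ℤ) : ℝ) * a) =
        Real.cos ((n + 1 : ℕ) * (π * (a + b))) * Real.cos ((n + 1 : ℕ) * (π * (b - a))) +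
        Real.sin ((n + 1 : ℕ) * (π * (a + b))) * Real.sin ((n + 1 : ℕ) * (π * (b - a))) := by
      rw [← Real.cos_sub]; congr 1; push_cast; ring
    have e6 : Real.cos (2 * π * (((n + 1 : ℕ) : ℤ) : ℝ) * b) =
        Real.cos ((n + 1 : ℕ) * (π * (a + b))) * Real.cos ((n + 1 : ℕ) * (π * (b - a))) -
        Real.sin ((n + 1 : ℕ) * (π * (a + b))) * Real.sin ((n + 1 : ℕ) * (π * (b - a))) := by
      rw [← Real.cos_add]; congr 1; push_cast; ring
    rw [e5, e6]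
    ring
  rw [e]
  have e7 : (gth β a - gth β b) / √(π / β) = (gth β a / √(π / β) - gth β b / √(π / β)) +
      (nome β ^ ((0 : ℤ).natAbs ^ 2) * Real.cos (2 * π * ((0 : ℤ) : ℝ) * a) -
        nome β ^ ((0 : ℤ).natAbs ^ 2) * Real.cos (2 * π * ((0 : ℤ) : ℝ) * b)) -
      ∑ n ∈ Finset.range 1, ((nome β ^ ((((n : ℕ) : ℤ)).natAbs ^ 2) * Real.cos (2 * π * (((n : ℕ) : ℤ) : ℝ) * a)
        - nome β ^ ((((n : ℕ) : ℤ)).natAbs ^ 2) * Real.cos (2 * π * (((n : ℕ) : ℤ) : ℝ) * b)) +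
        (nome β ^ ((-((n : ℕ) : ℤ)).natAbs ^ 2) * Real.cos (2 * π * ((-((n : ℕ) : ℤ) : ℤ) : ℝ) * a)
        - nome β ^ ((-((n : ℕ) : ℤ)).natAbs ^ 2) * Real.cos (2 * π * ((-((n : ℕ) : ℤ) : ℤ) : ℝ) * b))) := by
    rw [Finset.sum_range_one]
    simp
    ring
  rw [e7]
  exact h2

/-- bound for the series of squares -/
theorem nome_tail {q : ℝ} (hq : 0 < q) (hq1 : q ≤ 457 / 1000) (n : ℕ) :
    q ^ ((n + 2) ^ 2) * ((n : ℝ) + 2) ^ 2 ≤ (4 * q ^ 4) * (1 / 20) ^ n := by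
  induction n with
  | zero => norm_num; linarith [le_refl (q ^ 4 * 4)]
  | succ n ih =>
    have e1 : (n + 1 + 2) ^ 2 = (n + 2) ^ 2 + (2 * n + 5) := by ring
    rw [e1, pow_add, pow_succ]
    have h1 : q ^ (2 * n + 5) ≤ q ^ 5 :=
      pow_le_pow_of_le_one hq.le (by linarith) (by omega)
    have h2 : q ^ 5 ≤ 1 / 46 := by
      calc q ^ 5 ≤ (457 / 1000) ^ 5 := pow_le_pow_left₀ hq.le hq1 5
        _ ≤ 1 / 46 := by norm_num
    have h3 : (((n + 1 : ℕ) : ℝ) + 2) ^ 2 ≤ 9 / 4 * ((n : ℝ) + 2) ^ 2 := by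
      have hn : (0 : ℝ) ≤ n := Nat.cast_nonneg n
      push_cast
      nlinarith
    calc q ^ (n + 2) ^ 2 * q ^ (2 * n + 5) * (((n + 1 : ℕ) : ℝ) + 2) ^ 2
        ≤ q ^ (n + 2) ^ 2 * (1 / 46) * (9 / 4 * ((n : ℝ) + 2) ^ 2) := by
          gcongr
          exact h1.trans h2
      _ = (q ^ (n + 2) ^ 2 * ((n : ℝ) + 2) ^ 2) * (9 / 184) := by ring
      _ ≤ ((4 * q ^ 4) * (1 / 20) ^ n) * (9 / 184) := by gcongr
      _ ≤ (4 * q ^ 4) * ((1 / 20) ^ n * (1 / 20)) := by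
          have : 0 ≤ 4 * q ^ 4 * (1 / 20) ^ n := by positivity
          nlinarith

/-- the first term dominates -/
theorem gth_cos_main {β : ℝ} (hβ : 0 < β) (hq : nome β ≤ 457 / 1000) (a b : ℝ) :
    |(gth β a - gth β b) / √(π / β) - 4 * nome β * (Real.sin (π * (a + b)) * Real.sin (π * (b - a)))|
      ≤ 4 * nome β * (|Real.sin (π * (a + b))| * |Real.sin (π * (b - a))|) *
        (80 / 19 * nome β ^ 3) := by
  set q := nome β with hqd
  have hq0 : 0 < q := nome_pos β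
  have h := (hasSum_nat_add_iff' 1).mpr (gth_cos_sub hβ a b)
  have e0 : (gth β a - gth β b) / √(π / β) - 4 * q * (Real.sin (π * (a + b)) * Real.sin (π * (b - a)))
      = (gth β a - gth β b) / √(π / β) - ∑ i ∈ Finset.range 1, 4 * nome β ^ ((i + 1) ^ 2) *
      (Real.sin ((i + 1 : ℕ) * (π * (a + b))) * Real.sin ((i + 1 : ℕ) * (π * (b - a)))) := by
    rw [Finset.sum_range_one]
    simp [hqd]
  rw [e0]
  have hg : HasSum (fun n : ℕ => (4 * (|Real.sin (π * (a + b))| * |Real.sin (π * (b - a))|)) *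
      ((4 * q ^ 4) * (1 / 20 : ℝ) ^ n))
      ((4 * (|Real.sin (π * (a + b))| * |Real.sin (π * (b - a))|)) *
        ((4 * q ^ 4) * (1 - 1 / 20)⁻¹)) :=
    ((hasSum_geometric_of_lt_one (by norm_num) (by norm_num)).mul_left _).mul_left _
  have hb : ∀ n : ℕ, |4 * nome β ^ ((n + 1 + 1) ^ 2) *
      (Real.sin ((n + 1 + 1 : ℕ) * (π * (a + b))) * Real.sin ((n + 1 + 1 : ℕ) * (π * (b - a))))| ≤
      (4 * (|Real.sin (π * (a + b))| * |Real.sin (π * (b - a))|)) *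
      ((4 * q ^ 4) * (1 / 20 : ℝ) ^ n) := by
    intro n
    rw [abs_mul, abs_mul, abs_mul]
    have h1 := abs_sin_mul_le (n + 1 + 1) (π * (a + b))
    have h2 := abs_sin_mul_le (n + 1 + 1) (π * (b - a))
    have h3 := nome_tail hq0 hq n
    have h4 : |nome β ^ ((n + 1 + 1) ^ 2)| = q ^ ((n + 2) ^ 2) := by
      rw [abs_of_nonneg (pow_nonneg (nome_pos β).le _)]
    rw [h4, abs_of_nonneg (by norm_num : (0 : ℝ) ≤ 4)]
    calc 4 * q ^ (n + 2) ^ 2 * (|Real.sin ((n + 1 + 1 : ℕ) * (π * (a + b)))| *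
          |Real.sin ((n + 1 + 1 : ℕ) * (π * (b - a)))|)
        ≤ 4 * q ^ (n + 2) ^ 2 * (((n + 1 + 1 : ℕ) * |Real.sin (π * (a + b))|) *
          ((n + 1 + 1 : ℕ) * |Real.sin (π * (b - a))|)) := by gcongr
      _ = (4 * (|Real.sin (π * (a + b))| * |Real.sin (π * (b - a))|)) *
          (q ^ (n + 2) ^ 2 * ((n : ℝ) + 2) ^ 2) := by push_cast; ring
      _ ≤ _ := mul_le_mul_of_nonneg_left h3 (by positivity)
  have h5 := tsum_of_norm_bounded hg (f := fun n : ℕ => 4 * nome β ^ ((n + 1 + 1) ^ 2) *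
      (Real.sin ((n + 1 + 1 : ℕ) * (π * (a + b))) * Real.sin ((n + 1 + 1 : ℕ) * (π * (b - a)))))
      (fun n => by rw [Real.norm_eq_abs]; exact hb n)
  rw [h.tsum_eq, Real.norm_eq_abs] at h5
  refine h5.trans (le_of_eq ?_)
  norm_num
  ring

end Pool.Agent.Lib.EPH
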