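import Pool.Agent.Lib.EPH.Dual2
import Pool.Agent.Lib.EPS.Split
import Pool.Agent.Lib.P34eea4.Mellin

/-!
# The shift lemma

A ternary form whose layers `(e1, e2)` are shifted by a small nonzero vector `δ` against the
orthogonal position is not a local minimum of the Epstein zeta function, for any `s > 3/2`.
-/

open Matrix Filter Topology
open scoped Matrix.Norms.Elementwise

namespace Pool.Agent.Lib.EPH

open Real Pool.Agent.Lib.EpZ

theorem Th_scale {A : ℝ} (hA : 0 < A) (B C h t u v : ℝ) :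
    Th A B C h t u v = Th 1 (B / A) (C / A) (h / A) (t * A) u v := by
  unfold Th
  refine tsum_congr fun p => ?_
  congr 1
  unfold q2
  field_simp

/-- the theta comparison, general layers -/
theorem Th_lt {A B C h t u v : ℝ} (hA : 0 < A) (hB : 2 * |B| ≤ A) (hC : A ≤ C) (hC5 : C ≤ 5 * A)
    (hh : 2 * A ≤ 5 * h) (ht : 0 < t) (hq0 : 0 < q2 A B C u v) {l1 l2 : ℝ} (hl : 0 ≤ l1)
    (hl12 : l1 < l2) (hq : 25 * (l2 ^ 2 * q2 A B C u v) ≤ A) :
    Th A B C h t (l2 * u) (l2 * v) < Th A B C h t (l1 * u) (l1 * v) := by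
  have e : q2 1 (B / A) (C / A) u v = q2 A B C u v / A := by
    unfold q2; field_simp
  rw [Th_scale hA, Th_scale hA]
  refine theta_lt ?_ ?_ ?_ ?_ (by positivity) ?_ hl hl12 ?_
  · rw [abs_div, abs_of_pos hA, div_le_iff₀ hA]; linarith
  · rw [le_div_iff₀ hA]; linarith
  · rw [div_le_iff₀ hA]; linarith
  · rw [le_div_iff₀ hA]; linarith
  · rw [e]; positivity
  · rw [e, ← mul_div_assoc, div_le_iff₀ hA]; linarith

theorem disc_pos' {A B C : ℝ} (hA : 0 < A) (hB : 2 * |B| ≤ A) (hC : A ≤ C) :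
    0 < A * C - B ^ 2 := by
  have h1 : B ^ 2 = |B| ^ 2 := (sq_abs B).symm
  have h2 := abs_nonneg B
  nlinarith

/-- the energy comparison -/
theorem En_lt {A B C h u v s : ℝ} (hA : 0 < A) (hB : 2 * |B| ≤ A) (hC : A ≤ C) (hC5 : C ≤ 5 * A)
    (hh : 2 * A ≤ 5 * h) (hs : 3 / 2 < s) (hq0 : 0 < q2 A B C u v) {l1 l2 : ℝ} (hl : 0 ≤ l1)
    (hl12 : l1 < l2) (hq : 25 * (l2 ^ 2 * q2 A B C u v) ≤ A) :
    En s (sform A B C h (l2 * u) (l2 * v)) < En s (sform A B C h (l1 * u) (l1 * v)) := by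
  have hD := disc_pos' hA hB hC
  have hh0 : 0 < h := by linarith
  have p1 := sform_pd hA hD hh0 (l1 * u) (l1 * v)
  have p2 := sform_pd hA hD hh0 (l2 * u) (l2 * v)
  have hF : F s (sform A B C h (l2 * u) (l2 * v)) < F s (sform A B C h (l1 * u) (l1 * v)) := by
    have hth : ∀ Q : Mx 3, PD Q → ∀ t : ℝ, 0 < t →
        ∑' x : Fin 3 → ℤ, Real.exp (-(t * qf Q x)) =
          1 + ∑' x : NZ 3, Real.exp (-(qf Q x.1 * t)) := by
      intro Q hQ t ht
      rw [EPS.tsum_nz (EPS.summable_theta hQ ht), EPS.qf_zero]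
      simp only [mul_zero, neg_zero, Real.exp_zero]
      congr 1
      exact tsum_congr fun x => by rw [mul_comm]
    have hsm : ∀ Q : Mx 3, PD Q → ∀ t : ℝ, 0 < t →
        Summable fun x : NZ 3 => Real.exp (-(qf Q x.1 * t)) := by
      intro Q hQ t ht
      have := (EPS.summable_theta hQ ht).comp_injective (i := fun x : NZ 3 => x.1)
        Subtype.val_injective
      refine this.congr fun x => ?_
      simp only [Function.comp]
      rw [mul_comm]
    have hz : ∀ Q : Mx 3, PD Q → Summable fun x : NZ 3 => (1 / qf Q x.1) ^ s := by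
      intro Q hQ
      refine (hQ.summable (s := s) (by norm_num; exact hs)).congr fun x => ?_
      rw [one_div, Real.inv_rpow (hQ.pos x).le, Real.rpow_neg (hQ.pos x).le]
    have h := P34eea4.mellin_lt (f := fun x : NZ 3 => qf (sform A B C h (l2 * u) (l2 * v)) x.1)
      (g := fun x : NZ 3 => qf (sform A B C h (l1 * u) (l1 * v)) x.1)
      (fun x => p2.pos x) (fun x => p1.pos x) (by linarith) (hz _ p2) (hz _ p1)
      (hsm _ p2) (hsm _ p1) (fun t ht => by
        have h1 := hth _ p2 t ht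
        have h2 := hth _ p1 t ht
        rw [Th_eq] at h1 h2
        have h3 := Th_lt hA hB hC hC5 hh ht hq0 hl hl12 hq
        linarith)
    unfold F
    have e1 : ∀ Q : Mx 3, PD Q → ∑' x : NZ 3, qf Q x.1 ^ (-s) = ∑' x : NZ 3, (1 / qf Q x.1) ^ s := by
      intro Q hQ
      refine tsum_congr fun x => ?_
      rw [one_div, Real.inv_rpow (hQ.pos x).le, Real.rpow_neg (hQ.pos x).le]
    rw [e1 _ p2, e1 _ p1]
    exact h
  unfold En
  rw [det_sform, det_sform]
  refine mul_lt_mul_of_pos_right hF ?_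
  have : 0 < (A * C - B ^ 2) * h := by positivity
  positivity

theorem sform_cont (A B C h u v : ℝ) : Continuous fun l : ℝ => sform A B C h (l * u) (l * v) := by
  refine continuous_matrix fun i j => ?_
  fin_cases i <;> fin_cases j <;> simp [sform] <;> fun_prop

/-- THE SHIFT LEMMA in coordinates -/
theorem sform_notMin {A B C h u v s : ℝ} (hA : 0 < A) (hB : 2 * |B| ≤ A) (hC : A ≤ C)
    (hC5 : C ≤ 5 * A) (hh : 2 * A ≤ 5 * h) (hs : 3 / 2 < s) (hq0 : 0 < q2 A B C u v)
    (hq : 25 * q2 A B C u v < A) : ¬ LocMin s (sform A B C h u v) := by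
  rintro ⟨ε, hε, hmin⟩
  have hD := disc_pos' hA hB hC
  have hh0 : 0 < h := by linarith
  have hc : Continuous fun l : ℝ => ‖sform A B C h (l * u) (l * v) - sform A B C h u v‖ :=
    ((sform_cont A B C h u v).sub continuous_const).norm
  have h1 : Tendsto (fun l : ℝ => ‖sform A B C h (l * u) (l * v) - sform A B C h u v‖)
      (𝓝 1) (𝓝 0) := by
    have := hc.tendsto 1
    simpa using this
  have h2 : ∀ᶠ l : ℝ in 𝓝 1, ‖sform A B C h (l * u) (l * v) - sform A B C h u v‖ < ε :=
    h1.eventually (gt_mem_nhds hε)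
  have h3 : ∀ᶠ l : ℝ in 𝓝 1, 25 * (l ^ 2 * q2 A B C u v) < A := by
    have hcont : Continuous fun l : ℝ => 25 * (l ^ 2 * q2 A B C u v) := by fun_prop
    have := hcont.tendsto 1
    simp only [one_pow, one_mul] at this
    exact this.eventually (gt_mem_nhds hq)
  have h4 : ∀ᶠ l : ℝ in 𝓝[>] 1, ‖sform A B C h (l * u) (l * v) - sform A B C h u v‖ < ε ∧
      25 * (l ^ 2 * q2 A B C u v) < A := (h2.and h3).filter_mono nhdsWithin_le_nhds
  obtain ⟨l, ⟨hl1, hl2⟩, hl3⟩ := (h4.and self_mem_nhdsWithin).exists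
  have hl : 1 < l := hl3
  have h5 := hmin _ (sform_pd hA hD hh0 (l * u) (l * v)) hl1
  have h6 := En_lt (h := h) hA hB hC hC5 hh hs hq0 (l1 := 1) (l2 := l) (by norm_num) hl hl2.le
  rw [one_mul, one_mul] at h6
  linarith

/-- the region of the shift lemma, closed under convex combinations -/
structure SR (Q : Mx 3) : Prop where
  symm : Q.IsSymm
  pos : 0 < Q 0 0
  le1 : Q 0 0 ≤ Q 1 1
  le5 : Q 1 1 ≤ 5 * Q 0 0
  off1 : 2 * Q 0 1 ≤ Q 0 0
  off2 : -(2 * Q 0 1) ≤ Q 0 0
  shift : ∀ a b : ℝ, 26 * (2 * (a * Q 0 2 + b * Q 1 2) -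
    (Q 0 0 * a ^ 2 + 2 * Q 0 1 * a * b + Q 1 1 * b ^ 2)) ≤ Q 0 0
  high : ∀ a b : ℝ, 5 * (2 * (a * Q 0 2 + b * Q 1 2) -
    (Q 0 0 * a ^ 2 + 2 * Q 0 1 * a * b + Q 1 1 * b ^ 2)) + 2 * Q 0 0 ≤ 5 * Q 2 2

/-- THE SHIFT LEMMA -/
theorem SR.notMin {Q : Mx 3} (hQ : SR Q) (hne : Q 0 2 ≠ 0 ∨ Q 1 2 ≠ 0) {s : ℝ} (hs : 3 / 2 < s) :
    ¬ LocMin s Q := by
  have hA := hQ.pos
  have hB : 2 * |Q 0 1| ≤ Q 0 0 := by
    rcases abs_choice (Q 0 1) with h | h <;> rw [h]
    · exact hQ.off1
    · have := hQ.off2; linarith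
  have hD := disc_pos' hA hB hQ.le1
  set A := Q 0 0 with hAd
  set B := Q 0 1 with hBd
  set C := Q 1 1 with hCd
  set p := Q 0 2 with hp
  set r := Q 1 2 with hr
  set D := A * C - B ^ 2 with hDd
  set u := (C * p - B * r) / D with hu
  set v := (A * r - B * p) / D with hv
  have e1 : A * u + B * v = p := by
    rw [hu, hv]; field_simp; rw [hDd]; ring
  have e2 : B * u + C * v = r := by
    rw [hu, hv]; field_simp; rw [hDd]; ring
  have e3 : q2 A B C u v = u * p + v * r := by
    rw [← e1, ← e2]; unfold q2; ring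
  have e4 : A * u ^ 2 + 2 * B * u * v + C * v ^ 2 = u * p + v * r := by
    rw [← e3]; rfl
  set h := Q 2 2 - q2 A B C u v with hh
  have hsym := hQ.symm
  have s01 : Q 1 0 = B := hsym.apply 0 1
  have s02 : Q 2 0 = p := hsym.apply 0 2
  have s12 : Q 2 1 = r := hsym.apply 1 2
  have hform : Q = sform A B C h u v := by
    ext i j
    fin_cases i <;> fin_cases j
    · rfl
    · rfl
    · exact e1.symm
    · exact s01
    · rfl
    · exact e2.symm
    · exact s02.trans e1.symm
    · exact s12.trans e2.symm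
    · show Q 2 2 = A * u ^ 2 + 2 * B * u * v + C * v ^ 2 + h
      rw [hh, e3, e4]; ring
  have h6 := hQ.shift u v
  have h7 := hQ.high u v
  rw [e4] at h6 h7
  have huv : u ≠ 0 ∨ v ≠ 0 := by
    by_contra hcon
    push Not at hcon
    rw [hcon.1, hcon.2] at e1 e2
    rcases hne with h | h
    · exact h (by rw [← e1]; ring)
    · exact h (by rw [← e2]; ring)
  have hq0 : 0 < q2 A B C u v := q2_pos hA hD huv
  have h8 : 2 * A ≤ 5 * h := by rw [hh, e3]; linarith
  rw [hform]
  refine sform_notMin hA hB hQ.le1 hQ.le5 h8 hs hq0 ?_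
  rw [e3] at hq0 ⊢
  linarith

theorem SR.add {Q R : Mx 3} (hQ : SR Q) (hR : SR R) : SR (Q + R) where
  symm := hQ.symm.add hR.symm
  pos := add_pos hQ.pos hR.pos
  le1 := add_le_add hQ.le1 hR.le1
  le5 := by
    have h1 := hQ.le5
    have h2 := hR.le5
    simp only [Matrix.add_apply]
    linarith
  off1 := by
    have h1 := hQ.off1
    have h2 := hR.off1
    simp only [Matrix.add_apply]
    linarith
  off2 := by
    have h1 := hQ.off2
    have h2 := hR.off2
    simp only [Matrix.add_apply]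
    linarith
  shift := fun a b => by
    have h1 := hQ.shift a b
    have h2 := hR.shift a b
    simp only [Matrix.add_apply]
    linarith
  high := fun a b => by
    have h1 := hQ.high a b
    have h2 := hR.high a b
    simp only [Matrix.add_apply]
    linarith

theorem SR.smul {Q : Mx 3} (hQ : SR Q) {c : ℝ} (hc : 0 < c) : SR (c • Q) where
  symm := hQ.symm.smul c
  pos := by
    have := mul_pos hc hQ.pos
    simpa using this
  le1 := by
    have := mul_le_mul_of_nonneg_left hQ.le1 hc.le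
    simpa using this
  le5 := by
    have := mul_le_mul_of_nonneg_left hQ.le5 hc.le
    simp only [Matrix.smul_apply, smul_eq_mul]
    linarith
  off1 := by
    have := mul_le_mul_of_nonneg_left hQ.off1 hc.le
    simp only [Matrix.smul_apply, smul_eq_mul]
    linarith
  off2 := by
    have := mul_le_mul_of_nonneg_left hQ.off2 hc.le
    simp only [Matrix.smul_apply, smul_eq_mul]
    linarith
  shift := fun a b => by
    have := mul_le_mul_of_nonneg_left (hQ.shift a b) hc.le
    simp only [Matrix.smul_apply, smul_eq_mul]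
    linarith
  high := fun a b => by
    have := mul_le_mul_of_nonneg_left (hQ.high a b) hc.le
    simp only [Matrix.smul_apply, smul_eq_mul]
    linarith

/-- the shift condition at a vertex: a polynomial inequality -/
theorem shift_of_poly {A B C p r k c : ℝ} (hA : 0 < A) (hD : 0 < A * C - B ^ 2) (hk : 0 < k)
    (h : k * (C * p ^ 2 - 2 * B * p * r + A * r ^ 2) ≤ c * (A * C - B ^ 2)) (a b : ℝ) :
    k * (2 * (a * p + b * r) - (A * a ^ 2 + 2 * B * a * b + C * b ^ 2)) ≤ c := by
  set D := A * C - B ^ 2 with hDd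
  have h1 : 2 * (a * p + b * r) - (A * a ^ 2 + 2 * B * a * b + C * b ^ 2) ≤
      (C * p ^ 2 - 2 * B * p * r + A * r ^ 2) / D := by
    rw [le_div_iff₀ hD]
    have h2 := q2_nonneg (B := B) (C := C) hA hD (a * D - (C * p - B * r)) (b * D - (A * r - B * p))
    have h3 : q2 A B C (a * D - (C * p - B * r)) (b * D - (A * r - B * p)) =
        D * ((C * p ^ 2 - 2 * B * p * r + A * r ^ 2) -
          (2 * (a * p + b * r) - (A * a ^ 2 + 2 * B * a * b + C * b ^ 2)) * D) := by
      unfold q2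
      rw [hDd]
      ring
    rw [h3] at h2
    have h4 := nonneg_of_mul_nonneg_right h2 hD
    linarith
  have h5 := mul_le_mul_of_nonneg_left h1 hk.le
  refine h5.trans ?_
  rw [← mul_div_assoc, div_le_iff₀ hD]
  exact h

end Pool.Agent.Lib.EPH
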